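import Pool.Agent.Lib_MP_84c575_an.Defs

/-!
# Smooth approximation off small sets

A measurable function with finite range on the circle or on the two-dimensional torus agrees with a
smooth function off a set of small measure (Urysohn, Stone-Weierstrass and a smooth step function).
-/

open MeasureTheory Set Filter
open scoped ContDiff Topology ENNReal

namespace Pool.Agent.Odo

noncomputable section

namespace ApproxAux

variable {X Y E : Type*} [TopologicalSpace X] [CompactSpace X] [T2Space X] [MeasurableSpace X]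
  [BorelSpace X] [NormedAddCommGroup Y] [NormedSpace ℝ Y] [NormedAddCommGroup E] [NormedSpace ℝ E]

/-- smooth after composition with the map `π` -/
def SmL (π : Y → X) (f : X → E) : Prop := ContDiff ℝ ∞ (fun y : Y => f (π y))

/-- the subalgebra of continuous functions with a smooth composition with `π` -/
def smAlg (π : Y → X) : Subalgebra ℝ C(X, ℝ) where
  carrier := {f | SmL π (f : X → ℝ)}
  mul_mem' {f g} hf hg := by
    have hf' : ContDiff ℝ ∞ (fun y : Y => f (π y)) := hf
    have hg' : ContDiff ℝ ∞ (fun y : Y => g (π y)) := hg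
    exact hf'.mul hg'
  add_mem' {f g} hf hg := by
    have hf' : ContDiff ℝ ∞ (fun y : Y => f (π y)) := hf
    have hg' : ContDiff ℝ ∞ (fun y : Y => g (π y)) := hg
    exact hf'.add hg'
  algebraMap_mem' r := by
    show ContDiff ℝ ∞ (fun _ : Y => r)
    exact contDiff_const

/-- points are separated by functions with a smooth composition with `π` -/
def Sep (π : Y → X) : Prop :=
  ∀ x y : X, x ≠ y → ∃ f : C(X, ℝ), SmL π (f : X → ℝ) ∧ f x ≠ f y

theorem exists_near {π : Y → X} (hs : Sep π) (f : C(X, ℝ)) {ε : ℝ} (hε : 0 < ε) :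
    ∃ p : X → ℝ, SmL π p ∧ ∀ x, |p x - f x| < ε := by
  have hA : (smAlg π).SeparatesPoints := by
    intro x y hxy
    obtain ⟨g, hg, hne⟩ := hs x y hxy
    exact ⟨g, ⟨g, hg, rfl⟩, hne⟩
  obtain ⟨g, hg⟩ := ContinuousMap.exists_mem_subalgebra_near_continuous_of_separatesPoints
    (smAlg π) hA f f.continuous ε hε
  exact ⟨_, g.2, fun x => by simpa [Real.norm_eq_abs] using hg x⟩

theorem exists_ind {π : Y → X} (hs : Sep π) (μ : Measure X) [IsFiniteMeasure μ] [μ.Regular]
    {S : Set X} (hS : MeasurableSet S) {ε : ℝ≥0∞} (hε : ε ≠ 0) :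
    ∃ θ : X → ℝ, SmL π θ ∧ ∃ B : Set X, μ B ≤ ε ∧ ∀ x, x ∉ B → θ x = S.indicator 1 x := by
  have hε2 : ε / 2 ≠ 0 := by
    simpa using hε
  obtain ⟨U, hSU, hU, -, hUm⟩ := hS.exists_isOpen_sdiff_lt (measure_ne_top μ S) hε2
  obtain ⟨K, hKS, hK, hKm⟩ := hS.exists_isClosed_sdiff_lt (measure_ne_top μ S) hε2
  have hd : Disjoint Uᶜ K := by
    rw [Set.disjoint_left]
    intro x hx hx'
    exact hx (hSU (hKS hx'))
  obtain ⟨f, hf0, hf1, -⟩ := exists_continuous_zero_one_of_isClosed hU.isClosed_compl hK hd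
  obtain ⟨p, hp, hpf⟩ := exists_near hs f (ε := 1 / 8) (by norm_num)
  refine ⟨fun x => Real.smoothTransition (2 * p x - 1 / 2), ?_, (U \ S) ∪ (S \ K), ?_, ?_⟩
  · have hp' : ContDiff ℝ ∞ (fun y : Y => p (π y)) := hp
    show ContDiff ℝ ∞ (fun y : Y => Real.smoothTransition (2 * p (π y) - 1 / 2))
    exact Real.smoothTransition.contDiff.comp ((contDiff_const.mul hp').sub contDiff_const)
  · calc μ ((U \ S) ∪ (S \ K)) ≤ μ (U \ S) + μ (S \ K) := measure_union_le _ _
      _ ≤ ε / 2 + ε / 2 := add_le_add hUm.le hKm.le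
      _ = ε := ENNReal.add_halves ε
  · intro x hx
    rw [Set.mem_union, not_or] at hx
    by_cases hxS : x ∈ S
    · have hxK : x ∈ K := by
        by_contra h
        exact hx.2 ⟨hxS, h⟩
      have h1 := hf1 hxK
      have h2 := hpf x
      rw [h1] at h2
      simp only [Pi.one_apply] at h2
      have h3 := (abs_lt.1 h2).1
      rw [Set.indicator_of_mem hxS, Pi.one_apply]
      apply Real.smoothTransition.one_of_one_le
      linarith
    · have hxU : x ∈ Uᶜ := by
        intro h
        exact hx.1 ⟨h, hxS⟩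
      have h1 := hf0 hxU
      have h2 := hpf x
      rw [h1] at h2
      simp only [Pi.zero_apply, sub_zero] at h2
      have h3 := (abs_lt.1 h2).2
      rw [Set.indicator_of_notMem hxS]
      apply Real.smoothTransition.zero_of_nonpos
      linarith

theorem exists_approx [MeasurableSpace E] [MeasurableSingletonClass E] {π : Y → X} (hs : Sep π)
    (μ : Measure X) [IsFiniteMeasure μ] [μ.Regular] {χ : X → E} (hχ : Measurable χ)
    (hf : (Set.range χ).Finite) {ε : ℝ} (hε : 0 < ε) :
    ∃ χ' : X → E, SmL π χ' ∧ μ {z | χ' z ≠ χ z} ≤ ENNReal.ofReal ε := by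
  classical
  set R : Finset E := hf.toFinset with hR
  have hεR : ENNReal.ofReal (ε / (R.card + 1)) ≠ 0 := by
    rw [Ne, ENNReal.ofReal_eq_zero, not_le]
    positivity
  have hex : ∀ a : E, ∃ θ : X → ℝ, SmL π θ ∧ ∃ B : Set X,
      μ B ≤ ENNReal.ofReal (ε / (R.card + 1)) ∧
      ∀ x, x ∉ B → θ x = (χ ⁻¹' {a}).indicator 1 x := fun a =>
    exists_ind hs μ (hχ (measurableSet_singleton a)) hεR
  choose θ hθ B hB hθB using hex
  refine ⟨fun x => ∑ a ∈ R, θ a x • a, ?_, ?_⟩
  · show ContDiff ℝ ∞ (fun y : Y => ∑ a ∈ R, θ a (π y) • a)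
    apply ContDiff.sum
    intro a _
    have h1 : ContDiff ℝ ∞ (fun y : Y => θ a (π y)) := hθ a
    exact h1.smul contDiff_const
  · have hsub : {z | (fun x => ∑ a ∈ R, θ a x • a) z ≠ χ z} ⊆ ⋃ a ∈ R, B a := by
      intro z hz
      by_contra hz'
      apply hz
      simp only [Set.mem_iUnion, not_exists] at hz'
      have hzR : χ z ∈ R := by
        rw [hR, Set.Finite.mem_toFinset]
        exact Set.mem_range_self z
      show ∑ a ∈ R, θ a z • a = χ z
      rw [Finset.sum_eq_single (χ z)]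
      · rw [hθB (χ z) z (hz' _ hzR), Set.indicator_of_mem (by simp), Pi.one_apply, one_smul]
      · intro a ha hne
        rw [hθB a z (hz' _ ha), Set.indicator_of_notMem, zero_smul]
        intro h
        exact hne h.symm
      · intro h
        exact absurd hzR h
    calc μ {z | (fun x => ∑ a ∈ R, θ a x • a) z ≠ χ z} ≤ μ (⋃ a ∈ R, B a) := measure_mono hsub
      _ ≤ ∑ a ∈ R, μ (B a) := measure_biUnion_finset_le _ _
      _ ≤ ∑ _a ∈ R, ENNReal.ofReal (ε / (R.card + 1)) := Finset.sum_le_sum fun a _ => hB a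
      _ = ENNReal.ofReal (R.card * (ε / (R.card + 1))) := by
          rw [Finset.sum_const, nsmul_eq_mul, ENNReal.ofReal_mul (by positivity),
            ENNReal.ofReal_natCast]
      _ ≤ ENNReal.ofReal ε := by
          apply ENNReal.ofReal_le_ofReal
          rw [mul_div_assoc', div_le_iff₀ (by positivity)]
          nlinarith

/-- real part of the character -/
def reF : C(T1, ℝ) := ⟨fun x => ((AddCircle.toCircle x : Circle) : ℂ).re, by
  exact Complex.continuous_re.comp (continuous_subtype_val.comp AddCircle.continuous_toCircle)⟩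

/-- imaginary part of the character -/
def imF : C(T1, ℝ) := ⟨fun x => ((AddCircle.toCircle x : Circle) : ℂ).im, by
  exact Complex.continuous_im.comp (continuous_subtype_val.comp AddCircle.continuous_toCircle)⟩

theorem reF_coe (t : ℝ) : reF (t : T1) = Real.cos (2 * Real.pi * t) := by
  show ((AddCircle.toCircle (t : T1) : Circle) : ℂ).re = _
  rw [AddCircle.toCircle_apply_mk, Circle.coe_exp, Complex.exp_ofReal_mul_I_re]
  simp

theorem imF_coe (t : ℝ) : imF (t : T1) = Real.sin (2 * Real.pi * t) := by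
  show ((AddCircle.toCircle (t : T1) : Circle) : ℂ).im = _
  rw [AddCircle.toCircle_apply_mk, Circle.coe_exp, Complex.exp_ofReal_mul_I_im]
  simp

theorem sm_reF : ContDiff ℝ ∞ (fun t : ℝ => reF (t : T1)) := by
  simp_rw [reF_coe]
  exact Real.contDiff_cos.comp (contDiff_const.mul contDiff_id)

theorem sm_imF : ContDiff ℝ ∞ (fun t : ℝ => imF (t : T1)) := by
  simp_rw [imF_coe]
  exact Real.contDiff_sin.comp (contDiff_const.mul contDiff_id)

theorem reF_imF_ne {x y : T1} (h : x ≠ y) : reF x ≠ reF y ∨ imF x ≠ imF y := by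
  by_contra hh
  push Not at hh
  apply h
  apply AddCircle.injective_toCircle (T := (1 : ℝ)) one_ne_zero
  apply Circle.ext
  exact Complex.ext hh.1 hh.2

theorem sep1 : Sep (fun t : ℝ => (t : T1)) := by
  intro x y hxy
  rcases reF_imF_ne hxy with h | h
  · exact ⟨reF, sm_reF, h⟩
  · exact ⟨imF, sm_imF, h⟩

theorem sep2 : Sep p2 := by
  have key : ∀ (f : C(T1, ℝ)), ContDiff ℝ ∞ (fun t : ℝ => f (t : T1)) → ∀ x y : T2,
      (f x.1 ≠ f y.1 ∨ f x.2 ≠ f y.2) → ∃ g : C(T2, ℝ), SmL p2 (g : T2 → ℝ) ∧ g x ≠ g y := by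
    intro f hf x y h
    rcases h with h | h
    · refine ⟨f.comp ⟨Prod.fst, continuous_fst⟩, ?_, h⟩
      show ContDiff ℝ ∞ (fun v : E2 => f ((v.1 : ℝ) : T1))
      exact hf.comp contDiff_fst
    · refine ⟨f.comp ⟨Prod.snd, continuous_snd⟩, ?_, h⟩
      show ContDiff ℝ ∞ (fun v : E2 => f ((v.2 : ℝ) : T1))
      exact hf.comp contDiff_snd
  intro x y hxy
  have hne : x.1 ≠ y.1 ∨ x.2 ≠ y.2 := by
    by_contra hh
    push Not at hh
    exact hxy (Prod.ext hh.1 hh.2)
  rcases hne with h | h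
  · rcases reF_imF_ne h with h' | h'
    · exact key reF sm_reF x y (Or.inl h')
    · exact key imF sm_imF x y (Or.inl h')
  · rcases reF_imF_ne h with h' | h'
    · exact key reF sm_reF x y (Or.inr h')
    · exact key imF sm_imF x y (Or.inr h')

end ApproxAux

lemma exists_smooth_approx2 {χ : T2 → ℝ} (hχ : Measurable χ) (hf : (Set.range χ).Finite)
    {ε : ℝ} (hε : 0 < ε) :
    ∃ χ' : T2 → ℝ, Sm2 χ' ∧ volume {z | χ' z ≠ χ z} ≤ ENNReal.ofReal ε :=
  ApproxAux.exists_approx ApproxAux.sep2 volume hχ hf hε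

lemma exists_smooth_approx1 {φ : T1 → E2} (hφ : Measurable φ) (hf : (Set.range φ).Finite)
    {ε : ℝ} (hε : 0 < ε) :
    ∃ φ' : T1 → E2, Sm1 φ' ∧ volume {z | φ' z ≠ φ z} ≤ ENNReal.ofReal ε :=
  ApproxAux.exists_approx ApproxAux.sep1 volume hφ hf hε

end

end Pool.Agent.Odo
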