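import Pool.Agent.Lib_MP_84c575_an.Approx

/-!
Averaged smooth approximation, invariant under a rational translation.
-/

open MeasureTheory Set Filter
open scoped ContDiff Topology

namespace Pool.Agent.Odo

noncomputable section

private lemma avg_iter {χ : T2 → ℝ} {u : T2} (hg : ∀ z, χ (z + u) = χ z) (j : ℕ) (z : T2) :
    χ (z + j • u) = χ z := by
  induction j with
  | zero => simp
  | succ n ih => rw [succ_nsmul, ← add_assoc, hg, ih]

lemma exists_smooth_approx2_inv {χ : T2 → ℝ} (hχ : Measurable χ) (hf : (Set.range χ).Finite)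
    {g : E2} {Q : ℕ} (hQ : 0 < Q) (hQg : Q • p2 g = 0) (hg : ∀ z, χ (z + p2 g) = χ z)
    {ε : ℝ} (hε : 0 < ε) :
    ∃ χ' : T2 → ℝ, Sm2 χ' ∧ (∀ z, χ' (z + p2 g) = χ' z) ∧
      volume {z | χ' z ≠ χ z} ≤ ENNReal.ofReal ε := by
  have hQ' : (0 : ℝ) < Q := by exact_mod_cast hQ
  obtain ⟨χ'', hs, hv⟩ := exists_smooth_approx2 hχ hf (ε := ε / Q) (by positivity)
  refine ⟨fun z => (1 / (Q : ℝ)) * ∑ j ∈ Finset.range Q, χ'' (z + j • p2 g), ?_, ?_, ?_⟩
  · unfold Sm2 at hs ⊢
    have h1 : ∀ j : ℕ, ContDiff ℝ ∞ fun t : E2 => χ'' (p2 t + j • p2 g) := by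
      intro j
      have h2 : (fun t : E2 => χ'' (p2 t + j • p2 g)) =
          (fun t : E2 => χ'' (p2 t)) ∘ fun t : E2 => t + j • g := by
        funext t
        simp only [Function.comp]
        rw [p2_add]
        have h3 : p2 (j • g) = j • p2 g := by
          clear hQg hg hv
          induction j with
          | zero => simp [p2_zero]
          | succ n ih => rw [succ_nsmul, succ_nsmul, p2_add, ih]
        rw [h3]
      rw [h2]
      exact hs.comp (contDiff_id.add contDiff_const)
    exact contDiff_const.mul (ContDiff.sum fun j _ => h1 j)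
  · intro z
    simp only
    congr 1
    have h3 : ∀ j : ℕ, χ'' (z + p2 g + j • p2 g) = χ'' (z + (j + 1) • p2 g) := by
      intro j
      congr 1
      rw [succ_nsmul]; abel
    simp_rw [h3]
    have h4 := Finset.sum_range_succ' (fun j : ℕ => χ'' (z + j • p2 g)) Q
    have h5 := Finset.sum_range_succ (fun j : ℕ => χ'' (z + j • p2 g)) Q
    rw [h5] at h4
    rw [hQg] at h4
    simp only [zero_smul, add_zero] at h4
    linarith
  · have hsub : {z | (1 / (Q : ℝ)) * ∑ j ∈ Finset.range Q, χ'' (z + j • p2 g) ≠ χ z} ⊆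
        ⋃ j ∈ Finset.range Q, (fun z : T2 => z + j • p2 g) ⁻¹' {z | χ'' z ≠ χ z} := by
      intro z hz
      by_contra hcon
      simp only [mem_iUnion, not_exists, mem_preimage, Set.mem_ofPred_eq, not_not] at hcon
      apply hz
      have h6 : ∀ j ∈ Finset.range Q, χ'' (z + j • p2 g) = χ z := by
        intro j hj
        rw [hcon j hj, avg_iter hg]
      rw [Finset.sum_congr rfl h6, Finset.sum_const, Finset.card_range, nsmul_eq_mul]
      field_simp
    have hpre : ∀ j : ℕ, volume ((fun z : T2 => z + j • p2 g) ⁻¹' {z | χ'' z ≠ χ z}) =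
        volume {z | χ'' z ≠ χ z} := by
      intro j
      exact measure_preimage_add_right volume (j • p2 g) _
    calc volume {z | (1 / (Q : ℝ)) * ∑ j ∈ Finset.range Q, χ'' (z + j • p2 g) ≠ χ z}
        ≤ volume (⋃ j ∈ Finset.range Q, (fun z : T2 => z + j • p2 g) ⁻¹' {z | χ'' z ≠ χ z}) :=
          measure_mono hsub
      _ ≤ ∑ j ∈ Finset.range Q, volume ((fun z : T2 => z + j • p2 g) ⁻¹' {z | χ'' z ≠ χ z}) :=
          measure_biUnion_finset_le _ _
      _ = (Q : ENNReal) * volume {z | χ'' z ≠ χ z} := by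
          simp_rw [hpre]
          rw [Finset.sum_const, Finset.card_range, nsmul_eq_mul]
      _ ≤ (Q : ENNReal) * ENNReal.ofReal (ε / Q) := by gcongr
      _ = ENNReal.ofReal ε := by
          rw [← ENNReal.ofReal_natCast, ← ENNReal.ofReal_mul hQ'.le]
          congr 1
          field_simp

end

end Pool.Agent.Odo
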