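import Pool.Agent.Lib_MP_84c575_an.Defs

/-!
# Digits on the circle
-/

open MeasureTheory Set Filter
open scoped ContDiff Topology

namespace Pool.Agent.Odo

noncomputable section

lemma fr_coe (t : ℝ) : fr (t : T1) = Int.fract t := by
  have h := AddCircle.coe_equivIco_mk_apply (p := (1 : ℝ)) t
  rw [div_one, mul_one] at h
  exact h

lemma fr_nonneg (x : T1) : 0 ≤ fr x := (AddCircle.equivIco (1 : ℝ) 0 x).2.1

lemma fr_lt_one (x : T1) : fr x < 1 :=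
  (AddCircle.equivIco (1 : ℝ) 0 x).2.2.trans_eq (zero_add 1)

lemma coe_fr (x : T1) : ((fr x : ℝ) : T1) = x := AddCircle.coe_equivIco (p := (1 : ℝ)) (a := 0)

lemma measurable_fr : Measurable fr :=
  (AddCircle.measurableEquivIco (1 : ℝ) 0).measurable.subtype_val

lemma measurable_dig (Q : ℕ) : Measurable (dig Q) :=
  Nat.measurable_floor.comp (measurable_const.mul measurable_fr)

lemma dig_lt {Q : ℕ} (hQ : 0 < Q) (x : T1) : dig Q x < Q := by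
  have hQ' : (0 : ℝ) < Q := by exact_mod_cast hQ
  unfold dig
  rw [Nat.floor_lt (mul_nonneg hQ'.le (fr_nonneg x))]
  have := fr_lt_one x
  nlinarith

lemma dig_coe {Q : ℕ} (hQ : 0 < Q) (t : ℝ) :
    ((dig Q (t : T1) : ℕ) : ZMod Q) = ((⌊(Q : ℝ) * t⌋ : ℤ) : ZMod Q) := by
  have hQ' : (0 : ℝ) < Q := by exact_mod_cast hQ
  have h1 : ((dig Q (t : T1) : ℕ) : ℤ) = ⌊(Q : ℝ) * t⌋ - (Q : ℤ) * ⌊t⌋ := by
    unfold dig
    rw [fr_coe, Int.natCast_floor_eq_floor (mul_nonneg hQ'.le (Int.fract_nonneg t))]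
    have h2 : (Q : ℝ) * Int.fract t = (Q : ℝ) * t - (((Q : ℤ) * ⌊t⌋ : ℤ) : ℝ) := by
      rw [← Int.self_sub_floor]
      push_cast
      ring
    rw [h2, Int.floor_sub_intCast]
  have h3 : ((dig Q (t : T1) : ℕ) : ZMod Q) = (((dig Q (t : T1) : ℕ) : ℤ) : ZMod Q) := by
    push_cast
    rfl
  rw [h3, h1]
  push_cast
  rw [ZMod.natCast_self, zero_mul, sub_zero]

lemma dig_add {Q : ℕ} (hQ : 0 < Q) (x : T1) (k : ℕ) :
    ((dig Q (x + (((k : ℝ) / Q : ℝ) : T1)) : ℕ) : ZMod Q) = (dig Q x : ZMod Q) + k := by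
  have hQ' : (Q : ℝ) ≠ 0 := by exact_mod_cast hQ.ne'
  obtain ⟨t, rfl⟩ := coe_surj x
  rw [← AddCircle.coe_add, dig_coe hQ, dig_coe hQ]
  have h1 : (Q : ℝ) * (t + (k : ℝ) / Q) = (Q : ℝ) * t + ((k : ℤ) : ℝ) := by
    rw [mul_add, mul_div_cancel₀ _ hQ']
    push_cast
    rfl
  rw [h1, Int.floor_add_intCast]
  push_cast
  rfl

lemma dig_eq_of_cast {Q : ℕ} (hQ : 0 < Q) {x y : T1}
    (h : (dig Q x : ZMod Q) = (dig Q y : ZMod Q)) : dig Q x = dig Q y := by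
  rw [ZMod.natCast_eq_natCast_iff'] at h
  rwa [Nat.mod_eq_of_lt (dig_lt hQ x), Nat.mod_eq_of_lt (dig_lt hQ y)] at h

lemma norm_coe_le (t : ℝ) : ‖(t : T1)‖ ≤ |t| := by
  rw [UnitAddCircle.norm_eq]
  simpa using round_le t 0

lemma norm_sub_dig {Q : ℕ} (hQ : 0 < Q) (x : T1) :
    ‖x - (((dig Q x : ℝ) / Q : ℝ) : T1)‖ < 1 / Q := by
  have hQ' : (0 : ℝ) < Q := by exact_mod_cast hQ
  have h1 : x - (((dig Q x : ℝ) / Q : ℝ) : T1) = ((fr x - (dig Q x : ℝ) / Q : ℝ) : T1) := by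
    rw [AddCircle.coe_sub, coe_fr]
  rw [h1]
  refine (norm_coe_le _).trans_lt ?_
  have h2 : (dig Q x : ℝ) ≤ Q * fr x := Nat.floor_le (mul_nonneg hQ'.le (fr_nonneg x))
  have h3 : Q * fr x < (dig Q x : ℝ) + 1 := Nat.lt_floor_add_one _
  have h4 : fr x - (dig Q x : ℝ) / Q = (Q * fr x - dig Q x) / Q := by
    field_simp
  rw [h4, abs_div, abs_of_pos hQ', div_lt_div_iff_of_pos_right hQ', abs_lt]
  constructor <;> linarith

lemma norm_lt_of_dig_eq {Q : ℕ} (hQ : 0 < Q) {x y : T1} (h : dig Q x = dig Q y) :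
    ‖x - y‖ < 1 / Q := by
  have hQ' : (0 : ℝ) < Q := by exact_mod_cast hQ
  have h1 : x - y = ((fr x - fr y : ℝ) : T1) := by
    rw [AddCircle.coe_sub, coe_fr, coe_fr]
  rw [h1]
  refine (norm_coe_le _).trans_lt ?_
  have h2 : (dig Q x : ℝ) ≤ Q * fr x := Nat.floor_le (mul_nonneg hQ'.le (fr_nonneg x))
  have h3 : Q * fr x < (dig Q x : ℝ) + 1 := Nat.lt_floor_add_one _
  have h4 : (dig Q y : ℝ) ≤ Q * fr y := Nat.floor_le (mul_nonneg hQ'.le (fr_nonneg y))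
  have h5 : Q * fr y < (dig Q y : ℝ) + 1 := Nat.lt_floor_add_one _
  rw [h] at h2 h3
  have h6 : fr x - fr y = (Q * fr x - Q * fr y) / Q := by
    field_simp
  rw [h6, abs_div, abs_of_pos hQ', div_lt_div_iff_of_pos_right hQ', abs_lt]
  constructor <;> linarith

lemma exists_lift_norm (x : T1) : ∃ t : ℝ, (t : T1) = x ∧ |t| = ‖x‖ := by
  obtain ⟨t, rfl⟩ := coe_surj x
  refine ⟨t - round t, ?_, ?_⟩
  · rw [AddCircle.coe_sub, coe_int, sub_zero]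
  · rw [UnitAddCircle.norm_eq]

lemma dig_stable {Q : ℕ} (hQ : 0 < Q) {x y : T1} {r : ℝ} (h : ‖y - x‖ < r)
    (h1 : Q * r ≤ fr (Q • x)) (h2 : fr (Q • x) ≤ 1 - Q * r) : dig Q y = dig Q x := by
  have hQ' : (0 : ℝ) < Q := by exact_mod_cast hQ
  obtain ⟨e, he, he'⟩ := exists_lift_norm (y - x)
  obtain ⟨a, rfl⟩ := coe_surj x
  have hy : y = ((a + e : ℝ) : T1) := by
    rw [AddCircle.coe_add, he]
    abel
  rw [nsmul_coe, fr_coe] at h1 h2
  rw [← he', abs_lt] at h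
  apply dig_eq_of_cast hQ
  rw [hy, dig_coe hQ, dig_coe hQ]
  congr 1
  rw [Int.floor_eq_iff]
  have h3 := Int.floor_add_fract ((Q : ℝ) * a)
  have h4 : -(Q * r) < Q * e := by nlinarith
  have h5 : Q * e < Q * r := by nlinarith
  constructor
  · rw [mul_add]
    linarith
  · rw [mul_add]
    linarith

lemma dig_diff {l : ℕ} (hl : 0 < l) {x y : T1} (h : ‖y - x‖ < 2 / l) :
    ∃ k : ℤ, |k| ≤ 3 ∧ ((dig l y : ℕ) : ZMod l) = (dig l x : ZMod l) + k := by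
  have hl' : (0 : ℝ) < l := by exact_mod_cast hl
  obtain ⟨e, he, he'⟩ := exists_lift_norm (y - x)
  obtain ⟨a, rfl⟩ := coe_surj x
  have hy : y = ((a + e : ℝ) : T1) := by
    rw [AddCircle.coe_add, he]
    abel
  refine ⟨⌊(l : ℝ) * (a + e)⌋ - ⌊(l : ℝ) * a⌋, ?_, ?_⟩
  · rw [← he', lt_div_iff₀ hl'] at h
    have h1 : |(l : ℝ) * e| < 2 := by
      rw [abs_mul, abs_of_pos hl']
      linarith
    rw [abs_lt] at h1
    have h2 := Int.floor_le ((l : ℝ) * (a + e))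
    have h3 := Int.lt_floor_add_one ((l : ℝ) * (a + e))
    have h4 := Int.floor_le ((l : ℝ) * a)
    have h5 := Int.lt_floor_add_one ((l : ℝ) * a)
    rw [mul_add] at h2 h3
    have h6 : (((⌊(l : ℝ) * (a + e)⌋ - ⌊(l : ℝ) * a⌋ : ℤ)) : ℝ) < 4 := by
      push_cast
      rw [mul_add]
      linarith
    have h7 : (-4 : ℝ) < (((⌊(l : ℝ) * (a + e)⌋ - ⌊(l : ℝ) * a⌋ : ℤ)) : ℝ) := by
      push_cast
      rw [mul_add]
      linarith
    have h8 : (⌊(l : ℝ) * (a + e)⌋ - ⌊(l : ℝ) * a⌋ : ℤ) < 4 := by exact_mod_cast h6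
    have h9 : -4 < (⌊(l : ℝ) * (a + e)⌋ - ⌊(l : ℝ) * a⌋ : ℤ) := by exact_mod_cast h7
    rw [abs_le]
    constructor <;> omega
  · rw [hy, dig_coe hl, dig_coe hl]
    push_cast
    ring

lemma volume_fr_bad {a : ℝ} (ha : 0 ≤ a) :
    volume {x : T1 | ¬ (a ≤ fr x ∧ fr x ≤ 1 - a)} ≤ ENNReal.ofReal (2 * a) := by
  have hm : MeasurableSet {x : T1 | ¬ (a ≤ fr x ∧ fr x ≤ 1 - a)} :=
    (measurable_fr measurableSet_Icc).compl
  have hmp := UnitAddCircle.measurePreserving_mk 0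
  rw [← hmp.measure_preimage hm.nullMeasurableSet,
    Measure.restrict_apply (hmp.measurable hm)]
  have hsub : ((fun x : ℝ => (x : UnitAddCircle)) ⁻¹' {x : T1 | ¬ (a ≤ fr x ∧ fr x ≤ 1 - a)}) ∩
      Ioc 0 (0 + 1) ⊆ Ioo 0 a ∪ Ioc (1 - a) 1 ∪ {1} := by
    rintro t ⟨h1, h2, h3⟩
    rw [zero_add] at h3
    rcases h3.lt_or_eq with h3 | h3
    · have h4 : fr (t : T1) = t := by
        rw [fr_coe, Int.fract_eq_self.2 ⟨h2.le, h3⟩]
      replace h1 : ¬ (a ≤ fr (t : T1) ∧ fr (t : T1) ≤ 1 - a) := h1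
      rw [h4] at h1
      left
      by_cases h5 : a ≤ t
      · right
        have h6 : ¬ t ≤ 1 - a := fun h => h1 ⟨h5, h⟩
        exact ⟨not_le.1 h6, h3.le⟩
      · left
        exact ⟨h2, not_le.1 h5⟩
    · right
      exact h3
  refine (measure_mono hsub).trans ((measure_union_le _ _).trans ?_)
  rw [Real.volume_singleton, add_zero]
  refine (measure_union_le _ _).trans ?_
  rw [Real.volume_Ioo, Real.volume_Ioc, ← ENNReal.ofReal_add (by linarith) (by linarith)]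
  apply ENNReal.ofReal_le_ofReal
  linarith

end

end Pool.Agent.Odo
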