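import Pool.Agent.Lib_MP_84c575_an.Defs

/-!
# Smallness of the change of a conjugated rotation

`h R_{g + s w} h⁻¹` is close to `h R_g h⁻¹` in the `C^N` sense when `s` is small.
-/

open MeasureTheory Set Filter
open scoped ContDiff Topology

namespace Pool.Agent.Odo

noncomputable section

/-- the family `(s, x) ↦ h (h⁻¹ x + (g + s w, 0)) - h (h⁻¹ x + (g, 0))` -/
def closeD (h : TD) (g w : E2) (q : ℝ × E3) : E3 :=
  h.F (h.F.symm q.2 + ((g + q.1 • w, 0) : E3)) - h.F (h.F.symm q.2 + ((g, 0) : E3))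

lemma contDiff_closeD (h : TD) (g w : E2) : ContDiff ℝ ∞ (closeD h g w) := by
  unfold closeD
  have h1 : ContDiff ℝ ∞ (fun q : ℝ × E3 => h.F.symm q.2) := h.smooth'.comp contDiff_snd
  have h2 : ContDiff ℝ ∞ (fun q : ℝ × E3 => ((g + q.1 • w, (0 : ℝ)) : E3)) :=
    (contDiff_const.add (contDiff_fst.smul contDiff_const)).prodMk contDiff_const
  exact (h.smooth.comp (h1.add h2)).sub (h.smooth.comp (h1.add contDiff_const))

lemma closeD_zero (h : TD) (g w : E2) (x : E3) : closeD h g w (0, x) = 0 := by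
  simp [closeD]

lemma closeD_per (h : TD) (g w : E2) (s : ℝ) (x : E3) (a b c : ℤ) :
    closeD h g w (s, x + ZZ a b c) = closeD h g w (s, x) := by
  have h1 : h.F.symm (x + ZZ a b c) = h.F.symm x + ZZ a b c := h.symm.per x a b c
  simp only [closeD, h1]
  rw [add_right_comm, h.per, add_right_comm, h.per]
  abel

/-- derivative along the slice -/
lemma iteratedFDeriv_slice {D : ℝ × E3 → E3} (hD : ContDiff ℝ ∞ D) (j : ℕ) (s : ℝ) (x : E3) :
    iteratedFDeriv ℝ j (fun x : E3 => D (s, x)) x =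
      (iteratedFDeriv ℝ j D (s, x)).compContinuousLinearMap
        (fun _ => ContinuousLinearMap.inr ℝ ℝ E3) := by
  have h1 : (fun x : E3 => D (s, x)) =
      (fun y : ℝ × E3 => D ((s, 0) + y)) ∘ (ContinuousLinearMap.inr ℝ ℝ E3) := by
    funext x
    simp
  have h2 : ContDiff ℝ j (fun y : ℝ × E3 => D ((s, 0) + y)) :=
    (hD.comp (contDiff_const.add contDiff_id)).of_le (by exact_mod_cast le_top)
  rw [h1, ContinuousLinearMap.iteratedFDeriv_comp_right _ h2 _ le_rfl,
    iteratedFDeriv_comp_add_left]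
  simp

lemma continuous_slice {D : ℝ × E3 → E3} (hD : ContDiff ℝ ∞ D) (j : ℕ) :
    Continuous (fun q : ℝ × E3 => iteratedFDeriv ℝ j (fun x : E3 => D (q.1, x)) q.2) := by
  have h1 : (fun q : ℝ × E3 => iteratedFDeriv ℝ j (fun x : E3 => D (q.1, x)) q.2) =
      fun q : ℝ × E3 => (ContinuousMultilinearMap.compContinuousLinearMapL (𝕜 := ℝ) (F := E3)
        (fun _ : Fin j => ContinuousLinearMap.inr ℝ ℝ E3)) (iteratedFDeriv ℝ j D q) := by
    funext q
    rw [iteratedFDeriv_slice hD]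
    rfl
  rw [h1]
  exact (ContinuousLinearMap.continuous _).comp
    (hD.continuous_iteratedFDeriv (by exact_mod_cast le_top))

lemma close_of_small (h : TD) (g w : E2) (N : ℕ) {ε : ℝ} (hε : 0 < ε) :
    ∃ δ > 0, ∀ s : ℝ, |s| ≤ δ → ∀ j ≤ N, ∀ x : E3,
      ‖iteratedFDeriv ℝ j
        (fun x : E3 => h.F (h.F.symm x + (g + s • w, 0)) - h.F (h.F.symm x + (g, 0))) x‖ ≤ ε := by
  let K : Set E3 := (Icc 0 1 ×ˢ Icc 0 1) ×ˢ Icc 0 1
  have hK : IsCompact K := (isCompact_Icc.prod isCompact_Icc).prod isCompact_Icc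
  have hD := contDiff_closeD h g w
  have hj : ∀ j : ℕ, ∀ᶠ s in 𝓝 (0 : ℝ), ∀ x ∈ K,
      ‖iteratedFDeriv ℝ j (fun x : E3 => closeD h g w (s, x)) x‖ < ε := by
    intro j
    refine hK.eventually_forall_of_forall_eventually fun x _ => ?_
    have hc := (continuous_slice hD j).norm.tendsto (0, x)
    have h0 : ‖iteratedFDeriv ℝ j (fun x : E3 => closeD h g w ((0 : ℝ), x)) x‖ = 0 := by
      have : (fun x : E3 => closeD h g w ((0 : ℝ), x)) = fun _ => 0 := by
        funext x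
        exact closeD_zero h g w x
      rw [this]
      rcases j with _ | j
      · simp
      · rw [iteratedFDeriv_const_of_ne (by omega)]
        simp
    exact hc.eventually (gt_mem_nhds (by rw [h0]; exact hε))
  have hall : ∀ᶠ s in 𝓝 (0 : ℝ), ∀ j ∈ Finset.range (N + 1), ∀ x ∈ K,
      ‖iteratedFDeriv ℝ j (fun x : E3 => closeD h g w (s, x)) x‖ < ε :=
    (Filter.eventually_all_finset _).2 fun j _ => hj j
  obtain ⟨δ, hδ, hδ'⟩ := Metric.eventually_nhds_iff.1 hall
  refine ⟨δ / 2, by positivity, fun s hs j hjN x => ?_⟩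
  have hs' : dist s 0 < δ := by
    rw [Real.dist_eq, sub_zero]
    linarith
  obtain ⟨y, hy, a, b, c, hxy⟩ : ∃ y ∈ K, ∃ a b c : ℤ, x = y + ZZ a b c := by
    refine ⟨((Int.fract x.1.1, Int.fract x.1.2), Int.fract x.2), ?_, ⌊x.1.1⌋, ⌊x.1.2⌋, ⌊x.2⌋, ?_⟩
    · exact ⟨⟨⟨Int.fract_nonneg _, (Int.fract_lt_one _).le⟩,
        ⟨Int.fract_nonneg _, (Int.fract_lt_one _).le⟩⟩,
        ⟨Int.fract_nonneg _, (Int.fract_lt_one _).le⟩⟩
    · refine Prod.ext (Prod.ext ?_ ?_) ?_
      · simp [ZZ]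
      · simp [ZZ]
      · simp [ZZ]
  have h1 := hδ' hs' j (Finset.mem_range.2 (by omega)) y hy
  have h2 : iteratedFDeriv ℝ j (fun x : E3 => closeD h g w (s, x)) x =
      iteratedFDeriv ℝ j (fun x : E3 => closeD h g w (s, x)) y := by
    have h3 := iteratedFDeriv_comp_add_right (𝕜 := ℝ) (f := fun x : E3 => closeD h g w (s, x)) j
      (ZZ a b c) y
    rw [← hxy] at h3
    rw [← h3]
    congr 1
    funext z
    exact closeD_per h g w s z a b c
  have h4 : (fun x : E3 => h.F (h.F.symm x + (g + s • w, 0)) - h.F (h.F.symm x + (g, 0))) =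
      fun x : E3 => closeD h g w (s, x) := rfl
  rw [h4, h2]
  exact h1.le

end

end Pool.Agent.Odo
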