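import Mathlib

/-!
# Smooth realization of odometers: definitions

The torus `T3 = T2 × T1`, smooth diffeomorphisms with lifts (`TD`), shears, the digit functions,
the labels of the construction, and the odometer.
-/

open MeasureTheory Set Filter
open scoped ContDiff Topology

namespace Pool.Agent.Odo

noncomputable section

/-- the circle `ℝ/ℤ` -/
abbrev T1 : Type := UnitAddCircle
/-- the two-dimensional torus -/
abbrev T2 : Type := T1 × T1
/-- the three-dimensional torus -/
abbrev T3 : Type := T2 × T1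
/-- the plane -/
abbrev E2 : Type := ℝ × ℝ
/-- three-dimensional space -/
abbrev E3 : Type := E2 × ℝ

/-- covering map `E2 → T2` -/
def p2 (x : E2) : T2 := ((x.1 : T1), (x.2 : T1))
/-- covering map `E3 → T3` -/
def p3 (x : E3) : T3 := (p2 x.1, (x.2 : T1))

/-- integer vectors of `E3` -/
def ZZ (a b c : ℤ) : E3 := (((a : ℝ), (b : ℝ)), (c : ℝ))

instance : IsProbabilityMeasure (volume : Measure T1) := ⟨UnitAddCircle.measure_univ⟩

instance : IsProbabilityMeasure (volume : Measure T2) := by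
  show IsProbabilityMeasure (Measure.prod (volume : Measure T1) (volume : Measure T1))
  infer_instance

instance : IsProbabilityMeasure (volume : Measure T3) := by
  show IsProbabilityMeasure (Measure.prod (volume : Measure T2) (volume : Measure T1))
  infer_instance

instance : (volume : Measure T2).IsAddHaarMeasure := by
  show (Measure.prod (volume : Measure T1) (volume : Measure T1)).IsAddHaarMeasure
  infer_instance

instance : (volume : Measure T3).IsAddHaarMeasure := by
  show (Measure.prod (volume : Measure T2) (volume : Measure T1)).IsAddHaarMeasure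
  apply Measure.prod.instIsAddHaarMeasure

/-! ### digits -/

/-- the representative in `[0,1)` -/
def fr (x : T1) : ℝ := (AddCircle.equivIco (1 : ℝ) 0 x : ℝ)

/-- the index of the interval `[j/Q, (j+1)/Q)` that contains `x` -/
def dig (Q : ℕ) (x : T1) : ℕ := ⌊(Q : ℝ) * fr x⌋₊

/-! ### diffeomorphisms with lifts -/

/-- A volume preserving bijection `e` of the torus `T3` which lifts to a `C^∞` diffeomorphism `F`
of `E3` commuting with integer translations. -/
structure TD where
  e : T3 ≃ T3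
  F : E3 ≃ E3
  smooth : ContDiff ℝ ∞ F
  smooth' : ContDiff ℝ ∞ F.symm
  sc : ∀ x, p3 (F x) = e (p3 x)
  per : ∀ (x : E3) (a b c : ℤ), F (x + ZZ a b c) = F x + ZZ a b c
  mp : MeasurePreserving e volume volume
  mp' : MeasurePreserving e.symm volume volume

lemma coe_surj (x : T1) : ∃ t : ℝ, (t : T1) = x := QuotientAddGroup.mk_surjective x

lemma p2_surj (x : T2) : ∃ t : E2, p2 t = x := by
  obtain ⟨a, ha⟩ := coe_surj x.1
  obtain ⟨b, hb⟩ := coe_surj x.2
  exact ⟨(a, b), by simp [p2, ha, hb]⟩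

lemma p3_surj (x : T3) : ∃ t : E3, p3 t = x := by
  obtain ⟨a, ha⟩ := p2_surj x.1
  obtain ⟨b, hb⟩ := coe_surj x.2
  exact ⟨(a, b), by simp [p3, ha, hb]⟩

lemma p2_add (x y : E2) : p2 (x + y) = p2 x + p2 y := by
  simp [p2]

lemma p2_sub (x y : E2) : p2 (x - y) = p2 x - p2 y := by
  simp [p2]

lemma p2_neg (x : E2) : p2 (-x) = -p2 x := by
  simp [p2]

lemma p2_zero : p2 0 = 0 := by
  simp [p2]

lemma p3_add (x y : E3) : p3 (x + y) = p3 x + p3 y := by
  simp [p3, p2_add]

/-- inverse of a torus diffeomorphism -/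
def TD.symm (h : TD) : TD where
  e := h.e.symm
  F := h.F.symm
  smooth := h.smooth'
  smooth' := h.smooth
  sc x := by
    rw [Equiv.eq_symm_apply, ← h.sc, Equiv.apply_symm_apply]
  per x a b c := by
    rw [Equiv.symm_apply_eq, h.per, Equiv.apply_symm_apply]
  mp := h.mp'
  mp' := h.mp

/-- composition: first `h`, then `k` -/
def TD.trans (h k : TD) : TD where
  e := h.e.trans k.e
  F := h.F.trans k.F
  smooth := k.smooth.comp h.smooth
  smooth' := h.smooth'.comp k.smooth'
  sc x := by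
    simp only [Equiv.trans_apply]
    rw [k.sc, h.sc]
  per x a b c := by
    simp only [Equiv.trans_apply]
    rw [h.per, k.per]
  mp := k.mp.comp h.mp
  mp' := h.mp'.comp k.mp'

/-- identity -/
def TD.refl : TD where
  e := Equiv.refl _
  F := Equiv.refl _
  smooth := contDiff_id
  smooth' := contDiff_id
  sc _ := rfl
  per _ _ _ _ := rfl
  mp := MeasurePreserving.id _
  mp' := MeasurePreserving.id _

/-! ### shears -/

/-- `(z,c) ↦ (z + φ(c), c)` -/
def Zs (φ : T1 → E2) : T3 ≃ T3 where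
  toFun y := (y.1 + p2 (φ y.2), y.2)
  invFun y := (y.1 - p2 (φ y.2), y.2)
  left_inv y := by simp
  right_inv y := by simp

/-- `(z,c) ↦ (z, c + χ(z))` -/
def Cs (χ : T2 → ℝ) : T3 ≃ T3 where
  toFun y := (y.1, y.2 + ((χ y.1 : ℝ) : T1))
  invFun y := (y.1, y.2 - ((χ y.1 : ℝ) : T1))
  left_inv y := by simp
  right_inv y := by simp

/-- smoothness of a function on the circle -/
def Sm1 (φ : T1 → E2) : Prop := ContDiff ℝ ∞ (fun t : ℝ => φ (t : T1))

/-- smoothness of a function on `T2` -/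
def Sm2 (χ : T2 → ℝ) : Prop := ContDiff ℝ ∞ (fun x : E2 => χ (p2 x))

/-- The composition `Z_{-φ1} ∘ C_{-χ2} ∘ Z_{φ1} ∘ C_{χ2} ∘ C_{χb} ∘ Z_{φa}`. -/
def Gx (φa φ1 : T1 → E2) (χb χ2 : T2 → ℝ) : T3 ≃ T3 :=
  (Zs φa).trans ((Cs χb).trans ((Cs χ2).trans ((Zs φ1).trans ((Cs χ2).symm.trans (Zs φ1).symm))))

/-! ### parameters and labels -/

/-- `z₁ + κ z₂` -/
def vd (κ : ℕ) (z : T2) : T1 := z.1 + κ • z.2

lemma vd_add (κ : ℕ) (z z' : T2) : vd κ (z + z') = vd κ z + vd κ z' := by
  simp only [vd, Prod.fst_add, Prod.snd_add, nsmul_add]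
  abel

lemma vd_sub (κ : ℕ) (z z' : T2) : vd κ (z - z') = vd κ z - vd κ z' := by
  simp only [vd, Prod.fst_sub, Prod.snd_sub, nsmul_sub]
  abel

/-- parameters of one stage -/
structure Par where
  Q : ℕ
  κ : ℕ
  u : ℕ
  g : E2
  hQ : 0 < Q
  hu : Nat.Coprime u Q
  hg : Q • p2 g = 0
  hv : vd κ (p2 g) = (((u : ℝ) / Q : ℝ) : T1)

instance (P : Par) : NeZero P.Q := ⟨P.hQ.ne'⟩

/-- the direction `w = (-κ, 1)` -/
def Par.w (P : Par) : E2 := (-(P.κ : ℝ), 1)

/-- the initial parameters -/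
def Par.init : Par where
  Q := 1
  κ := 0
  u := 1
  g := 0
  hQ := one_pos
  hu := Nat.coprime_one_left 1
  hg := by rw [p2_zero, smul_zero]
  hv := by
    rw [p2_zero]
    simp only [vd, Prod.fst_zero, Prod.snd_zero, smul_zero, add_zero, Nat.cast_one, div_one]
    exact (AddCircle.coe_period 1).symm

lemma nsmul_coe (n : ℕ) (t : ℝ) : n • ((t : ℝ) : T1) = (((n : ℝ) * t : ℝ) : T1) := by
  rw [← AddCircle.coe_nsmul, nsmul_eq_mul]

lemma coe_int (k : ℤ) : (((k : ℝ) : ℝ) : T1) = 0 := by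
  have := AddCircle.coe_eq_zero_iff (1 : ℝ) (x := (k : ℝ))
  rw [this]
  exact ⟨k, by simp⟩

lemma coe_nat (k : ℕ) : (((k : ℝ) : ℝ) : T1) = 0 := by
  have := coe_int k
  simpa using this

lemma nsmul_p2 (n : ℕ) (x : E2) : n • p2 x = p2 ((n : ℝ) • x) := by
  refine Prod.ext ?_ ?_
  · exact nsmul_coe n x.1
  · exact nsmul_coe n x.2

lemma p2_w_smul (P : Par) (n : ℕ) : p2 ((n : ℝ) • P.w) = 0 := by
  have h1 : (((n : ℝ) * (-(P.κ : ℝ)) : ℝ) : T1) = 0 := by
    have := coe_int (-((n * P.κ : ℕ) : ℤ))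
    rw [← this]
    push_cast
    congr 1
    ring
  have h2 : (((n : ℝ) * 1 : ℝ) : T1) = 0 := by
    rw [mul_one]
    exact coe_nat n
  refine Prod.ext ?_ ?_
  · exact h1
  · exact h2

/-- the next parameters -/
def Par.next (P : Par) (l : ℕ) (hl : 0 < l) (hc : Nat.Coprime P.Q l) : Par where
  Q := P.Q * l
  κ := P.κ + P.Q
  u := P.u * l + P.Q ^ 2
  g := P.g + (1 / (l : ℝ)) • P.w
  hQ := Nat.mul_pos P.hQ hl
  hu := by
    apply Nat.Coprime.mul_right
    · have h1 : Nat.Coprime (P.u * l) P.Q := Nat.Coprime.mul_left P.hu hc.symm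
      rw [pow_two]
      exact (Nat.coprime_add_mul_left_left (P.u * l) P.Q P.Q).2 h1
    · have h1 : Nat.Coprime (P.Q ^ 2) l := Nat.Coprime.pow_left 2 hc
      rw [add_comm]
      exact (Nat.coprime_add_mul_right_left (P.Q ^ 2) l P.u).2 h1
  hg := by
    have h0 : (P.Q * l) • p2 P.g = 0 := by
      rw [mul_comm, mul_smul, P.hg, smul_zero]
    rw [p2_add, smul_add, h0, zero_add, nsmul_p2, smul_smul]
    have hl' : (l : ℝ) ≠ 0 := by positivity
    have : ((P.Q * l : ℕ) : ℝ) * (1 / (l : ℝ)) = (P.Q : ℝ) := by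
      push_cast
      field_simp
    rw [this]
    exact p2_w_smul P P.Q
  hv := by
    have hl' : (l : ℝ) ≠ 0 := by positivity
    have hQ' : (P.Q : ℝ) ≠ 0 := by
      have := P.hQ
      positivity
    have hg2 : P.Q • (p2 P.g).2 = 0 := by
      have := congrArg Prod.snd P.hg
      simpa using this
    have h0 : ∀ z : T2, vd (P.κ + P.Q) z = vd P.κ z + P.Q • z.2 := by
      intro z
      simp only [vd, add_smul]
      abel
    rw [p2_add, h0, vd_add, P.hv, Prod.snd_add, smul_add, hg2, zero_add]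
    have h1 : vd P.κ (p2 ((1 / (l : ℝ)) • P.w)) = 0 := by
      simp only [vd, p2, Par.w, Prod.smul_fst, Prod.smul_snd, smul_eq_mul, nsmul_coe]
      rw [← AddCircle.coe_add]
      have : 1 / (l : ℝ) * -(P.κ : ℝ) + P.κ * (1 / (l : ℝ) * 1) = 0 := by ring
      rw [this]
      exact AddCircle.coe_zero (p := (1 : ℝ))
    have h2 : P.Q • (p2 ((1 / (l : ℝ)) • P.w)).2 = (((P.Q : ℝ) / l : ℝ) : T1) := by
      simp only [p2, Par.w, Prod.smul_snd, smul_eq_mul, nsmul_coe]
      congr 1
      ring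
    rw [h1, h2, add_zero, ← AddCircle.coe_add]
    congr 1
    push_cast
    field_simp

/-- the coarse label of stage `P` -/
def lab1 (P : Par) (z : T2) : ZMod P.Q := (P.u : ZMod P.Q)⁻¹ * (dig P.Q (vd P.κ z) : ZMod P.Q)

/-- the fine label -/
def lab2 (P : Par) (l : ℕ) (z : T2) : ZMod l :=
  (dig l (z.2 - (lab1 P z).val • (p2 P.g).2) : ZMod l)

/-- the label of the next stage -/
def labN (P : Par) (l : ℕ) (hc : Nat.Coprime P.Q l) (z : T2) : ZMod (P.Q * l) :=
  (ZMod.chineseRemainder hc).symm (lab1 P z, lab2 P l z)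

/-! ### stages -/

/-- a stage of the construction -/
structure Stage where
  P : Par
  φ : T2 → ZMod P.Q
  hφm : Measurable φ
  hφ : ∀ z, φ (z + p2 P.g) = φ z + 1
  h : TD

/-- the function `X = φ' - φ` -/
def Stage.X (S : Stage) (z : T2) : ZMod S.P.Q := lab1 S.P z - S.φ z

/-- the exact map `G` of stage `S` with parameter `M` -/
def Stage.G (S : Stage) (M : ℕ) : T3 ≃ T3 :=
  Gx (fun c => ((dig M c : ℝ) / (M * S.P.Q)) • S.P.w)
    (fun c => (dig S.P.Q c : ℝ) • S.P.g)
    (fun z => -((dig M (S.P.Q • z.2) : ℝ) / M))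
    (fun z => ((S.X z).val : ℝ) / S.P.Q)

/-! ### the odometer -/

/-- The odometer group with scale `q`: the inverse limit of the groups `ℤ/q_k`, a closed subgroup
of the product. It carries the subspace topology of the product of discrete spaces. -/
def odo (q : ℕ → ℕ) (hd : ∀ k, q k ∣ q (k + 1)) : AddSubgroup (∀ k, ZMod (q k)) where
  carrier := {x | ∀ k, ZMod.castHom (hd k) (ZMod (q k)) (x (k + 1)) = x k}
  add_mem' {x y} hx hy k := by
    have h1 := hx k
    have h2 := hy k
    simp only [Pi.add_apply, map_add, h1, h2]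
  zero_mem' k := by simp only [Pi.zero_apply, map_zero]
  neg_mem' {x} hx k := by
    have h1 := hx k
    simp only [Pi.neg_apply, map_neg, h1]

/-- the element `1` of the odometer -/
def odoOne (q : ℕ → ℕ) (hd : ∀ k, q k ∣ q (k + 1)) : odo q hd :=
  ⟨fun _ => 1, fun k => map_one (ZMod.castHom (hd k) (ZMod (q k)))⟩

lemma odo_isClosed (q : ℕ → ℕ) (hd : ∀ k, q k ∣ q (k + 1)) :
    IsClosed ((odo q hd : AddSubgroup (∀ k, ZMod (q k))) : Set (∀ k, ZMod (q k))) := by
  have : ((odo q hd : AddSubgroup (∀ k, ZMod (q k))) : Set (∀ k, ZMod (q k))) =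
      ⋂ k, {x | ZMod.castHom (hd k) (ZMod (q k)) (x (k + 1)) = x k} := by
    ext x
    simp [odo]
  rw [this]
  refine isClosed_iInter fun k => isClosed_eq ?_ (continuous_apply k)
  exact (continuous_of_discreteTopology (f := fun a : ZMod (q (k+1)) =>
    ZMod.castHom (hd k) (ZMod (q k)) a)).comp (continuous_apply (k + 1))

instance odo_compact (q : ℕ → ℕ) (hd : ∀ k, q k ∣ q (k + 1)) [∀ k, NeZero (q k)] :
    CompactSpace (odo q hd) :=
  isCompact_iff_compactSpace.1 (odo_isClosed q hd).isCompact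

/-- the normalised Haar measure of the odometer -/
def odoHaar (q : ℕ → ℕ) (hd : ∀ k, q k ∣ q (k + 1)) [∀ k, NeZero (q k)] : Measure (odo q hd) :=
  Measure.addHaarMeasure ⊤

end

end Pool.Agent.Odo
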