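import Pool.Agent.Lib_MP_84c575_an.Defs

/-!
# Uniform limits of measure preserving maps
-/

open MeasureTheory Set Filter
open scoped ContDiff Topology

namespace Pool.Agent.Odo

noncomputable section

lemma limMP_two_half_pow : Tendsto (fun n : ℕ => (2 : ℝ) * (1 / 2) ^ n) atTop (𝓝 0) := by
  have h := (tendsto_pow_atTop_nhds_zero_of_lt_one (r := (1 / 2 : ℝ)) (by norm_num)
    (by norm_num)).const_mul 2
  simpa using h

lemma mp_of_uniform_limit {M : Type*} [MetricSpace M] [CompactSpace M] [MeasurableSpace M]
    [BorelSpace M] (μ : Measure M) [IsProbabilityMeasure μ] (fn : ℕ → M → M) (f : M → M)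
    (hfn : ∀ n, MeasurePreserving (fn n) μ μ) (hfn' : ∀ n, Continuous (fn n))
    (hf : ∀ n x, dist (fn n x) (f x) ≤ 2 * (1 / 2) ^ n) :
    MeasurePreserving f μ μ := by
  have hpt : ∀ x, Tendsto (fun n => fn n x) atTop (𝓝 (f x)) := by
    intro x
    rw [tendsto_iff_dist_tendsto_zero]
    exact squeeze_zero (fun n => dist_nonneg) (fun n => hf n x) limMP_two_half_pow
  have hu : TendstoUniformly fn f atTop := by
    rw [Metric.tendstoUniformly_iff]
    intro ε hε
    have h1 : ∀ᶠ n : ℕ in atTop, (2 : ℝ) * (1 / 2) ^ n < ε :=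
      limMP_two_half_pow.eventually (gt_mem_nhds hε)
    filter_upwards [h1] with n hn x
    rw [dist_comm]
    exact lt_of_le_of_lt (hf n x) hn
  have hc : Continuous f := hu.continuous (Frequently.of_forall hfn')
  refine ⟨hc.measurable, ?_⟩
  have : IsProbabilityMeasure (μ.map f) := Measure.isProbabilityMeasure_map hc.aemeasurable
  refine ext_of_forall_integral_eq_of_IsFiniteMeasure ?_
  intro g
  rw [integral_map hc.aemeasurable g.continuous.aestronglyMeasurable]
  have h1 : ∀ n, ∫ x, g (fn n x) ∂μ = ∫ x, g x ∂μ := by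
    intro n
    have h := integral_map (μ := μ) (hfn' n).aemeasurable
      (f := g) g.continuous.aestronglyMeasurable
    rw [(hfn n).map_eq] at h
    exact h.symm
  have h2 : Tendsto (fun n => ∫ x, g (fn n x) ∂μ) atTop (𝓝 (∫ x, g (f x) ∂μ)) := by
    refine tendsto_integral_of_dominated_convergence (fun _ => ‖g‖) ?_ ?_ ?_ ?_
    · intro n
      exact (g.continuous.comp (hfn' n)).aestronglyMeasurable
    · exact integrable_const _
    · intro n
      exact Eventually.of_forall fun x => g.norm_coe_le_norm _
    · exact Eventually.of_forall fun x => (g.continuous.tendsto _).comp (hpt x)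
  have h3 : Tendsto (fun n => ∫ x, g (fn n x) ∂μ) atTop (𝓝 (∫ x, g x ∂μ)) := by
    simp only [h1]
    exact tendsto_const_nhds
  exact tendsto_nhds_unique h2 h3

end

end Pool.Agent.Odo
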