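import Pool.Agent.Lib_MP_84c575_an.Defs

/-!
# Torus diffeomorphisms: basic facts
-/

open MeasureTheory Set Filter
open scoped ContDiff Topology

namespace Pool.Agent.Odo

noncomputable section

lemma coe_isOpenQuotientMap : IsOpenQuotientMap (fun t : ℝ => (t : T1)) :=
  QuotientAddGroup.isOpenQuotientMap_mk

lemma p2_isOpenQuotientMap : IsOpenQuotientMap p2 :=
  coe_isOpenQuotientMap.prodMap coe_isOpenQuotientMap

lemma p3_isOpenQuotientMap : IsOpenQuotientMap p3 :=
  p2_isOpenQuotientMap.prodMap coe_isOpenQuotientMap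

lemma norm_coe_le_abs (t : ℝ) : ‖(t : T1)‖ ≤ |t| := by
  have h' : ‖(t : T1)‖ = |t - round t| := by
    rw [UnitAddCircle.norm_eq]
  rw [h']
  simpa using round_le t 0

lemma dist_p2_le (x y : E2) : dist (p2 x) (p2 y) ≤ ‖x - y‖ := by
  rw [Prod.dist_eq, Prod.norm_def]
  refine max_le_max ?_ ?_
  · show dist ((x.1 : T1)) (y.1 : T1) ≤ _
    rw [dist_eq_norm, ← AddCircle.coe_sub]
    exact norm_coe_le_abs _
  · show dist ((x.2 : T1)) (y.2 : T1) ≤ _
    rw [dist_eq_norm, ← AddCircle.coe_sub]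
    exact norm_coe_le_abs _

lemma dist_p3_le (x y : E3) : dist (p3 x) (p3 y) ≤ ‖x - y‖ := by
  rw [Prod.dist_eq, Prod.norm_def]
  refine max_le_max ?_ ?_
  · exact dist_p2_le _ _
  · show dist ((x.2 : T1)) (y.2 : T1) ≤ _
    rw [dist_eq_norm, ← AddCircle.coe_sub]
    exact norm_coe_le_abs _

lemma p3_ZZ (a b c : ℤ) : p3 (ZZ a b c) = 0 := by
  refine Prod.ext (Prod.ext ?_ ?_) ?_
  · exact coe_int a
  · exact coe_int b
  · exact coe_int c

lemma p3_add_ZZ (x : E3) (a b c : ℤ) : p3 (x + ZZ a b c) = p3 x := by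
  rw [p3_add, p3_ZZ, add_zero]

lemma coe_eq_iff {s t : ℝ} (h : (s : T1) = (t : T1)) : ∃ a : ℤ, t = s + a := by
  have h1 : ((t - s : ℝ) : T1) = 0 := by
    rw [AddCircle.coe_sub, h, sub_self]
  obtain ⟨n, hn⟩ := (AddCircle.coe_eq_zero_iff (1 : ℝ)).1 h1
  refine ⟨n, ?_⟩
  have : (n : ℝ) = t - s := by simpa using hn
  rw [this]
  ring

lemma p3_eq_iff {x y : E3} : p3 x = p3 y ↔ ∃ a b c : ℤ, y = x + ZZ a b c := by
  constructor
  · intro h
    obtain ⟨a, ha⟩ := coe_eq_iff (congrArg (fun z : T3 => z.1.1) h)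
    obtain ⟨b, hb⟩ := coe_eq_iff (congrArg (fun z : T3 => z.1.2) h)
    obtain ⟨c, hc⟩ := coe_eq_iff (congrArg (fun z : T3 => z.2) h)
    exact ⟨a, b, c, Prod.ext (Prod.ext ha hb) hc⟩
  · rintro ⟨a, b, c, rfl⟩
    rw [p3_add_ZZ]

lemma TD.continuous (h : TD) : Continuous h.e := by
  rw [p3_isOpenQuotientMap.isQuotientMap.continuous_iff]
  have : (h.e : T3 → T3) ∘ p3 = p3 ∘ h.F := by
    funext x
    exact (h.sc x).symm
  rw [this]
  exact p3_isOpenQuotientMap.continuous.comp h.smooth.continuous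

lemma TD.continuous_symm (h : TD) : Continuous h.e.symm :=
  h.symm.continuous

/-- modulus of continuity -/
lemma TD.modulus (h : TD) {ε : ℝ} (hε : 0 < ε) :
    ∃ δ > 0, ∀ x y : T3, dist x y < δ → dist (h.e x) (h.e y) ≤ ε := by
  have hu : UniformContinuous h.e := CompactSpace.uniformContinuous_of_continuous h.continuous
  obtain ⟨δ, hδ, hd⟩ := Metric.uniformContinuous_iff.1 hu ε hε
  exact ⟨δ, hδ, fun x y hxy => (hd hxy).le⟩

/-- the rotation by `(g, 0)` -/
def TD.rot (g : E2) : TD where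
  e := Equiv.addRight ((p2 g, 0) : T3)
  F := Equiv.addRight ((g, 0) : E3)
  smooth := by
    show ContDiff ℝ ∞ (fun x : E3 => x + ((g, 0) : E3))
    fun_prop
  smooth' := by
    show ContDiff ℝ ∞ (fun x : E3 => x + -((g, 0) : E3))
    fun_prop
  sc x := by
    show p3 (x + ((g, 0) : E3)) = p3 x + ((p2 g, 0) : T3)
    rw [p3_add]
    rfl
  per x a b c := by
    show x + ZZ a b c + ((g, 0) : E3) = x + ((g, 0) : E3) + ZZ a b c
    abel
  mp := measurePreserving_add_right volume ((p2 g, 0) : T3)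
  mp' := by
    show MeasurePreserving (fun x : T3 => x + -((p2 g, 0) : T3)) volume volume
    exact measurePreserving_add_right volume (-((p2 g, 0) : T3))

end

end Pool.Agent.Odo
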