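import Pool.Agent.Lib_MP_84c575_an.Defs
import Pool.Agent.Lib_MP_84c575_an.TDb
import Pool.Agent.Lib_MP_84c575_an.LimMP
open MeasureTheory Set Filter
open scoped ContDiff Topology
namespace Pool.Agent.Odo
noncomputable section

/-! ## The limit of torus diffeomorphisms is a torus diffeomorphism -/

/-- a section of `p3` -/
def sec3 (y : T3) : E3 := Classical.choose (p3_surj y)

lemma p3_sec3 (y : T3) : p3 (sec3 y) = y := Classical.choose_spec (p3_surj y)

/-- the map of the torus induced by a map of `E3` -/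
def desc (F : E3 → E3) (y : T3) : T3 := p3 (F (sec3 y))

lemma desc_p3 {F : E3 → E3} (per : ∀ (x : E3) (a b c : ℤ), F (x + ZZ a b c) = F x + ZZ a b c)
    (x : E3) : desc F (p3 x) = p3 (F x) := by
  have h : p3 x = p3 (sec3 (p3 x)) := (p3_sec3 (p3 x)).symm
  obtain ⟨a, b, c, hx⟩ := p3_eq_iff.1 h
  unfold desc
  rw [hx, per, p3_add_ZZ]

lemma per_symm {F' : E3 ≃ E3}
    (per : ∀ (x : E3) (a b c : ℤ), F' (x + ZZ a b c) = F' x + ZZ a b c)
    (x : E3) (a b c : ℤ) : F'.symm (x + ZZ a b c) = F'.symm x + ZZ a b c := by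
  rw [Equiv.symm_apply_eq, per, Equiv.apply_symm_apply]

/-- the equivalence of the torus induced by an equivalence of `E3` -/
def descE (F' : E3 ≃ E3)
    (per : ∀ (x : E3) (a b c : ℤ), F' (x + ZZ a b c) = F' x + ZZ a b c) : T3 ≃ T3 where
  toFun := desc F'
  invFun := desc F'.symm
  left_inv y := by
    obtain ⟨x, rfl⟩ := p3_surj y
    rw [desc_p3 per, desc_p3 (per_symm per), Equiv.symm_apply_apply]
  right_inv y := by
    obtain ⟨x, rfl⟩ := p3_surj y
    rw [desc_p3 (per_symm per), desc_p3 per, Equiv.apply_symm_apply]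

lemma descE_p3 {F' : E3 ≃ E3}
    (per : ∀ (x : E3) (a b c : ℤ), F' (x + ZZ a b c) = F' x + ZZ a b c) (x : E3) :
    descE F' per (p3 x) = p3 (F' x) := desc_p3 per x

lemma descE_symm_p3 {F' : E3 ≃ E3}
    (per : ∀ (x : E3) (a b c : ℤ), F' (x + ZZ a b c) = F' x + ZZ a b c) (x : E3) :
    (descE F' per).symm (p3 x) = p3 (F'.symm x) := desc_p3 (per_symm per) x

/-- the limit as a torus diffeomorphism -/
lemma exists_TD_limit (f : ℕ → TD) (F' : E3 ≃ E3) (h1 : ContDiff ℝ ∞ F')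
    (h2 : ContDiff ℝ ∞ F'.symm)
    (per : ∀ (x : E3) (a b c : ℤ), F' (x + ZZ a b c) = F' x + ZZ a b c)
    (hF : ∀ n x, ‖(f n).F x - F' x‖ ≤ 2 * (1 / 2) ^ n)
    (hF' : ∀ n x, ‖(f n).F.symm x - F'.symm x‖ ≤ 2 * (1 / 2) ^ n) :
    ∃ T : TD, T.F = F' ∧ ∀ n x, dist ((f n).e x) (T.e x) ≤ 2 * (1 / 2) ^ n := by
  have hd : ∀ n x, dist ((f n).e x) (descE F' per x) ≤ 2 * (1 / 2) ^ n := by
    intro n x
    obtain ⟨t, rfl⟩ := p3_surj x
    rw [descE_p3, ← (f n).sc]
    exact (dist_p3_le _ _).trans (hF n t)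
  have hd' : ∀ n x, dist ((f n).e.symm x) ((descE F' per).symm x) ≤ 2 * (1 / 2) ^ n := by
    intro n x
    obtain ⟨t, rfl⟩ := p3_surj x
    rw [descE_symm_p3]
    have h3 : (f n).e.symm (p3 t) = p3 ((f n).F.symm t) := by
      rw [Equiv.symm_apply_eq, ← (f n).sc, Equiv.apply_symm_apply]
    rw [h3]
    exact (dist_p3_le _ _).trans (hF' n t)
  refine ⟨{ e := descE F' per, F := F', smooth := h1, smooth' := h2,
            sc := fun x => (descE_p3 per x).symm, per := per, mp := ?_, mp' := ?_ }, rfl, hd⟩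
  · exact mp_of_uniform_limit volume (fun n => (f n).e) (descE F' per) (fun n => (f n).mp)
      (fun n => (f n).continuous) hd
  · exact mp_of_uniform_limit volume (fun n => (f n).e.symm) (descE F' per).symm
      (fun n => (f n).mp') (fun n => (f n).continuous_symm) hd'

end
end Pool.Agent.Odo
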