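import Pool.Agent.Lib_MP_84c575_an.Defs

/-!
# Smooth realization of odometers: shears

Measurable shears preserve the measure of the torus; smooth shears lift to diffeomorphisms.
-/

open MeasureTheory Set Filter
open scoped ContDiff Topology

namespace Pool.Agent.Odo

noncomputable section

lemma sh_isQuotientMap_coe : Topology.IsQuotientMap (fun t : ℝ => (t : T1)) :=
  QuotientAddGroup.isQuotientMap_mk _

lemma sh_isOpenQuotientMap_coe : IsOpenQuotientMap (fun t : ℝ => (t : T1)) :=
  QuotientAddGroup.isOpenQuotientMap_mk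

lemma sh_isQuotientMap_p2 : Topology.IsQuotientMap p2 :=
  (sh_isOpenQuotientMap_coe.prodMap sh_isOpenQuotientMap_coe).isQuotientMap

lemma sh_continuous_p2 : Continuous p2 := sh_isQuotientMap_p2.continuous

lemma measurable_p2 : Measurable p2 := sh_continuous_p2.measurable

lemma sh_measurable_coe : Measurable (fun t : ℝ => (t : T1)) :=
  sh_isQuotientMap_coe.continuous.measurable

/-- shears over the circle, factors swapped -/
lemma sh_mp_swapped {ψ : T1 → T2} (h : Measurable ψ) :
    MeasurePreserving (fun p : T1 × T2 => (p.1, p.2 + ψ p.1))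
      ((volume : Measure T1).prod (volume : Measure T2))
      ((volume : Measure T1).prod (volume : Measure T2)) := by
  refine (MeasurePreserving.id (volume : Measure T1)).skew_product
    (g := fun c z => z + ψ c) ?_ ?_
  · exact measurable_snd.add (h.comp measurable_fst)
  · exact ae_of_all _ fun c => (measurePreserving_add_right (volume : Measure T2) (ψ c)).map_eq

lemma sh_mp_shear1 {ψ : T1 → T2} (h : Measurable ψ) :
    MeasurePreserving (fun p : T3 => ((p.1 + ψ p.2, p.2) : T3)) volume volume := by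
  have h1 : MeasurePreserving (Prod.swap : T2 × T1 → T1 × T2)
      ((volume : Measure T2).prod (volume : Measure T1))
      ((volume : Measure T1).prod (volume : Measure T2)) := Measure.measurePreserving_swap
  have h2 : MeasurePreserving (Prod.swap : T1 × T2 → T2 × T1)
      ((volume : Measure T1).prod (volume : Measure T2))
      ((volume : Measure T2).prod (volume : Measure T1)) := Measure.measurePreserving_swap
  exact h2.comp ((sh_mp_swapped h).comp h1)

lemma sh_mp_shear2 {ψ : T2 → T1} (h : Measurable ψ) :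
    MeasurePreserving (fun p : T3 => ((p.1, p.2 + ψ p.1) : T3)) volume volume := by
  refine (MeasurePreserving.id (volume : Measure T2)).skew_product
    (g := fun z c => c + ψ z) ?_ ?_
  · exact measurable_snd.add (h.comp measurable_fst)
  · exact ae_of_all _ fun c => (measurePreserving_add_right (volume : Measure T1) (ψ c)).map_eq

lemma mp_Zs {φ : T1 → E2} (h : Measurable φ) : MeasurePreserving (Zs φ) volume volume :=
  sh_mp_shear1 (ψ := fun c => p2 (φ c)) (measurable_p2.comp h)

lemma mp_Zs_symm {φ : T1 → E2} (h : Measurable φ) :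
    MeasurePreserving (Zs φ).symm volume volume := by
  have h1 := sh_mp_shear1 (ψ := fun c => -p2 (φ c)) (measurable_p2.comp h).neg
  have h2 : ((Zs φ).symm : T3 → T3) = fun p : T3 => ((p.1 + -p2 (φ p.2), p.2) : T3) := by
    funext p
    show ((p.1 - p2 (φ p.2), p.2) : T3) = _
    rw [sub_eq_add_neg]
  rw [h2]
  exact h1

lemma mp_Cs {χ : T2 → ℝ} (h : Measurable χ) : MeasurePreserving (Cs χ) volume volume :=
  sh_mp_shear2 (ψ := fun z => ((χ z : ℝ) : T1)) (sh_measurable_coe.comp h)

lemma mp_Cs_symm {χ : T2 → ℝ} (h : Measurable χ) :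
    MeasurePreserving (Cs χ).symm volume volume := by
  have h1 := sh_mp_shear2 (ψ := fun z => -((χ z : ℝ) : T1)) (sh_measurable_coe.comp h).neg
  have h2 : ((Cs χ).symm : T3 → T3) = fun p : T3 => ((p.1, p.2 + -((χ p.1 : ℝ) : T1)) : T3) := by
    funext p
    show ((p.1, p.2 - ((χ p.1 : ℝ) : T1)) : T3) = _
    rw [sub_eq_add_neg]
  rw [h2]
  exact h1

/-- smooth functions on the torus are continuous -/
lemma Sm1.sh_continuous {φ : T1 → E2} (h : Sm1 φ) : Continuous φ :=
  sh_isQuotientMap_coe.continuous_iff.2 (ContDiff.continuous h)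

lemma Sm2.sh_continuous {χ : T2 → ℝ} (h : Sm2 χ) : Continuous χ :=
  sh_isQuotientMap_p2.continuous_iff.2 (ContDiff.continuous h)

/-- smooth functions on the torus are measurable -/
lemma Sm1.measurable {φ : T1 → E2} (h : Sm1 φ) : Measurable φ := (Sm1.sh_continuous h).measurable

lemma Sm2.measurable {χ : T2 → ℝ} (h : Sm2 χ) : Measurable χ := (Sm2.sh_continuous h).measurable

lemma sh_coe_add_int (t : ℝ) (c : ℤ) : ((t + c : ℝ) : T1) = (t : T1) := by
  rw [AddCircle.coe_add, coe_int, add_zero]

lemma sh_p2_add_int (x : E2) (a b : ℤ) : p2 (x + ((a : ℝ), (b : ℝ))) = p2 x := by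
  refine Prod.ext ?_ ?_
  · exact sh_coe_add_int x.1 a
  · exact sh_coe_add_int x.2 b

/-- smooth shears are torus diffeomorphisms whose lifts commute with the appropriate translations -/
lemma exists_TDZ {φ : T1 → E2} (h : Sm1 φ) :
    ∃ T : TD, T.e = Zs φ ∧ ∀ (g : E2) (x : E3), T.F (x + (g, 0)) = T.F x + (g, 0) := by
  have h1 : ContDiff ℝ ∞ (fun x : E3 => φ (x.2 : T1)) :=
    (show ContDiff ℝ ∞ (fun t : ℝ => φ (t : T1)) from h).comp contDiff_snd
  refine ⟨{ e := Zs φ
            F := { toFun := fun x => (x.1 + φ (x.2 : T1), x.2)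
                   invFun := fun x => (x.1 - φ (x.2 : T1), x.2)
                   left_inv := fun x => by simp
                   right_inv := fun x => by simp }
            smooth := ?_
            smooth' := ?_
            sc := ?_
            per := ?_
            mp := mp_Zs h.measurable
            mp' := mp_Zs_symm h.measurable }, rfl, ?_⟩
  · exact (contDiff_fst.add h1).prodMk contDiff_snd
  · exact (contDiff_fst.sub h1).prodMk contDiff_snd
  · intro x
    show p3 (x.1 + φ (x.2 : T1), x.2) = ((p3 x).1 + p2 (φ (p3 x).2), (p3 x).2)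
    simp only [p3, p2_add]
  · intro x a b c
    show ((x.1 + ((a : ℝ), (b : ℝ))) + φ ((x.2 + c : ℝ) : T1), x.2 + (c : ℝ)) =
      (x.1 + φ (x.2 : T1), x.2) + ZZ a b c
    rw [sh_coe_add_int]
    refine Prod.ext ?_ rfl
    show x.1 + ((a : ℝ), (b : ℝ)) + φ (x.2 : T1) = x.1 + φ (x.2 : T1) + ((a : ℝ), (b : ℝ))
    abel
  · intro g x
    show ((x.1 + g) + φ ((x.2 + 0 : ℝ) : T1), x.2 + 0) = (x.1 + φ (x.2 : T1), x.2) + (g, 0)
    rw [add_zero]
    refine Prod.ext ?_ ?_
    · show x.1 + g + φ (x.2 : T1) = x.1 + φ (x.2 : T1) + g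
      abel
    · show x.2 = x.2 + 0
      rw [add_zero]

lemma exists_TDC {χ : T2 → ℝ} (h : Sm2 χ) {g : E2} (hg : ∀ z, χ (z + p2 g) = χ z) :
    ∃ T : TD, T.e = Cs χ ∧ ∀ (x : E3), T.F (x + (g, 0)) = T.F x + (g, 0) := by
  have h1 : ContDiff ℝ ∞ (fun x : E3 => χ (p2 x.1)) :=
    (show ContDiff ℝ ∞ (fun t : E2 => χ (p2 t)) from h).comp contDiff_fst
  refine ⟨{ e := Cs χ
            F := { toFun := fun x => (x.1, x.2 + χ (p2 x.1))
                   invFun := fun x => (x.1, x.2 - χ (p2 x.1))
                   left_inv := fun x => by simp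
                   right_inv := fun x => by simp }
            smooth := ?_
            smooth' := ?_
            sc := ?_
            per := ?_
            mp := mp_Cs h.measurable
            mp' := mp_Cs_symm h.measurable }, rfl, ?_⟩
  · exact contDiff_fst.prodMk (contDiff_snd.add h1)
  · exact contDiff_fst.prodMk (contDiff_snd.sub h1)
  · intro x
    show p3 (x.1, x.2 + χ (p2 x.1)) = ((p3 x).1, (p3 x).2 + ((χ (p3 x).1 : ℝ) : T1))
    simp only [p3, AddCircle.coe_add]
  · intro x a b c
    show ((x.1 + ((a : ℝ), (b : ℝ))), x.2 + (c : ℝ) + χ (p2 (x.1 + ((a : ℝ), (b : ℝ))))) =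
      (x.1, x.2 + χ (p2 x.1)) + ZZ a b c
    rw [sh_p2_add_int]
    refine Prod.ext rfl ?_
    show x.2 + (c : ℝ) + χ (p2 x.1) = x.2 + χ (p2 x.1) + (c : ℝ)
    ring
  · intro x
    show ((x.1 + g), x.2 + 0 + χ (p2 (x.1 + g))) = (x.1, x.2 + χ (p2 x.1)) + (g, 0)
    rw [p2_add, hg, add_zero]
    refine Prod.ext rfl ?_
    show x.2 + χ (p2 x.1) = x.2 + χ (p2 x.1) + 0
    rw [add_zero]

end

end Pool.Agent.Odo
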