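import Pool.Agent.Lib_MP_84c575_an.Defs
import Pool.Agent.Lib_MP_84c575_an.Shear
import Pool.Agent.Lib_MP_84c575_an.Approx
import Pool.Agent.Lib_MP_84c575_an.Avg

/-!
# The composition of six shears is close to a torus diffeomorphism
-/

open MeasureTheory Set Filter
open scoped ContDiff Topology

namespace Pool.Agent.Odo

noncomputable section

namespace GhatAux

/-- the bijection `e` agrees off a set of measure at most `ε` with a torus diffeomorphism whose lift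
commutes with the translation by `(g, 0)` -/
def App (g : E2) (ε : ℝ) (e : T3 ≃ T3) : Prop :=
  ∃ T : TD, (∀ x : E3, T.F (x + (g, 0)) = T.F x + (g, 0)) ∧
      volume {y | T.e y ≠ e y} ≤ ENNReal.ofReal ε

theorem App.trans {g : E2} {ε₁ ε₂ : ℝ} (h₁ : 0 ≤ ε₁) (h₂ : 0 ≤ ε₂) {e₁ e₂ : T3 ≃ T3}
    (hm : MeasurePreserving e₁ volume volume) (H₁ : App g ε₁ e₁) (H₂ : App g ε₂ e₂) :
    App g (ε₁ + ε₂) (e₁.trans e₂) := by
  obtain ⟨S, hS, hS'⟩ := H₁
  obtain ⟨T, hT, hT'⟩ := H₂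
  refine ⟨S.trans T, ?_, ?_⟩
  · intro x
    show T.F (S.F (x + (g, 0))) = T.F (S.F x) + (g, 0)
    rw [hS, hT]
  · have hsub : {y | (S.trans T).e y ≠ (e₁.trans e₂) y} ⊆
        {y | S.e y ≠ e₁ y} ∪ e₁ ⁻¹' {y | T.e y ≠ e₂ y} := by
      intro y hy
      by_contra hh
      rw [Set.mem_union, not_or] at hh
      apply hy
      have h1 : S.e y = e₁ y := by
        by_contra h
        exact hh.1 h
      have h2 : T.e (e₁ y) = e₂ (e₁ y) := by
        by_contra h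
        exact hh.2 h
      show T.e (S.e y) = e₂ (e₁ y)
      rw [h1, h2]
    calc volume {y | (S.trans T).e y ≠ (e₁.trans e₂) y}
        ≤ volume ({y | S.e y ≠ e₁ y} ∪ e₁ ⁻¹' {y | T.e y ≠ e₂ y}) := measure_mono hsub
      _ ≤ volume {y | S.e y ≠ e₁ y} + volume (e₁ ⁻¹' {y | T.e y ≠ e₂ y}) := measure_union_le _ _
      _ ≤ ENNReal.ofReal ε₁ + ENNReal.ofReal ε₂ :=
          add_le_add hS' ((hm.measure_preimage_le _).trans hT')
      _ = ENNReal.ofReal (ε₁ + ε₂) := (ENNReal.ofReal_add h₁ h₂).symm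

theorem symm_comm {T : TD} {g : E2} (h : ∀ x : E3, T.F (x + (g, 0)) = T.F x + (g, 0)) (x : E3) :
    T.symm.F (x + (g, 0)) = T.symm.F x + (g, 0) := by
  show T.F.symm (x + (g, 0)) = T.F.symm x + (g, 0)
  rw [Equiv.symm_apply_eq, h, Equiv.apply_symm_apply]

theorem mp_fst : MeasurePreserving (Prod.fst : T3 → T2) volume volume :=
  measurePreserving_fst

theorem mp_snd : MeasurePreserving (Prod.snd : T3 → T1) volume volume :=
  measurePreserving_snd

theorem app_Z {φ : T1 → E2} (hφ : Measurable φ) (hf : (Set.range φ).Finite) (g : E2) {ε : ℝ}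
    (hε : 0 < ε) : App g ε (Zs φ) ∧ App g ε (Zs φ).symm := by
  obtain ⟨φ', hs, hm⟩ := exists_smooth_approx1 hφ hf hε
  obtain ⟨T, hT, hc⟩ := exists_TDZ hs
  refine ⟨⟨T, hc g, ?_⟩, ⟨T.symm, symm_comm (hc g), ?_⟩⟩
  · refine le_trans (measure_mono ?_) ((mp_snd.measure_preimage_le {z | φ' z ≠ φ z}).trans hm)
    intro y hy
    intro h
    apply hy
    have h' : φ' y.2 = φ y.2 := h
    rw [hT]
    show (y.1 + p2 (φ' y.2), y.2) = (y.1 + p2 (φ y.2), y.2)
    rw [h']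
  · refine le_trans (measure_mono ?_) ((mp_snd.measure_preimage_le {z | φ' z ≠ φ z}).trans hm)
    intro y hy
    intro h
    apply hy
    have h' : φ' y.2 = φ y.2 := h
    show T.e.symm y = _
    rw [hT]
    show (y.1 - p2 (φ' y.2), y.2) = (y.1 - p2 (φ y.2), y.2)
    rw [h']

theorem app_C {χ : T2 → ℝ} (hχ : Measurable χ) (hf : (Set.range χ).Finite) {g : E2} {Q : ℕ}
    (hQ : 0 < Q) (hQg : Q • p2 g = 0) (hg : ∀ z, χ (z + p2 g) = χ z) {ε : ℝ}
    (hε : 0 < ε) : App g ε (Cs χ) ∧ App g ε (Cs χ).symm := by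
  obtain ⟨χ', hs, hi, hm⟩ := exists_smooth_approx2_inv hχ hf hQ hQg hg hε
  obtain ⟨T, hT, hc⟩ := exists_TDC hs hi
  refine ⟨⟨T, hc, ?_⟩, ⟨T.symm, symm_comm hc, ?_⟩⟩
  · refine le_trans (measure_mono ?_) ((mp_fst.measure_preimage_le {z | χ' z ≠ χ z}).trans hm)
    intro y hy
    intro h
    apply hy
    have h' : χ' y.1 = χ y.1 := h
    rw [hT]
    show (y.1, y.2 + ((χ' y.1 : ℝ) : T1)) = (y.1, y.2 + ((χ y.1 : ℝ) : T1))
    rw [h']
  · refine le_trans (measure_mono ?_) ((mp_fst.measure_preimage_le {z | χ' z ≠ χ z}).trans hm)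
    intro y hy
    intro h
    apply hy
    have h' : χ' y.1 = χ y.1 := h
    show T.e.symm y = _
    rw [hT]
    show (y.1, y.2 - ((χ' y.1 : ℝ) : T1)) = (y.1, y.2 - ((χ y.1 : ℝ) : T1))
    rw [h']

end GhatAux

open GhatAux in
lemma exists_Ghat {φa φ1 : T1 → E2} {χb χ2 : T2 → ℝ} (ha : Measurable φa) (h1 : Measurable φ1)
    (hb : Measurable χb) (h2 : Measurable χ2) (fa : (Set.range φa).Finite)
    (f1 : (Set.range φ1).Finite) (fb : (Set.range χb).Finite) (f2 : (Set.range χ2).Finite)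
    {g : E2} {Q : ℕ} (hQ : 0 < Q) (hQg : Q • p2 g = 0) (gb : ∀ z, χb (z + p2 g) = χb z)
    (g2 : ∀ z, χ2 (z + p2 g) = χ2 z) {ε : ℝ} (hε : 0 < ε) :
    ∃ T : TD, (∀ x : E3, T.F (x + (g, 0)) = T.F x + (g, 0)) ∧
      volume {y | T.e y ≠ Gx φa φ1 χb χ2 y} ≤ ENNReal.ofReal ε := by
  have hε6 : 0 < ε / 6 := by positivity
  have A1 := (app_Z ha fa g hε6).1
  have A2 := (app_C hb fb hQ hQg gb hε6).1
  have A3 := (app_C h2 f2 hQ hQg g2 hε6).1
  have A4 := (app_Z h1 f1 g hε6).1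
  have A5 := (app_C h2 f2 hQ hQg g2 hε6).2
  have A6 := (app_Z h1 f1 g hε6).2
  have B5 := App.trans hε6.le hε6.le (mp_Cs_symm h2) A5 A6
  have B4 := App.trans hε6.le (by positivity) (mp_Zs h1) A4 B5
  have B3 := App.trans hε6.le (by positivity) (mp_Cs h2) A3 B4
  have B2 := App.trans hε6.le (by positivity) (mp_Cs hb) A2 B3
  have B1 := App.trans hε6.le (by positivity) (mp_Zs ha) A1 B2
  have e : ε / 6 + (ε / 6 + (ε / 6 + (ε / 6 + (ε / 6 + ε / 6)))) = ε := by ring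
  rw [e] at B1
  exact B1

end

end Pool.Agent.Odo
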