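import Pool.Agent.Lib_MP_84c575_an.Circle

/-!
# Labels: equivariance and measurability
-/

open MeasureTheory Set Filter
open scoped ContDiff Topology

namespace Pool.Agent.Odo

noncomputable section

lemma vd_p2_smul_w (P : Par) (s : ℝ) : vd P.κ (p2 (s • P.w)) = 0 := by
  simp only [vd, p2, Par.w, Prod.smul_fst, Prod.smul_snd, smul_eq_mul, nsmul_coe]
  rw [← AddCircle.coe_add]
  have : s * -(P.κ : ℝ) + P.κ * (s * 1) = 0 := by ring
  rw [this]
  exact AddCircle.coe_zero (p := (1 : ℝ))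

lemma u_inv_mul (P : Par) : (P.u : ZMod P.Q)⁻¹ * (P.u : ZMod P.Q) = 1 := by
  rw [mul_comm]
  exact ZMod.coe_mul_inv_eq_one P.u P.hu

lemma lab1_add_g (P : Par) (z : T2) : lab1 P (z + p2 P.g) = lab1 P z + 1 := by
  unfold lab1
  rw [vd_add, P.hv, dig_add P.hQ, mul_add, u_inv_mul]

lemma lab1_add_w (P : Par) (s : ℝ) (z : T2) : lab1 P (z + p2 (s • P.w)) = lab1 P z := by
  unfold lab1
  rw [vd_add, vd_p2_smul_w, add_zero]

lemma lab1_add_gN (P : Par) {l : ℕ} (hl : 0 < l) (hc : Nat.Coprime P.Q l) (z : T2) :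
    lab1 P (z + p2 (P.next l hl hc).g) = lab1 P z + 1 := by
  have h : (P.next l hl hc).g = P.g + (1 / (l : ℝ)) • P.w := rfl
  rw [h, p2_add, ← add_assoc, lab1_add_w, lab1_add_g]

lemma val_add_one_smul (P : Par) (a : ZMod P.Q) (t : T1) (ht : P.Q • t = 0) :
    (a + 1).val • t = a.val • t + t := by
  have h1 : ((a + 1).val : ZMod P.Q) = ((a.val + 1 : ℕ) : ZMod P.Q) := by
    push_cast
    rw [ZMod.natCast_zmod_val, ZMod.natCast_zmod_val]
  have h2 : (a + 1).val ≡ a.val + 1 [MOD P.Q] := (ZMod.natCast_eq_natCast_iff _ _ _).1 h1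
  have h3 : ∀ n : ℕ, (n % P.Q) • t = n • t := by
    intro n
    conv_rhs => rw [← Nat.mod_add_div n P.Q]
    rw [add_smul, mul_comm, mul_smul, ht, smul_zero, add_zero]
  rw [← h3, h2, h3, add_smul, one_smul]

lemma hg_snd (P : Par) : P.Q • (p2 P.g).2 = 0 := by
  have := congrArg Prod.snd P.hg
  simpa using this

lemma lab2_add_gN (P : Par) {l : ℕ} (hl : 0 < l) (hc : Nat.Coprime P.Q l) (z : T2) :
    lab2 P l (z + p2 (P.next l hl hc).g) = lab2 P l z + 1 := by
  unfold lab2
  rw [lab1_add_gN, val_add_one_smul P _ _ (hg_snd P)]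
  have h : (P.next l hl hc).g = P.g + (1 / (l : ℝ)) • P.w := rfl
  have h2 : (z + p2 (P.next l hl hc).g).2 -
      ((lab1 P z).val • (p2 P.g).2 + (p2 P.g).2) =
      (z.2 - (lab1 P z).val • (p2 P.g).2) + ((((1 : ℕ) : ℝ) / l : ℝ) : T1) := by
    rw [h, p2_add]
    have h3 : (p2 ((1 / (l : ℝ)) • P.w)).2 = ((((1 : ℕ) : ℝ) / l : ℝ) : T1) := by
      simp only [p2, Par.w, Prod.smul_snd, smul_eq_mul, mul_one, Nat.cast_one]
    simp only [Prod.snd_add, h3]
    abel
  rw [h2, dig_add hl]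
  push_cast
  rfl

lemma labN_add_gN (P : Par) {l : ℕ} (hl : 0 < l) (hc : Nat.Coprime P.Q l) (z : T2) :
    labN P l hc (z + p2 (P.next l hl hc).g) = labN P l hc z + 1 := by
  unfold labN
  rw [lab1_add_gN, lab2_add_gN]
  have h : ((lab1 P z + 1, lab2 P l z + 1) : ZMod P.Q × ZMod l) =
      (lab1 P z, lab2 P l z) + 1 := rfl
  rw [h, map_add, map_one]

lemma labN_cast (P : Par) {l : ℕ} (hc : Nat.Coprime P.Q l) (hd : P.Q ∣ P.Q * l) (z : T2) :
    ZMod.castHom hd (ZMod P.Q) (labN P l hc z) = lab1 P z := by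
  have h : ZMod.chineseRemainder hc (labN P l hc z) = (lab1 P z, lab2 P l z) := by
    unfold labN
    rw [RingEquiv.apply_symm_apply]
  have h2 : ZMod.castHom hd (ZMod P.Q) =
      (RingHom.fst (ZMod P.Q) (ZMod l)).comp (ZMod.chineseRemainder hc).toRingHom :=
    Subsingleton.elim _ _
  rw [h2]
  show (ZMod.chineseRemainder hc (labN P l hc z)).1 = lab1 P z
  rw [h]

lemma labN_eq (P : Par) {l : ℕ} (hc : Nat.Coprime P.Q l) {z z' : T2}
    (h : labN P l hc z = labN P l hc z') : lab1 P z = lab1 P z' ∧ lab2 P l z = lab2 P l z' := by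
  unfold labN at h
  have := (ZMod.chineseRemainder hc).symm.injective h
  exact ⟨congrArg Prod.fst this, congrArg Prod.snd this⟩

lemma measurable_vd (κ : ℕ) : Measurable (vd κ) := by
  have : Continuous (vd κ) := by
    unfold vd
    fun_prop
  exact this.measurable

lemma measurable_lab1 (P : Par) : Measurable (lab1 P) := by
  have h : Measurable (fun n : ℕ => (P.u : ZMod P.Q)⁻¹ * (n : ZMod P.Q)) := measurable_from_top
  exact h.comp ((measurable_dig P.Q).comp (measurable_vd P.κ))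

lemma measurable_lab2 (P : Par) (l : ℕ) : Measurable (lab2 P l) := by
  have h : Measurable (fun n : ℕ => (n : ZMod l)) := measurable_from_top
  have h2 : Measurable (fun a : ZMod P.Q => a.val • (p2 P.g).2) := measurable_from_top
  have h3 : Measurable (fun z : T2 => z.2 - (lab1 P z).val • (p2 P.g).2) :=
    measurable_snd.sub (h2.comp (measurable_lab1 P))
  exact h.comp ((measurable_dig l).comp h3)

lemma measurable_labN (P : Par) {l : ℕ} (hc : Nat.Coprime P.Q l) : Measurable (labN P l hc) := by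
  have c1 : Countable (ZMod P.Q) := ZMod.intCast_surjective.countable
  have c2 : Countable (ZMod l) := ZMod.intCast_surjective.countable
  have h : Measurable (fun p : ZMod P.Q × ZMod l => (ZMod.chineseRemainder hc).symm p) :=
    measurable_of_countable _
  exact h.comp ((measurable_lab1 P).prodMk (measurable_lab2 P l))

/-- equal coarse labels -/
lemma norm_vd_of_lab1 (P : Par) {z z' : T2} (h : lab1 P z = lab1 P z') :
    ‖vd P.κ z - vd P.κ z'‖ < 1 / P.Q := by
  unfold lab1 at h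
  have h2 := congrArg (fun a => (P.u : ZMod P.Q) * a) h
  simp only [← mul_assoc] at h2
  rw [mul_comm (P.u : ZMod P.Q), u_inv_mul, one_mul, one_mul] at h2
  exact norm_lt_of_dig_eq P.hQ (dig_eq_of_cast P.hQ h2)

/-- equal labels -/
lemma norm_snd_of_labN (P : Par) {l : ℕ} (hl : 0 < l) (hc : Nat.Coprime P.Q l) {z z' : T2}
    (h : labN P l hc z = labN P l hc z') : ‖z.2 - z'.2‖ < 1 / l := by
  obtain ⟨h1, h2⟩ := labN_eq P hc h
  unfold lab2 at h2
  have h3 := norm_lt_of_dig_eq hl (dig_eq_of_cast hl h2)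
  rw [h1] at h3
  have h4 : z.2 - (lab1 P z').val • (p2 P.g).2 - (z'.2 - (lab1 P z').val • (p2 P.g).2) =
      z.2 - z'.2 := by abel
  rwa [h4] at h3

end

end Pool.Agent.Odo
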