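import Pool.Agent.Lib_MP_84c575_an.Defs
import Pool.Agent.Lib_MP_84c575_an.Circle
import Pool.Agent.Lib_MP_84c575_an.Lab
import Pool.Agent.Lib_MP_84c575_an.Shear
import Pool.Agent.Lib_MP_84c575_an.Ghat

/-!
# The exact map of a stage
-/

open MeasureTheory Set Filter
open scoped ContDiff Topology

namespace Pool.Agent.Odo

noncomputable section

/-- natural numbers congruent modulo `M` give the same point `a/M` of the circle -/
lemma coe_div_eq_of_cast {M : ℕ} (hM : 0 < M) {a b : ℕ} (h : (a : ZMod M) = (b : ZMod M)) :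
    (((a : ℝ) / M : ℝ) : T1) = (((b : ℝ) / M : ℝ) : T1) := by
  have h1 : (a : ℤ) ≡ (b : ℤ) [ZMOD (M : ℤ)] := by
    have := (ZMod.natCast_eq_natCast_iff a b M).1 h
    exact Int.natCast_modEq_iff.2 this
  obtain ⟨k, hk⟩ := h1.dvd
  have hM' : (M : ℝ) ≠ 0 := by positivity
  have h2 : ((b : ℝ) / M) = ((a : ℝ) / M) + (k : ℝ) := by
    have : (b : ℝ) - a = M * k := by exact_mod_cast hk
    field_simp
    linarith
  rw [h2, AddCircle.coe_add, coe_int, add_zero]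

lemma smul_eq_of_cast {P : Par} {a b : ℕ} (h : (a : ZMod P.Q) = (b : ZMod P.Q)) :
    a • p2 P.g = b • p2 P.g := by
  have key : ∀ {a b : ℕ}, a ≤ b → (a : ZMod P.Q) = (b : ZMod P.Q) → a • p2 P.g = b • p2 P.g := by
    intro a b hab h
    have h1 := (Nat.modEq_iff_dvd' hab).1 ((ZMod.natCast_eq_natCast_iff a b P.Q).1 h)
    obtain ⟨k, hk⟩ := h1
    have : b = a + k * P.Q := by
      rw [mul_comm k]
      omega
    rw [this, add_smul, mul_smul, P.hg, smul_zero, add_zero]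
  rcases le_total a b with hab | hab
  · exact key hab h
  · exact (key hab h.symm).symm

lemma Stage.X_add (S : Stage) (z : T2) : S.X (z + p2 S.P.g) = S.X z := by
  unfold Stage.X
  rw [lab1_add_g, S.hφ]
  ring

lemma Stage.X_add_nsmul (S : Stage) (z : T2) (n : ℕ) : S.X (z + n • p2 S.P.g) = S.X z := by
  induction n with
  | zero => rw [zero_smul, add_zero]
  | succ n ih => rw [succ_nsmul, ← add_assoc, S.X_add, ih]

lemma Stage.φ_add_nsmul (S : Stage) (z : T2) (n : ℕ) :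
    S.φ (z + n • p2 S.P.g) = S.φ z + n := by
  induction n with
  | zero => rw [zero_smul, add_zero, Nat.cast_zero, add_zero]
  | succ n ih =>
    rw [succ_nsmul, ← add_assoc, S.hφ, ih]
    push_cast
    ring

/-- the exact map -/
lemma Stage.G_apply (S : Stage) {M : ℕ} (hM : 0 < M) (y : T3) :
    S.G M y =
      ((y.1 + p2 (((dig M y.2 : ℝ) / (M * S.P.Q)) • S.P.w)) +
          (S.X (y.1 + p2 (((dig M y.2 : ℝ) / (M * S.P.Q)) • S.P.w))).val • p2 S.P.g,
        (y.2 - (((dig M y.2 : ℝ) / M : ℝ) : T1)) -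
          (((dig M (S.P.Q • y.1.2) : ℝ) / M : ℝ) : T1)) := by
  obtain ⟨z, c⟩ := y
  have hQ := S.P.hQ
  have hM' : (M : ℝ) ≠ 0 := by positivity
  have hQ' : (S.P.Q : ℝ) ≠ 0 := by positivity
  set ζ : T2 := z + p2 (((dig M c : ℝ) / (M * S.P.Q)) • S.P.w) with hζ
  set X := S.X ζ with hX
  set c1 : T1 := (c - (((dig M c : ℝ) / M : ℝ) : T1)) -
    (((dig M (S.P.Q • z.2) : ℝ) / M : ℝ) : T1) with hc1
  -- the second coordinate of `ζ`
  have h1 : S.P.Q • ζ.2 = S.P.Q • z.2 + (((dig M c : ℝ) / M : ℝ) : T1) := by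
    have : ζ.2 = z.2 + (((dig M c : ℝ) / (M * S.P.Q) * 1 : ℝ) : T1) := rfl
    rw [this, smul_add, nsmul_coe]
    congr 2
    field_simp
  have h2 : (((-((dig M (S.P.Q • ζ.2) : ℝ) / M) : ℝ)) : T1) =
      - (((dig M (S.P.Q • z.2) : ℝ) / M : ℝ) : T1) - (((dig M c : ℝ) / M : ℝ) : T1) := by
    rw [AddCircle.coe_neg, h1]
    have h3 : (((dig M (S.P.Q • z.2 + (((dig M c : ℝ) / M : ℝ) : T1)) : ℕ) : ℝ) / M : ℝ) =
      (((dig M (S.P.Q • z.2 + (((dig M c : ℝ) / M : ℝ) : T1)) : ℕ) : ℝ) / M : ℝ) := rfl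
    have h4 := dig_add hM (S.P.Q • z.2) (dig M c)
    have h5 : (((dig M (S.P.Q • z.2 + (((dig M c : ℝ) / M : ℝ) : T1)) : ℕ) : ZMod M)) =
        ((dig M (S.P.Q • z.2) + dig M c : ℕ) : ZMod M) := by
      rw [h4, Nat.cast_add]
    rw [coe_div_eq_of_cast hM h5]
    push_cast
    rw [add_div, AddCircle.coe_add]
    abel
  have hs1 : (c + (((-((dig M (S.P.Q • ζ.2) : ℝ) / M) : ℝ)) : T1)) = c1 := by
    rw [h2, hc1]
    abel
  set c2 : T1 := c1 + (((X.val : ℝ) / S.P.Q : ℝ) : T1) with hc2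
  have h6 : ((dig S.P.Q c2 : ℕ) : ZMod S.P.Q) = ((dig S.P.Q c1 + X.val : ℕ) : ZMod S.P.Q) := by
    rw [hc2, dig_add hQ, Nat.cast_add]
  have h7 : p2 ((dig S.P.Q c2 : ℝ) • S.P.g) = (dig S.P.Q c1) • p2 S.P.g + X.val • p2 S.P.g := by
    rw [← nsmul_p2, smul_eq_of_cast h6, add_smul]
  have hstep : S.G M (z, c) =
      (ζ + p2 ((dig S.P.Q (c + (((-((dig M (S.P.Q • ζ.2) : ℝ) / M) : ℝ)) : T1) +
          (((X.val : ℝ) / S.P.Q : ℝ) : T1)) : ℝ) • S.P.g) -
        p2 ((dig S.P.Q (c + (((-((dig M (S.P.Q • ζ.2) : ℝ) / M) : ℝ)) : T1) +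
          (((X.val : ℝ) / S.P.Q : ℝ) : T1) -
          ((((S.X (ζ + p2 ((dig S.P.Q (c + (((-((dig M (S.P.Q • ζ.2) : ℝ) / M) : ℝ)) : T1) +
          (((X.val : ℝ) / S.P.Q : ℝ) : T1)) : ℝ) • S.P.g))).val : ℝ) / S.P.Q : ℝ) : T1)) : ℝ) • S.P.g),
        c + (((-((dig M (S.P.Q • ζ.2) : ℝ) / M) : ℝ)) : T1) +
          (((X.val : ℝ) / S.P.Q : ℝ) : T1) -
          ((((S.X (ζ + p2 ((dig S.P.Q (c + (((-((dig M (S.P.Q • ζ.2) : ℝ) / M) : ℝ)) : T1) +
          (((X.val : ℝ) / S.P.Q : ℝ) : T1)) : ℝ) • S.P.g))).val : ℝ) / S.P.Q : ℝ) : T1)) := rfl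
  have h8 : S.X (ζ + p2 ((dig S.P.Q c2 : ℝ) • S.P.g)) = X := by
    rw [← nsmul_p2, S.X_add_nsmul]
  rw [hstep, hs1, ← hc2, h8]
  have h9 : c2 - (((X.val : ℝ) / S.P.Q : ℝ) : T1) = c1 := by
    rw [hc2]
    abel
  rw [h9, h7, ← nsmul_p2]
  refine Prod.ext ?_ rfl
  show ζ + (dig S.P.Q c1 • p2 S.P.g + X.val • p2 S.P.g) - dig S.P.Q c1 • p2 S.P.g =
    ζ + X.val • p2 S.P.g
  abel

lemma Stage.φ_G (S : Stage) {M : ℕ} (hM : 0 < M) (y : T3) :
    S.φ (S.G M y).1 = lab1 S.P y.1 := by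
  rw [S.G_apply hM]
  show S.φ ((y.1 + p2 (((dig M y.2 : ℝ) / (M * S.P.Q)) • S.P.w)) +
          (S.X (y.1 + p2 (((dig M y.2 : ℝ) / (M * S.P.Q)) • S.P.w))).val • p2 S.P.g) = _
  rw [S.φ_add_nsmul, ZMod.natCast_zmod_val]
  unfold Stage.X
  rw [lab1_add_w]
  ring

lemma Stage.measurable_φa (S : Stage) (M : ℕ) :
    Measurable (fun c : T1 => ((dig M c : ℝ) / (M * S.P.Q)) • S.P.w) := by
  have h := measurable_dig M
  have h1 : Measurable (fun c : T1 => (dig M c : ℝ)) := measurable_from_nat.comp h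
  exact (h1.div_const _).smul_const _

lemma Stage.measurable_φ1 (S : Stage) :
    Measurable (fun c : T1 => (dig S.P.Q c : ℝ) • S.P.g) := by
  have h := measurable_dig S.P.Q
  have h1 : Measurable (fun c : T1 => (dig S.P.Q c : ℝ)) := measurable_from_nat.comp h
  exact h1.smul_const _

lemma Stage.measurable_χb (S : Stage) (M : ℕ) :
    Measurable (fun z : T2 => -((dig M (S.P.Q • z.2) : ℝ) / M)) := by
  have h := measurable_dig M
  have h1 : Measurable (fun c : T1 => (dig M c : ℝ)) := measurable_from_nat.comp h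
  have h2 : Measurable (fun z : T2 => S.P.Q • z.2) := by
    have : Continuous (fun z : T2 => S.P.Q • z.2) := by fun_prop
    exact this.measurable
  exact ((h1.comp h2).div_const _).neg

lemma Stage.measurable_X (S : Stage) : Measurable S.X := by
  have h : Measurable (fun z : T2 => (lab1 S.P z, S.φ z)) := (measurable_lab1 S.P).prodMk S.hφm
  have h2 : Measurable (fun p : ZMod S.P.Q × ZMod S.P.Q => p.1 - p.2) := measurable_of_countable _
  exact h2.comp h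

lemma Stage.measurable_χ2 (S : Stage) :
    Measurable (fun z : T2 => ((S.X z).val : ℝ) / S.P.Q) := by
  have h2 : Measurable (fun p : ZMod S.P.Q => (p.val : ℝ) / S.P.Q) := measurable_of_countable _
  exact h2.comp S.measurable_X

lemma Stage.G_mp (S : Stage) {M : ℕ} (_hM : 0 < M) :
    MeasurePreserving (S.G M) volume volume := by
  have h1 := mp_Zs (S.measurable_φa M)
  have h2 := mp_Cs (S.measurable_χb M)
  have h3 := mp_Cs S.measurable_χ2
  have h4 := mp_Zs S.measurable_φ1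
  have h5 := mp_Cs_symm S.measurable_χ2
  have h6 := mp_Zs_symm S.measurable_φ1
  exact h6.comp (h5.comp (h4.comp (h3.comp (h2.comp h1))))

lemma finite_range_of_lt {α β : Type*} (f : α → β) (d : α → ℕ) (N : ℕ) (hd : ∀ a, d a < N)
    (g : ℕ → β) (hf : ∀ a, f a = g (d a)) : (Set.range f).Finite := by
  apply ((Set.finite_lt_nat N).image g).subset
  rintro _ ⟨a, rfl⟩
  exact ⟨d a, hd a, (hf a).symm⟩

lemma Stage.exists_TD (S : Stage) {M : ℕ} (hM : 0 < M) {ε : ℝ} (hε : 0 < ε) :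
    ∃ T : TD, (∀ x : E3, T.F (x + (S.P.g, 0)) = T.F x + (S.P.g, 0)) ∧
      volume {y | T.e y ≠ S.G M y} ≤ ENNReal.ofReal ε := by
  refine exists_Ghat (S.measurable_φa M) S.measurable_φ1 (S.measurable_χb M) S.measurable_χ2
    ?_ ?_ ?_ ?_ S.P.hQ S.P.hg ?_ ?_ hε
  · exact finite_range_of_lt _ (fun c => dig M c) M (fun c => dig_lt hM c)
      (fun n => ((n : ℝ) / (M * S.P.Q)) • S.P.w) (fun _ => rfl)
  · exact finite_range_of_lt _ (fun c => dig S.P.Q c) S.P.Q (fun c => dig_lt S.P.hQ c)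
      (fun n => (n : ℝ) • S.P.g) (fun _ => rfl)
  · exact finite_range_of_lt _ (fun z : T2 => dig M (S.P.Q • z.2)) M (fun z => dig_lt hM _)
      (fun n => -((n : ℝ) / M)) (fun _ => rfl)
  · exact finite_range_of_lt _ (fun z : T2 => (S.X z).val) S.P.Q (fun z => ZMod.val_lt _)
      (fun n => (n : ℝ) / S.P.Q) (fun _ => rfl)
  · intro z
    have h1 : S.P.Q • (z + p2 S.P.g).2 = S.P.Q • z.2 := by
      have := congrArg Prod.snd S.P.hg
      have h2 : S.P.Q • (p2 S.P.g).2 = 0 := by simpa using this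
      rw [Prod.snd_add, smul_add, h2, add_zero]
    simp only [h1]
  · intro z
    simp only [S.X_add]

end

end Pool.Agent.Odo
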