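import Pool.Agent.Lib_MP_84c575_an.Circle
import Pool.Agent.Lib_MP_84c575_an.Lab
import Pool.Agent.Lib_MP_84c575_an.Gexact

/-!
# Gclose: points with equal labels are mapped to close points
-/

open MeasureTheory Set Filter
open scoped ContDiff Topology

namespace Pool.Agent.Odo

noncomputable section

namespace GcloseAux

lemma mod_smul {Q : ℕ} {v : T2} (hv : Q • v = 0) (n : ℕ) : (n % Q) • v = n • v := by
  conv_rhs => rw [← Nat.mod_add_div n Q]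
  rw [add_smul, mul_comm, mul_smul, hv, smul_zero, add_zero]

lemma val_add_smul {Q : ℕ} [NeZero Q] {v : T2} (hv : Q • v = 0) (a b : ZMod Q) :
    (a + b).val • v = a.val • v + b.val • v := by
  rw [ZMod.val_add, mod_smul hv, add_smul]

lemma val_sub_smul {Q : ℕ} [NeZero Q] {v : T2} (hv : Q • v = 0) (a b : ZMod Q) :
    (a - b).val • v = a.val • v - b.val • v := by
  have h := val_add_smul hv (a - b) b
  rw [sub_add_cancel] at h
  rw [h]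
  abel

lemma phi_add_nsmul (S : Stage) (z : T2) (n : ℕ) :
    S.φ (z + n • p2 S.P.g) = S.φ z + n := by
  induction n with
  | zero => simp
  | succ n ih =>
    rw [succ_nsmul, ← add_assoc, S.hφ, ih]
    push_cast
    ring

lemma phi_add_val (S : Stage) (z : T2) (X : ZMod S.P.Q) :
    S.φ (z + X.val • p2 S.P.g) = S.φ z + X := by
  rw [phi_add_nsmul, ZMod.natCast_zmod_val]

lemma norm_coe_le (t : ℝ) : ‖((t : ℝ) : T1)‖ ≤ |t| := by
  have h := round_le t 0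
  rw [Int.cast_zero, sub_zero] at h
  have e : ‖((t : ℝ) : T1)‖ = |t - round t| := UnitAddCircle.norm_eq
  rw [e]
  exact h

lemma norm_pair_lt {x : T2} {r : ℝ} (h1 : ‖x.1‖ < r) (h2 : ‖x.2‖ < r) : ‖x‖ < r := by
  rw [Prod.norm_def]
  exact max_lt h1 h2

end GcloseAux

open GcloseAux in
lemma Stage.G_close (S : Stage) {M : ℕ} (hM : 0 < M) {l : ℕ} (hl : 0 < l)
    (hc : Nat.Coprime S.P.Q l) {δ η : ℝ} (hM' : (1 : ℝ) / M < δ / 16)
    (hl' : (S.P.Q : ℝ) / l < δ / 16) (hl'' : (1 : ℝ) / l ≤ 1 / S.P.Q)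
    (hQ : (2 + 2 * (S.P.κ : ℝ)) / S.P.Q < δ / 4) (hη : η < δ / 4) {B : Set T2}
    (hloc : ∀ p ∉ B, ∀ p' : T2, ‖vd S.P.κ (p' - p)‖ < 1 / S.P.Q → ‖p'.2 - p.2‖ < 2 / S.P.Q →
      ‖(S.φ p' - S.φ p).val • p2 S.P.g‖ ≤ η)
    {y y' : T3} (hlab : labN S.P l hc y.1 = labN S.P l hc y'.1) (hB : (S.G M y).1 ∉ B) :
    dist (S.G M y) (S.G M y') < δ := by
  have hQ0 : (0 : ℝ) < S.P.Q := by exact_mod_cast S.P.hQ
  have hM0 : (0 : ℝ) < M := by exact_mod_cast hM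
  have hl0 : (0 : ℝ) < l := by exact_mod_cast hl
  have hδ : 0 < δ := by
    have : 0 < (1 : ℝ) / M := by positivity
    linarith
  have hz2 : ‖y.1.2 - y'.1.2‖ < 1 / l := norm_snd_of_labN S.P hl hc hlab
  have hl1 : lab1 S.P y.1 = lab1 S.P y'.1 := (labN_eq S.P hc hlab).1
  -- the intermediate points
  obtain ⟨a, ha⟩ : ∃ a : ℝ, a = (dig M y.2 : ℝ) / (M * S.P.Q) := ⟨_, rfl⟩
  obtain ⟨a', ha'⟩ : ∃ a' : ℝ, a' = (dig M y'.2 : ℝ) / (M * S.P.Q) := ⟨_, rfl⟩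
  have hab : ∀ c : T1, 0 ≤ (dig M c : ℝ) / (M * S.P.Q) ∧
      (dig M c : ℝ) / (M * S.P.Q) < 1 / S.P.Q := by
    intro c
    refine ⟨by positivity, ?_⟩
    have h1 : (dig M c : ℝ) < M := by exact_mod_cast dig_lt hM c
    rw [div_lt_div_iff₀ (by positivity) hQ0]
    nlinarith
  have haa : |a - a'| < 1 / S.P.Q := by
    have h1 := hab y.2
    have h2 := hab y'.2
    rw [← ha] at h1
    rw [← ha'] at h2
    rw [abs_lt]
    constructor <;> linarith [h1.1, h1.2, h2.1, h2.2]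
  obtain ⟨ζ, hζ⟩ : ∃ ζ : T2, ζ = y.1 + p2 (a • S.P.w) := ⟨_, rfl⟩
  obtain ⟨ζ', hζ'⟩ : ∃ ζ' : T2, ζ' = y'.1 + p2 (a' • S.P.w) := ⟨_, rfl⟩
  have hG := S.G_apply hM y
  have hG' := S.G_apply hM y'
  rw [← ha, ← hζ] at hG
  rw [← ha', ← hζ'] at hG'
  have hlz : lab1 S.P ζ = lab1 S.P y.1 := by rw [hζ]; exact lab1_add_w S.P a y.1
  have hlz' : lab1 S.P ζ' = lab1 S.P y'.1 := by rw [hζ']; exact lab1_add_w S.P a' y'.1
  have hll : lab1 S.P ζ' = lab1 S.P ζ := by rw [hlz, hlz', hl1]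
  have hv : ‖vd S.P.κ (ζ' - ζ)‖ < 1 / S.P.Q := by
    rw [vd_sub]
    exact norm_vd_of_lab1 S.P hll
  have h2 : ‖ζ'.2 - ζ.2‖ < 2 / S.P.Q := by
    have e : ζ'.2 - ζ.2 = -(y.1.2 - y'.1.2) + (((a' - a : ℝ)) : T1) := by
      rw [hζ, hζ']
      simp only [Prod.snd_add, p2, Par.w, Prod.smul_snd, smul_eq_mul, mul_one]
      rw [AddCircle.coe_sub]
      abel
    rw [e]
    calc ‖-(y.1.2 - y'.1.2) + (((a' - a : ℝ)) : T1)‖
        ≤ ‖-(y.1.2 - y'.1.2)‖ + ‖(((a' - a : ℝ)) : T1)‖ := norm_add_le _ _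
      _ ≤ ‖y.1.2 - y'.1.2‖ + |a' - a| := by
          rw [norm_neg]
          exact add_le_add le_rfl (norm_coe_le _)
      _ < 1 / l + 1 / S.P.Q := by
          rw [abs_sub_comm]
          exact add_lt_add hz2 haa
      _ ≤ 1 / S.P.Q + 1 / S.P.Q := by linarith
      _ = 2 / S.P.Q := by ring
  have h1 : ‖ζ'.1 - ζ.1‖ < (1 + 2 * (S.P.κ : ℝ)) / S.P.Q := by
    have e : ζ'.1 - ζ.1 = vd S.P.κ (ζ' - ζ) - S.P.κ • (ζ'.2 - ζ.2) := by
      simp only [vd, Prod.fst_sub, Prod.snd_sub]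
      abel
    rw [e]
    have e2 : ‖S.P.κ • (ζ'.2 - ζ.2)‖ ≤ S.P.κ * ‖ζ'.2 - ζ.2‖ := norm_nsmul_le
    have e3 : (S.P.κ : ℝ) * ‖ζ'.2 - ζ.2‖ ≤ S.P.κ * (2 / S.P.Q) :=
      mul_le_mul_of_nonneg_left h2.le (by positivity)
    have e4 := norm_sub_le (vd S.P.κ (ζ' - ζ)) (S.P.κ • (ζ'.2 - ζ.2))
    have e5 : (1 + 2 * (S.P.κ : ℝ)) / S.P.Q = 1 / S.P.Q + S.P.κ * (2 / S.P.Q) := by ring
    rw [e5]
    linarith
  have hzz : ‖ζ' - ζ‖ < δ / 4 := by
    apply norm_pair_lt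
    · refine lt_of_lt_of_le h1 (le_trans ?_ hQ.le)
      gcongr
      norm_num
    · refine lt_of_lt_of_le h2 (le_trans ?_ hQ.le)
      gcongr
      have : (0 : ℝ) ≤ S.P.κ := by positivity
      linarith
  -- the points `p`, `p'`
  have hp1 : (S.G M y).1 = ζ + (S.X ζ).val • p2 S.P.g := by rw [hG]
  have hp2 : (S.G M y').1 = ζ' + (S.X ζ').val • p2 S.P.g := by rw [hG']
  have hd : (ζ' + (S.X ζ).val • p2 S.P.g) - (ζ + (S.X ζ).val • p2 S.P.g) = ζ' - ζ := by abel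
  have key := hloc (ζ + (S.X ζ).val • p2 S.P.g) (by rw [← hp1]; exact hB)
    (ζ' + (S.X ζ).val • p2 S.P.g) (by rw [hd]; exact hv)
    (by
      have := congrArg Prod.snd hd
      simp only [Prod.snd_sub] at this
      rw [this]; exact h2)
  rw [phi_add_val, phi_add_val] at key
  have hX : S.φ ζ' + S.X ζ - (S.φ ζ + S.X ζ) = S.X ζ - S.X ζ' := by
    simp only [Stage.X]
    rw [hll]
    ring
  rw [hX, val_sub_smul S.P.hg] at key
  have hfst : dist (S.G M y).1 (S.G M y').1 < δ / 2 := by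
    rw [dist_eq_norm, hp1, hp2]
    have e : ζ + (S.X ζ).val • p2 S.P.g - (ζ' + (S.X ζ').val • p2 S.P.g) =
        -(ζ' - ζ) + ((S.X ζ).val • p2 S.P.g - (S.X ζ').val • p2 S.P.g) := by abel
    rw [e]
    have := norm_add_le (-(ζ' - ζ)) ((S.X ζ).val • p2 S.P.g - (S.X ζ').val • p2 S.P.g)
    rw [norm_neg] at this
    linarith
  have hsnd : dist (S.G M y).2 (S.G M y').2 < δ := by
    have hs1 : (S.G M y).2 = (y.2 - (((dig M y.2 : ℝ) / M : ℝ) : T1)) -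
          (((dig M (S.P.Q • y.1.2) : ℝ) / M : ℝ) : T1) := by rw [hG]
    have hs2 : (S.G M y').2 = (y'.2 - (((dig M y'.2 : ℝ) / M : ℝ) : T1)) -
          (((dig M (S.P.Q • y'.1.2) : ℝ) / M : ℝ) : T1) := by rw [hG']
    rw [dist_eq_norm, hs1, hs2]
    have f1 := norm_sub_dig hM y.2
    have f2 := norm_sub_dig hM y'.2
    have f3 := norm_sub_dig hM (S.P.Q • y.1.2)
    have f4 := norm_sub_dig hM (S.P.Q • y'.1.2)
    have f5 : ‖S.P.Q • (y'.1.2 - y.1.2)‖ ≤ S.P.Q * ‖y'.1.2 - y.1.2‖ := norm_nsmul_le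
    have f6 : (S.P.Q : ℝ) * ‖y'.1.2 - y.1.2‖ ≤ S.P.Q * (1 / l) := by
      rw [norm_sub_rev]
      exact mul_le_mul_of_nonneg_left hz2.le hQ0.le
    have f7 : (S.P.Q : ℝ) * (1 / l) = S.P.Q / l := by ring
    generalize hA : y.2 - (((dig M y.2 : ℝ) / M : ℝ) : T1) = A at *
    generalize hA' : y'.2 - (((dig M y'.2 : ℝ) / M : ℝ) : T1) = A' at *
    generalize hC : (((dig M (S.P.Q • y.1.2) : ℝ) / M : ℝ) : T1) = C at *
    generalize hC' : (((dig M (S.P.Q • y'.1.2) : ℝ) / M : ℝ) : T1) = C' at *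
    have e : A - C - (A' - C') = (A - A') + ((S.P.Q • y.1.2 - C) - (S.P.Q • y'.1.2 - C')) +
        S.P.Q • (y'.1.2 - y.1.2) := by
      rw [smul_sub]; abel
    rw [e]
    have g1 := norm_add_le ((A - A') + ((S.P.Q • y.1.2 - C) - (S.P.Q • y'.1.2 - C')))
      (S.P.Q • (y'.1.2 - y.1.2))
    have g2 := norm_add_le (A - A') ((S.P.Q • y.1.2 - C) - (S.P.Q • y'.1.2 - C'))
    have g3 := norm_sub_le A A'
    have g4 := norm_sub_le (S.P.Q • y.1.2 - C) (S.P.Q • y'.1.2 - C')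
    linarith
  rw [Prod.dist_eq]
  exact max_lt (by linarith) hsnd

end

end Pool.Agent.Odo
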