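import Pool.Agent.Lib_MP_84c575_an.Defs

/-!
# Borel-Cantelli limit of the labels
-/

open MeasureTheory Set Filter
open scoped ContDiff Topology

namespace Pool.Agent.Odo

noncomputable section

section lim
variable {M : Type} [MetricSpace M] [CompactSpace M] [MeasurableSpace M] [BorelSpace M]
  (μ : Measure M) [IsProbabilityMeasure μ] (q : ℕ → ℕ) (hd : ∀ k, q k ∣ q (k + 1))
  [∀ k, NeZero (q k)]

omit [∀ k, NeZero (q k)] in
lemma limA_dvd {q : ℕ → ℕ} (hd : ∀ k, q k ∣ q (k + 1)) {k m : ℕ} (h : k ≤ m) : q k ∣ q m := by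
  induction m, h using Nat.le_induction with
  | base => exact dvd_refl _
  | succ m _ ih => exact ih.trans (hd m)

omit [∀ k, NeZero (q k)] in
/-- the cast of a stable sequence of labels does not depend on the stage -/
lemma limA_stable {q : ℕ → ℕ} (hd : ∀ k, q k ∣ q (k + 1)) (a : ∀ n, ZMod (q n)) (N : ℕ)
    (ha : ∀ m, N ≤ m → ZMod.castHom (hd m) (ZMod (q m)) (a (m + 1)) = a m) (k : ℕ)
    {M m : ℕ} (hkM : k ≤ M) (hNM : N ≤ M) (h : M ≤ m) :
    ZMod.castHom (limA_dvd hd (hkM.trans h)) (ZMod (q k)) (a m) =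
      ZMod.castHom (limA_dvd hd hkM) (ZMod (q k)) (a M) := by
  induction m, h using Nat.le_induction with
  | base => rfl
  | succ m hm ih =>
    rw [← ih, ← ha m (hNM.trans hm)]
    have := ZMod.castHom_comp (limA_dvd hd (hkM.trans hm)) (hd m)
    rw [← RingHom.comp_apply, this]

lemma exists_limit_label (Φ : ∀ n, M → ZMod (q n)) (hΦ : ∀ n, Measurable (Φ n))
    (hB : ∀ n, μ {x | ZMod.castHom (hd n) (ZMod (q n)) (Φ (n + 1) x) ≠ Φ n x} ≤
      ENNReal.ofReal ((1 / 2) ^ n)) :
    ∃ Θ : M → odo q hd, Measurable Θ ∧ ∀ᵐ x ∂μ, ∀ᶠ n in atTop, (Θ x).1 n = Φ n x := by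
  classical
  -- good points
  let G : Set M := {x | ∃ N, ∀ m, N ≤ m →
    ZMod.castHom (hd m) (ZMod (q m)) (Φ (m + 1) x) = Φ m x}
  have hcast : ∀ (k m : ℕ) (h : k ≤ m),
      Measurable (fun x => ZMod.castHom (limA_dvd hd h) (ZMod (q k)) (Φ m x)) := by
    intro k m h
    exact (measurable_of_countable _).comp (hΦ m)
  have hE : ∀ m, MeasurableSet {x | ZMod.castHom (hd m) (ZMod (q m)) (Φ (m + 1) x) = Φ m x} := by
    intro m
    exact measurableSet_eq_fun ((measurable_of_countable _).comp (hΦ (m + 1))) (hΦ m)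
  have hE' : ∀ N, MeasurableSet {x | ∀ m, N ≤ m →
      ZMod.castHom (hd m) (ZMod (q m)) (Φ (m + 1) x) = Φ m x} := by
    intro N
    have : {x | ∀ m, N ≤ m → ZMod.castHom (hd m) (ZMod (q m)) (Φ (m + 1) x) = Φ m x} =
        ⋂ m, ⋂ (_ : N ≤ m), {x | ZMod.castHom (hd m) (ZMod (q m)) (Φ (m + 1) x) = Φ m x} := by
      ext x
      simp
    rw [this]
    exact MeasurableSet.iInter fun m => MeasurableSet.iInter fun _ => hE m
  have hG : MeasurableSet G := by
    have : G = ⋃ N, {x | ∀ m, N ≤ m →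
        ZMod.castHom (hd m) (ZMod (q m)) (Φ (m + 1) x) = Φ m x} := by
      ext x
      simp [G]
    rw [this]
    exact MeasurableSet.iUnion hE'
  let p : ℕ → M → Prop := fun N x => x ∉ G ∨ ∀ m, N ≤ m →
    ZMod.castHom (hd m) (ZMod (q m)) (Φ (m + 1) x) = Φ m x
  have hp : ∀ x, ∃ N, p N x := by
    intro x
    by_cases h : x ∈ G
    · obtain ⟨N, hN⟩ := h
      exact ⟨N, Or.inr hN⟩
    · exact ⟨0, Or.inl h⟩
  have hpm : ∀ N, MeasurableSet {x | p N x} := by
    intro N
    exact hG.compl.union (hE' N)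
  let f : ∀ k : ℕ, ℕ → M → ZMod (q k) := fun k N x =>
    if x ∈ G then ZMod.castHom (limA_dvd hd (le_max_left k N)) (ZMod (q k)) (Φ (max k N) x) else 0
  have hf : ∀ k N, Measurable (f k N) := by
    intro k N
    exact Measurable.ite hG (hcast k (max k N) (le_max_left k N)) measurable_const
  let Θ0 : M → ∀ k, ZMod (q k) := fun x k => f k (Nat.find (hp x)) x
  have hst : ∀ x ∈ G, ∀ m, Nat.find (hp x) ≤ m →
      ZMod.castHom (hd m) (ZMod (q m)) (Φ (m + 1) x) = Φ m x := by
    intro x hx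
    rcases Nat.find_spec (hp x) with h | h
    · exact absurd hx h
    · exact h
  have hval : ∀ x ∈ G, ∀ k m (hk : k ≤ m), Nat.find (hp x) ≤ m →
      ZMod.castHom (limA_dvd hd hk) (ZMod (q k)) (Φ m x) = Θ0 x k := by
    intro x hx k m hk hm
    simp only [Θ0, f, if_pos hx]
    exact limA_stable hd (fun n => Φ n x) (Nat.find (hp x)) (hst x hx) k
      (le_max_left _ _) (le_max_right _ _) (max_le hk hm)
  have hmem : ∀ x, Θ0 x ∈ odo q hd := by
    intro x k
    by_cases hx : x ∈ G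
    · have h1 := hval x hx (k + 1) (max (k + 1) (Nat.find (hp x))) (le_max_left _ _)
        (le_max_right _ _)
      have h2 := hval x hx k (max (k + 1) (Nat.find (hp x)))
        ((Nat.le_succ k).trans (le_max_left _ _)) (le_max_right _ _)
      rw [← h1, ← h2, ← RingHom.comp_apply, ZMod.castHom_comp]
    · simp only [Θ0, f, if_neg hx, map_zero]
  refine ⟨fun x => ⟨Θ0 x, hmem x⟩, ?_, ?_⟩
  · apply Measurable.subtype_mk
    refine measurable_pi_lambda _ fun k => ?_
    exact Measurable.find (hf k) hpm hp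
  · have hsum : (∑' n, μ {x | ZMod.castHom (hd n) (ZMod (q n)) (Φ (n + 1) x) ≠ Φ n x}) ≠ ⊤ := by
      refine ne_top_of_le_ne_top ?_ (ENNReal.tsum_le_tsum hB)
      rw [← ENNReal.ofReal_tsum_of_nonneg (fun n => by positivity)
        (summable_geometric_of_lt_one (by norm_num) (by norm_num))]
      exact ENNReal.ofReal_ne_top
    filter_upwards [ae_eventually_notMem hsum] with x hx
    obtain ⟨N, hN⟩ := eventually_atTop.1 hx
    have hxG : x ∈ G := by
      refine ⟨N, fun m hm => ?_⟩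
      have := hN m hm
      simpa using this
    refine eventually_atTop.2 ⟨Nat.find (hp x), fun n hn => ?_⟩
    have := hval x hxG n n le_rfl hn
    show Θ0 x n = Φ n x
    rw [← this]
    exact congrFun (congrArg DFunLike.coe (ZMod.castHom_self)) _

end lim

end

end Pool.Agent.Odo
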