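import Pool.Agent.Lib_MP_84c575_an.Defs

/-!
# Convergence in measure of labels and equivariance of the limit label
-/

open MeasureTheory Set Filter
open scoped ContDiff Topology

namespace Pool.Agent.Odo

noncomputable section

section lim
variable {M : Type} [MetricSpace M] [CompactSpace M] [MeasurableSpace M] [BorelSpace M]
  (μ : Measure M) [IsProbabilityMeasure μ] (q : ℕ → ℕ) (hd : ∀ k, q k ∣ q (k + 1))
  [∀ k, NeZero (q k)]

/-- convergence in measure of `ψ ∘ f_n` to `ψ ∘ f` -/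
lemma tendsto_comp_ne {D : Type} [Finite D] [MeasurableSpace D] [MeasurableSingletonClass D]
    (ψ : M → D) (hψ : Measurable ψ) (fn : ℕ → M → M) (f : M → M)
    (hfn : ∀ n, MeasurePreserving (fn n) μ μ) (hf : MeasurePreserving f μ μ)
    (hu : ∀ n x, dist (fn n x) (f x) ≤ 2 * (1 / 2) ^ n) :
    Tendsto (fun n => μ {x | ψ (fn n x) ≠ ψ (f x)}) atTop (𝓝 0) := by
  classical
  have : Fintype D := Fintype.ofFinite D
  rw [ENNReal.tendsto_nhds_zero]
  intro ε hε
  -- compact pieces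
  set N : ℕ := Fintype.card D + 1 with hN
  have hNpos : (0 : ENNReal) < ε / 2 / N := by
    apply ENNReal.div_pos (ENNReal.half_pos hε.ne').ne'
    exact ENNReal.natCast_ne_top N
  have hKex : ∀ d : D, ∃ K : Set M, K ⊆ ψ ⁻¹' {d} ∧ IsCompact K ∧ μ (ψ ⁻¹' {d} \ K) < ε / 2 / N := by
    intro d
    have hm : MeasurableSet (ψ ⁻¹' {d}) := hψ (measurableSet_singleton d)
    obtain ⟨K, hK1, hK2, hK3⟩ :=
      hm.exists_isCompact_sdiff_lt (μ := μ) (measure_ne_top μ _) hNpos.ne'
    exact ⟨K, hK1, hK2, hK3⟩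
  choose K hK1 hK2 hK3 using hKex
  set U : Set M := ⋃ d, K d with hU
  have hUc : MeasurableSet Uᶜ :=
    (MeasurableSet.iUnion fun d => (hK2 d).isClosed.measurableSet).compl
  have hUm : μ Uᶜ ≤ ε / 2 := by
    have hsub : Uᶜ ⊆ ⋃ d ∈ (Finset.univ : Finset D), (ψ ⁻¹' {d} \ K d) := by
      intro x hx
      simp only [Finset.mem_univ, iUnion_true, mem_iUnion]
      refine ⟨ψ x, rfl, fun h => hx ?_⟩
      exact mem_iUnion.2 ⟨ψ x, h⟩
    calc μ Uᶜ ≤ μ (⋃ d ∈ (Finset.univ : Finset D), (ψ ⁻¹' {d} \ K d)) := measure_mono hsub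
      _ ≤ ∑ d ∈ (Finset.univ : Finset D), μ (ψ ⁻¹' {d} \ K d) :=
          measure_biUnion_finset_le _ _
      _ ≤ ∑ _d ∈ (Finset.univ : Finset D), ε / 2 / N := Finset.sum_le_sum fun d _ => (hK3 d).le
      _ = (Fintype.card D : ENNReal) * (ε / 2 / N) := by
          rw [Finset.sum_const, nsmul_eq_mul, Finset.card_univ]
      _ ≤ ((Fintype.card D + 1 : ℕ) : ENNReal) * (ε / 2 / N) := by
          gcongr
          exact Nat.le_succ _
      _ = ε / 2 := by
          apply ENNReal.mul_div_cancel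
          · exact_mod_cast Nat.succ_ne_zero (Fintype.card D)
          · exact ENNReal.natCast_ne_top _
  have hev : ∀ᶠ n : ℕ in atTop, ∀ d d' : D, d ≠ d' → ∀ x ∈ K d, ∀ y ∈ K d',
      2 * (1 / 2 : ℝ) ^ n < dist x y := by
    refine eventually_all.2 fun d => eventually_all.2 fun d' => ?_
    by_cases hdd : d = d'
    · exact Eventually.of_forall fun n h => absurd hdd h
    have hdisj : Disjoint (K d) (K d') := by
      rw [Set.disjoint_left]
      intro x hx hx'
      have h1 : ψ x = d := hK1 d hx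
      have h2 : ψ x = d' := hK1 d' hx'
      exact hdd (h1.symm.trans h2)
    obtain ⟨δ, hδ, hD⟩ := hdisj.exists_thickenings (hK2 d) (hK2 d').isClosed
    have ht : Tendsto (fun n : ℕ => 2 * (1 / 2 : ℝ) ^ n) atTop (𝓝 0) := by
      have := (tendsto_pow_atTop_nhds_zero_of_lt_one (by norm_num : (0 : ℝ) ≤ 1 / 2)
        (by norm_num)).const_mul 2
      simpa using this
    filter_upwards [ht.eventually (gt_mem_nhds hδ)] with n hn _ x hx y hy
    by_contra hcon
    push Not at hcon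
    have hlt : dist y x < δ := by
      rw [dist_comm]
      exact lt_of_le_of_lt hcon hn
    have h1 : y ∈ Metric.thickening δ (K d) := Metric.mem_thickening_iff.2 ⟨x, hx, hlt⟩
    have h2 : y ∈ Metric.thickening δ (K d') := Metric.self_subset_thickening hδ _ hy
    exact Set.disjoint_left.1 hD h1 h2
  filter_upwards [hev] with n hn
  have hsub : {x | ψ (fn n x) ≠ ψ (f x)} ⊆ (fn n) ⁻¹' Uᶜ ∪ f ⁻¹' Uᶜ := by
    intro x hx
    by_contra hcon
    simp only [mem_union, mem_preimage, mem_compl_iff, not_or, not_not] at hcon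
    obtain ⟨h1, h2⟩ := hcon
    obtain ⟨d, hd1⟩ := mem_iUnion.1 h1
    obtain ⟨d', hd2⟩ := mem_iUnion.1 h2
    have e1 : ψ (fn n x) = d := hK1 d hd1
    have e2 : ψ (f x) = d' := hK1 d' hd2
    have hne : d ≠ d' := by
      rw [← e1, ← e2]
      exact hx
    exact absurd (hu n x) (not_le.2 (hn d d' hne _ hd1 _ hd2))
  calc μ {x | ψ (fn n x) ≠ ψ (f x)} ≤ μ ((fn n) ⁻¹' Uᶜ ∪ f ⁻¹' Uᶜ) := measure_mono hsub
    _ ≤ μ ((fn n) ⁻¹' Uᶜ) + μ (f ⁻¹' Uᶜ) := measure_union_le _ _
    _ = μ Uᶜ + μ Uᶜ := by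
        rw [(hfn n).measure_preimage hUc.nullMeasurableSet,
          hf.measure_preimage hUc.nullMeasurableSet]
    _ ≤ ε / 2 + ε / 2 := add_le_add hUm hUm
    _ = ε := ENNReal.add_halves ε

omit [∀ k, NeZero (q k)] in
/-- elements of the odometer are determined at level `k` by level `n ≥ k` -/
lemma odo_level_eq (x y : odo q hd) {k n : ℕ} (hkn : k ≤ n) (h : x.1 n = y.1 n) :
    x.1 k = y.1 k := by
  induction n, hkn using Nat.le_induction with
  | base => exact h
  | succ m hm ih =>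
    apply ih
    have hx := x.2 m
    have hy := y.2 m
    rw [← hx, ← hy, h]

lemma limit_equivariant (Φ : ∀ n, M → ZMod (q n)) (hΦ : ∀ n, Measurable (Φ n))
    (Θ : M → odo q hd) (hΘ : Measurable Θ)
    (hl : ∀ᵐ x ∂μ, ∀ᶠ n in atTop, (Θ x).1 n = Φ n x)
    (fn : ℕ → M → M) (f : M → M)
    (hfn : ∀ n, MeasurePreserving (fn n) μ μ) (hf : MeasurePreserving f μ μ)
    (hu : ∀ n x, dist (fn n x) (f x) ≤ 2 * (1 / 2) ^ n)
    (hA : ∀ n x, Φ n (fn n x) = Φ n x + 1) :
    ∀ᵐ x ∂μ, Θ (f x) = Θ x + odoOne q hd := by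
  classical
  have hm : ∀ n, Measurable (fun x => (Θ x).1 n) := fun n =>
    (measurable_pi_apply n).comp (measurable_subtype_coe.comp hΘ)
  -- the bad sets
  set A : ℕ → Set M := fun n => {x | (Θ x).1 n ≠ Φ n x} with hAdef
  have hAm : ∀ n, MeasurableSet (A n) := by
    intro n
    have : MeasurableSet {x | (Θ x).1 n = Φ n x} := measurableSet_eq_fun (hm n) (hΦ n)
    exact this.compl
  have hA0 : Tendsto (fun n => μ (A n)) atTop (𝓝 0) := by
    have := tendsto_measure_of_ae_tendsto_indicator_of_isFiniteMeasure (μ := μ) (L := atTop)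
      (A := (∅ : Set M)) (As := A) MeasurableSet.empty hAm (by
        filter_upwards [hl] with x hx
        filter_upwards [hx] with n hn
        simp [hAdef, hn])
    simpa using this
  have key : ∀ k : ℕ, ∀ᵐ x ∂μ, (Θ (f x)).1 k = (Θ x + odoOne q hd).1 k := by
    intro k
    rw [ae_iff]
    have hle : ∀ n ≥ k, μ {x | ¬ (Θ (f x)).1 k = (Θ x + odoOne q hd).1 k} ≤
        μ {x | (Θ (fn n x)).1 k ≠ (Θ (f x)).1 k} + (μ (A n) + μ (A n)) := by
      intro n hn
      have hsub : {x | ¬ (Θ (f x)).1 k = (Θ x + odoOne q hd).1 k} ⊆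
          {x | (Θ (fn n x)).1 k ≠ (Θ (f x)).1 k} ∪ (A n ∪ (fn n) ⁻¹' (A n)) := by
        intro x hx
        by_contra hcon
        simp only [mem_union, mem_ofPred_eq, not_or, hAdef, mem_preimage, not_not,
          ne_eq] at hcon
        obtain ⟨h1, h2, h3⟩ := hcon
        apply hx
        rw [← h1]
        apply odo_level_eq q hd _ _ hn
        rw [h3, hA n x, ← h2]
        rfl
      calc μ {x | ¬ (Θ (f x)).1 k = (Θ x + odoOne q hd).1 k}
          ≤ μ ({x | (Θ (fn n x)).1 k ≠ (Θ (f x)).1 k} ∪ (A n ∪ (fn n) ⁻¹' (A n))) :=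
            measure_mono hsub
        _ ≤ μ {x | (Θ (fn n x)).1 k ≠ (Θ (f x)).1 k} + μ (A n ∪ (fn n) ⁻¹' (A n)) :=
            measure_union_le _ _
        _ ≤ μ {x | (Θ (fn n x)).1 k ≠ (Θ (f x)).1 k} + (μ (A n) + μ ((fn n) ⁻¹' (A n))) := by
            gcongr
            exact measure_union_le _ _
        _ = _ := by rw [(hfn n).measure_preimage (hAm n).nullMeasurableSet]
    have hlim : Tendsto (fun n => μ {x | (Θ (fn n x)).1 k ≠ (Θ (f x)).1 k} +
        (μ (A n) + μ (A n))) atTop (𝓝 0) := by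
      have h1 := tendsto_comp_ne μ (fun x => (Θ x).1 k) (hm k) fn f hfn hf hu
      simpa using h1.add (hA0.add hA0)
    refine le_antisymm (ge_of_tendsto hlim ?_) (bot_le)
    filter_upwards [eventually_ge_atTop k] with n hn using hle n hn
  filter_upwards [ae_all_iff.2 key] with x hx
  apply Subtype.ext
  funext k
  exact hx k

end lim

end

end Pool.Agent.Odo
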