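import Pool.Agent.Lib_MP_84c575_an.Defs

/-!
# Measures on the odometer
-/

open MeasureTheory Set Filter
open scoped ContDiff Topology

namespace Pool.Agent.Odo

noncomputable section

instance (q : ℕ → ℕ) (hd : ∀ k, q k ∣ q (k + 1)) [∀ k, NeZero (q k)] :
    IsProbabilityMeasure (odoHaar q hd) := by
  constructor
  have h := Measure.addHaarMeasure_self (K₀ := (⊤ : TopologicalSpace.PositiveCompacts (odo q hd)))
  rw [TopologicalSpace.PositiveCompacts.coe_top] at h
  exact h

/-- a later coordinate determines the earlier ones -/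
lemma odo_coord_of_le (q : ℕ → ℕ) (hd : ∀ k, q k ∣ q (k + 1)) (x y : odo q hd) {k l : ℕ}
    (hkl : k ≤ l) (h : x.1 l = y.1 l) : x.1 k = y.1 k := by
  induction l, hkl using Nat.le_induction with
  | base => exact h
  | succ n _ ih =>
    apply ih
    rw [← x.2 n, ← y.2 n, h]

/-- the cylinders -/
def odoCyl (q : ℕ → ℕ) (hd : ∀ k, q k ∣ q (k + 1)) : Set (Set (odo q hd)) :=
  {s | ∃ (k : ℕ) (a : ZMod (q k)), s = {x | x.1 k = a}}

lemma odoCyl_pi (q : ℕ → ℕ) (hd : ∀ k, q k ∣ q (k + 1)) : IsPiSystem (odoCyl q hd) := by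
  rintro s ⟨k, a, rfl⟩ t ⟨l, b, rfl⟩ ⟨z, hz1, hz2⟩
  simp only [mem_setOf_eq] at hz1 hz2
  rcases le_total k l with hkl | hkl
  · refine ⟨l, b, ?_⟩
    ext x
    simp only [mem_inter_iff, mem_setOf_eq, and_iff_right_iff_imp]
    intro hx
    rw [← hz1]
    exact odo_coord_of_le q hd x z hkl (by rw [hx, hz2])
  · refine ⟨k, a, ?_⟩
    ext x
    simp only [mem_inter_iff, mem_setOf_eq, and_iff_left_iff_imp]
    intro hx
    rw [← hz2]
    exact odo_coord_of_le q hd x z hkl (by rw [hx, hz1])

lemma odo_measurableSet_cyl (q : ℕ → ℕ) (hd : ∀ k, q k ∣ q (k + 1)) (k : ℕ) (a : ZMod (q k)) :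
    MeasurableSet {x : odo q hd | x.1 k = a} := by
  have h : Measurable fun x : odo q hd => x.1 k :=
    (measurable_pi_apply k).comp measurable_subtype_coe
  exact h (measurableSet_singleton a)

lemma odo_generate (q : ℕ → ℕ) (hd : ∀ k, q k ∣ q (k + 1)) [∀ k, NeZero (q k)] :
    (inferInstance : MeasurableSpace (odo q hd)) = MeasurableSpace.generateFrom (odoCyl q hd) := by
  apply le_antisymm
  · have h : @Measurable (odo q hd) (∀ k, ZMod (q k)) (MeasurableSpace.generateFrom (odoCyl q hd))
        _ (fun x => x.1) := by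
      refine @measurable_pi_lambda _ _ _ (MeasurableSpace.generateFrom (odoCyl q hd)) _ _ ?_
      intro k
      refine @measurable_to_countable' _ _ _ _ (MeasurableSpace.generateFrom (odoCyl q hd)) _ ?_
      intro a
      exact MeasurableSpace.measurableSet_generateFrom ⟨k, a, rfl⟩
    exact h.comap_le
  · apply MeasurableSpace.generateFrom_le
    rintro s ⟨k, a, rfl⟩
    exact odo_measurableSet_cyl q hd k a

/-- measures of the odometer are determined by the cylinders -/
lemma odo_measure_ext (q : ℕ → ℕ) (hd : ∀ k, q k ∣ q (k + 1)) [∀ k, NeZero (q k)]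
    (μ ν : Measure (odo q hd)) [IsProbabilityMeasure μ] [IsProbabilityMeasure ν]
    (h : ∀ k (a : ZMod (q k)), μ {x | x.1 k = a} = ν {x | x.1 k = a}) : μ = ν := by
  refine ext_of_generate_finite (odoCyl q hd) (odo_generate q hd) (odoCyl_pi q hd) ?_ ?_
  · rintro s ⟨k, a, rfl⟩
    exact h k a
  · rw [measure_univ, measure_univ]

lemma odo_measure_cyl (q : ℕ → ℕ) (hd : ∀ k, q k ∣ q (k + 1)) [∀ k, NeZero (q k)]
    (μ : Measure (odo q hd)) [IsProbabilityMeasure μ]
    (h : MeasurePreserving (fun x => x + odoOne q hd) μ μ) (k : ℕ) (a : ZMod (q k)) :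
    μ {x | x.1 k = a} = ((q k : ℕ) : ENNReal)⁻¹ := by
  have h1 : ∀ b : ZMod (q k), μ {x : odo q hd | x.1 k = b + 1} = μ {x | x.1 k = b} := by
    intro b
    rw [← h.measure_preimage (odo_measurableSet_cyl q hd k (b + 1)).nullMeasurableSet]
    congr 1
    ext x
    simp only [mem_preimage, mem_setOf_eq]
    constructor
    · intro hx
      have : x.1 k + 1 = b + 1 := hx
      exact add_right_cancel this
    · intro hx
      show x.1 k + 1 = b + 1
      rw [hx]
  have h2 : ∀ n : ℕ, μ {x : odo q hd | x.1 k = (n : ZMod (q k))} = μ {x | x.1 k = 0} := by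
    intro n
    induction n with
    | zero => simp
    | succ n ih => rw [← ih, ← h1 n]; push_cast; rfl
  have h3 : ∀ b : ZMod (q k), μ {x : odo q hd | x.1 k = b} = μ {x | x.1 k = 0} := by
    intro b
    rw [← h2 b.val, ZMod.natCast_zmod_val]
  have h4 : ∑ b : ZMod (q k), μ {x : odo q hd | x.1 k = b} = 1 := by
    rw [← measure_univ (μ := μ), ← measure_biUnion_finset]
    · congr 1
      ext x
      simp
    · intro b _ c _ hbc
      refine Set.disjoint_left.2 ?_
      intro x hx1 hx2
      simp only [mem_setOf_eq] at hx1 hx2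
      exact hbc (hx1.symm.trans hx2)
    · intro b _
      exact odo_measurableSet_cyl q hd k b
  rw [Finset.sum_congr rfl (fun b _ => h3 b), Finset.sum_const, Finset.card_univ, ZMod.card,
    nsmul_eq_mul] at h4
  rw [h3 a]
  exact ENNReal.eq_inv_of_mul_eq_one_left (by rw [mul_comm]; exact h4)

/-- a probability measure invariant under `x ↦ x + 1` is the Haar measure -/
lemma odo_measure_unique (q : ℕ → ℕ) (hd : ∀ k, q k ∣ q (k + 1)) [∀ k, NeZero (q k)]
    (μ : Measure (odo q hd)) [IsProbabilityMeasure μ]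
    (h : MeasurePreserving (fun x => x + odoOne q hd) μ μ) : μ = odoHaar q hd := by
  apply odo_measure_ext
  intro k a
  haveI : (odoHaar q hd).IsAddHaarMeasure := by unfold odoHaar; infer_instance
  rw [odo_measure_cyl q hd μ h, odo_measure_cyl q hd (odoHaar q hd)
    (measurePreserving_add_right (odoHaar q hd) (odoOne q hd))]

end

end Pool.Agent.Odo
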