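import Pool.Agent.Lib_MP_84c575_an.Defs
import Pool.Agent.Lib_MP_84c575_an.OdoTop

/-!
PIECE LimC: the inverse of the limit label.
-/

open MeasureTheory Set Filter
open scoped ContDiff Topology

namespace Pool.Agent.Odo

noncomputable section

section lim
variable {M : Type} [MetricSpace M] [CompactSpace M] [MeasurableSpace M] [BorelSpace M]
  (μ : Measure M) [IsProbabilityMeasure μ] (q : ℕ → ℕ) (hd : ∀ k, q k ∣ q (k + 1))
  [∀ k, NeZero (q k)]

lemma limit_inverse (Φ : ∀ n, M → ZMod (q n)) (Θ : M → odo q hd) (hΘ : Measurable Θ)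
    (hl : ∀ᵐ x ∂μ, ∀ᶠ n in atTop, (Θ x).1 n = Φ n x) (f : M → M)
    (hf : MeasurePreserving f μ μ) (he : ∀ᵐ x ∂μ, Θ (f x) = Θ x + odoOne q hd)
    (hC : ∀ n, ∃ S : Set M, MeasurableSet S ∧ μ Sᶜ ≤ ENNReal.ofReal (2 * (1 / 2) ^ n) ∧
      ∀ x ∈ S, ∀ y ∈ S, Φ (n + 1) x = Φ (n + 1) y → dist x y ≤ (1 / 2) ^ n) :
    ∃ Ψ : odo q hd → M, Measurable Ψ ∧ MeasurePreserving Θ μ (odoHaar q hd) ∧
      MeasurePreserving Ψ (odoHaar q hd) μ ∧ (∀ᵐ x ∂μ, Ψ (Θ x) = x) ∧
      (∀ᵐ y ∂(odoHaar q hd), Θ (Ψ y) = y) := by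
  choose S hSm hSμ hS using hC
  -- almost every point is eventually in `S n`
  have hsum : ∑' n, μ (S n)ᶜ ≠ ⊤ := by
    have h1 : ∑' n, μ (S n)ᶜ ≤ ∑' n : ℕ, ENNReal.ofReal (2 * (1 / 2) ^ n) :=
      ENNReal.tsum_le_tsum hSμ
    have h2 : Summable (fun n : ℕ => (2 : ℝ) * (1 / 2) ^ n) :=
      (summable_geometric_of_lt_one (by norm_num) (by norm_num)).mul_left 2
    exact ne_top_of_le_ne_top h2.tsum_ofReal_ne_top h1
  have hev : ∀ᵐ x ∂μ, ∀ᶠ n in atTop, x ∉ (S n)ᶜ := ae_eventually_notMem hsum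
  have hev2 : ∀ᵐ x ∂μ, (∀ᶠ n in atTop, (Θ x).1 n = Φ n x) ∧ ∀ᶠ n in atTop, x ∈ S n := by
    filter_upwards [hl, hev] with x h1 h2
    refine ⟨h1, ?_⟩
    filter_upwards [h2] with n hn
    simpa using hn
  obtain ⟨A, hA1, hAm, hAμ⟩ : ∃ A : Set M, (∀ x ∈ A, (∀ᶠ n in atTop, (Θ x).1 n = Φ n x) ∧
      ∀ᶠ n in atTop, x ∈ S n) ∧ MeasurableSet A ∧ μ Aᶜ = 0 := by
    have h0 : μ {x | ¬ ((∀ᶠ n in atTop, (Θ x).1 n = Φ n x) ∧ ∀ᶠ n in atTop, x ∈ S n)} = 0 := hev2
    refine ⟨(toMeasurable μ {x | ¬ ((∀ᶠ n in atTop, (Θ x).1 n = Φ n x) ∧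
      ∀ᶠ n in atTop, x ∈ S n)})ᶜ, ?_, (measurableSet_toMeasurable _ _).compl, ?_⟩
    · intro x hx
      by_contra hcon
      exact hx (subset_toMeasurable μ _ hcon)
    · rw [compl_compl, measure_toMeasurable, h0]
  have hinj : ∀ x ∈ A, ∀ y ∈ A, Θ x = Θ y → x = y := by
    intro x hx y hy hxy
    obtain ⟨hx1, hx2⟩ := hA1 x hx
    obtain ⟨hy1, hy2⟩ := hA1 y hy
    have hx1' : ∀ᶠ n in atTop, (Θ x).1 (n + 1) = Φ (n + 1) x := (tendsto_add_atTop_nat 1).eventually hx1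
    have hy1' : ∀ᶠ n in atTop, (Θ y).1 (n + 1) = Φ (n + 1) y := (tendsto_add_atTop_nat 1).eventually hy1
    have hd0 : ∀ᶠ n : ℕ in atTop, dist x y ≤ (1 / 2 : ℝ) ^ n := by
      filter_upwards [hx1', hy1', hx2, hy2] with n h1 h2 h3 h4
      exact hS n x h3 y h4 (by rw [← h1, ← h2, hxy])
    have h0 : Tendsto (fun n : ℕ => (1 / 2 : ℝ) ^ n) atTop (𝓝 0) :=
      tendsto_pow_atTop_nhds_zero_of_lt_one (by norm_num) (by norm_num)
    have : dist x y ≤ 0 := ge_of_tendsto h0 hd0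
    exact dist_le_zero.1 this
  -- the pushforward is Haar
  have hpres : MeasurePreserving Θ μ (odoHaar q hd) := by
    have hone : Measurable (fun x : odo q hd => x + odoOne q hd) :=
      (continuous_id.add continuous_const).measurable
    have : IsProbabilityMeasure (μ.map Θ) := Measure.isProbabilityMeasure_map hΘ.aemeasurable
    refine ⟨hΘ, ?_⟩
    apply odo_measure_unique
    refine ⟨hone, ?_⟩
    rw [Measure.map_map hone hΘ]
    have h1 : (fun x : odo q hd => x + odoOne q hd) ∘ Θ =ᵐ[μ] Θ ∘ f := by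
      filter_upwards [he] with x hx
      exact hx.symm
    rw [Measure.map_congr h1, ← Measure.map_map hΘ hf.measurable, hf.map_eq]
  -- the inverse
  have : StandardBorelSpace A := hAm.standardBorel
  have hemb : MeasurableEmbedding (fun x : A => Θ x) :=
    (hΘ.comp measurable_subtype_coe).measurableEmbedding
      (fun x y h => Subtype.ext (hinj x x.2 y y.2 h))
  have : Nonempty M := by
    by_contra hM
    rw [not_nonempty_iff] at hM
    have := measure_univ (μ := μ)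
    rw [univ_eq_empty_iff.2 hM, measure_empty] at this
    exact zero_ne_one this
  obtain ⟨Ψ, hΨm, hΨ⟩ := hemb.exists_measurable_extend (measurable_subtype_coe (p := fun x => x ∈ A))
    (fun _ => inferInstance)
  have hΨΘ : ∀ᵐ x ∂μ, Ψ (Θ x) = x := by
    have hA : ∀ᵐ x ∂μ, x ∈ A := by
      rw [ae_iff]
      exact hAμ
    filter_upwards [hA] with x hx
    exact congrFun hΨ ⟨x, hx⟩
  refine ⟨Ψ, hΨm, hpres, ⟨hΨm, ?_⟩, hΨΘ, ?_⟩
  · rw [← hpres.map_eq, Measure.map_map hΨm hΘ]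
    have h1 : Ψ ∘ Θ =ᵐ[μ] id := hΨΘ
    rw [Measure.map_congr h1, Measure.map_id]
  · rw [← hpres.map_eq, ae_map_iff hΘ.aemeasurable]
    · filter_upwards [hΨΘ] with x hx
      rw [hx]
    · have hset : {y : odo q hd | Θ (Ψ y) = y} =
          ⋂ k, ⋃ c : ZMod (q k), {y | (Θ (Ψ y)).1 k = c} ∩ {y | y.1 k = c} := by
        ext y
        simp only [mem_setOf_eq, mem_iInter, mem_iUnion, mem_inter_iff]
        constructor
        · intro h k
          exact ⟨y.1 k, by rw [h], rfl⟩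
        · intro h
          apply Subtype.ext
          funext k
          obtain ⟨c, h1, h2⟩ := h k
          rw [h1, h2]
      rw [hset]
      have hk : ∀ k, Measurable fun y : odo q hd => y.1 k := fun k =>
        (measurable_pi_apply k).comp measurable_subtype_coe
      refine MeasurableSet.iInter fun k => MeasurableSet.iUnion fun c => ?_
      exact (((hk k).comp (hΘ.comp hΨm)) (measurableSet_singleton c)).inter
        ((hk k) (measurableSet_singleton c))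

end lim

end

end Pool.Agent.Odo
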