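import Pool.Agent.Lib_MP_84c575_an.Defs

/-!
# Limits of diffeomorphisms that converge fast in every `C^r`
-/

open MeasureTheory Set Filter
open scoped ContDiff Topology

namespace Pool.Agent.Odo

noncomputable section

lemma exists_limit_fun (f : ℕ → E3 → E3) (hf : ∀ n, ContDiff ℝ ∞ (f n))
    (hc : ∀ n, ∀ j ≤ n, ∀ x : E3,
      ‖iteratedFDeriv ℝ j (fun x => f (n + 1) x - f n x) x‖ ≤ (1 / 2) ^ n) :
    ∃ g : E3 → E3, ContDiff ℝ ∞ g ∧ (∀ x, Tendsto (fun n => f n x) atTop (𝓝 (g x))) ∧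
      (∀ n x, ‖f n x - g x‖ ≤ 2 * (1 / 2) ^ n) := by
  have hsum : Summable (fun n : ℕ => ((1 : ℝ) / 2) ^ n) := summable_geometric_two
  have hnorm : ∀ n x, ‖f (n + 1) x - f n x‖ ≤ (1 / 2) ^ n := by
    intro n x
    have := hc n 0 (Nat.zero_le n) x
    rwa [norm_iteratedFDeriv_zero] at this
  refine ⟨fun x => f 0 x + ∑' n, (f (n + 1) x - f n x), ?_, ?_, ?_⟩
  · refine (hf 0).add ?_
    refine contDiff_tsum_of_eventually (v := fun _ n => (1 / 2 : ℝ) ^ n) ?_ ?_ ?_
    · intro i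
      exact (hf (i + 1)).sub (hf i)
    · intro k _
      exact hsum
    · intro k _
      rw [Nat.cofinite_eq_atTop]
      filter_upwards [eventually_ge_atTop k] with n hn x
      exact hc n k hn x
  all_goals
    have htend : ∀ x, Tendsto (fun n => f n x) atTop
        (𝓝 (f 0 x + ∑' n, (f (n + 1) x - f n x))) := by
      intro x
      have hs : Summable (fun n => f (n + 1) x - f n x) :=
        Summable.of_norm_bounded hsum (fun n => hnorm n x)
      have h1 := hs.hasSum.tendsto_sum_nat.const_add (f 0 x)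
      refine h1.congr fun n => ?_
      rw [Finset.sum_range_sub (fun n => f n x)]
      abel
  · exact htend
  · intro n x
    have h := dist_le_of_le_geometric_of_tendsto (1 / 2 : ℝ) 1 (by norm_num)
      (f := fun n => f n x) (fun n => ?_) (htend x) n
    · rw [dist_eq_norm] at h
      refine h.trans (le_of_eq ?_)
      ring
    · rw [dist_comm, dist_eq_norm, one_mul]
      exact hnorm n x

lemma exists_limit (F : ℕ → E3 ≃ E3) (hF : ∀ n, ContDiff ℝ ∞ (F n))
    (hF' : ∀ n, ContDiff ℝ ∞ (F n).symm)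
    (per : ∀ n (x : E3) (a b c : ℤ), F n (x + ZZ a b c) = F n x + ZZ a b c)
    (hc : ∀ n, ∀ j ≤ n, ∀ x : E3,
      ‖iteratedFDeriv ℝ j (fun x => F (n + 1) x - F n x) x‖ ≤ (1 / 2) ^ n)
    (hc' : ∀ n, ∀ j ≤ n, ∀ x : E3,
      ‖iteratedFDeriv ℝ j (fun x => (F (n + 1)).symm x - (F n).symm x) x‖ ≤ (1 / 2) ^ n) :
    ∃ F' : E3 ≃ E3, ContDiff ℝ ∞ F' ∧ ContDiff ℝ ∞ F'.symm ∧
      (∀ (x : E3) (a b c : ℤ), F' (x + ZZ a b c) = F' x + ZZ a b c) ∧
      (∀ n x, ‖F n x - F' x‖ ≤ 2 * (1 / 2) ^ n) ∧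
      (∀ n x, ‖(F n).symm x - F'.symm x‖ ≤ 2 * (1 / 2) ^ n) := by
  obtain ⟨g, hg, hgt, hgn⟩ := exists_limit_fun (fun n => F n) hF hc
  obtain ⟨k, hk, hkt, hkn⟩ := exists_limit_fun (fun n => (F n).symm) hF' hc'
  have htwo : Tendsto (fun n : ℕ => (2 : ℝ) * (1 / 2) ^ n) atTop (𝓝 0) := by
    have h := (tendsto_pow_atTop_nhds_zero_of_lt_one (r := (1 / 2 : ℝ)) (by norm_num)
      (by norm_num)).const_mul 2
    simpa using h
  -- if `a n` converges to `a` then `g a` is the limit of `F n (a n)`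
  have key : ∀ (f : ℕ → E3 → E3) (f' : E3 → E3), Continuous f' →
      (∀ n x, ‖f n x - f' x‖ ≤ 2 * (1 / 2) ^ n) → ∀ (a : ℕ → E3) (a' : E3),
      Tendsto a atTop (𝓝 a') → Tendsto (fun n => f n (a n)) atTop (𝓝 (f' a')) := by
    intro f f' hf' hn a a' ha
    have h1 : Tendsto (fun n => f' (a n)) atTop (𝓝 (f' a')) := (hf'.tendsto a').comp ha
    have h2 : Tendsto (fun n => f n (a n) - f' (a n)) atTop (𝓝 0) := by
      rw [tendsto_zero_iff_norm_tendsto_zero]
      exact squeeze_zero (fun n => norm_nonneg _) (fun n => hn n (a n)) htwo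
    have h3 := h2.add h1
    simp only [sub_add_cancel, zero_add] at h3
    exact h3
  have hgk : ∀ x, g (k x) = x := by
    intro x
    have h := key (fun n => F n) g hg.continuous hgn (fun n => (F n).symm x) (k x) (hkt x)
    simp only [Equiv.apply_symm_apply] at h
    exact tendsto_nhds_unique h tendsto_const_nhds
  have hkg : ∀ x, k (g x) = x := by
    intro x
    have h := key (fun n => (F n).symm) k hk.continuous hkn (fun n => F n x) (g x) (hgt x)
    simp only [Equiv.symm_apply_apply] at h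
    exact tendsto_nhds_unique h tendsto_const_nhds
  refine ⟨⟨g, k, hkg, hgk⟩, hg, hk, ?_, hgn, hkn⟩
  intro x a b c
  have h1 := hgt (x + ZZ a b c)
  have h2 := (hgt x).add_const (ZZ a b c)
  simp only [per] at h1
  exact tendsto_nhds_unique h1 h2

end

end Pool.Agent.Odo
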