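import Pool.Agent.Lib_MP_84c575_an.Defs
import Pool.Agent.Lib_MP_84c575_an.Circle
import Pool.Agent.Lib_MP_84c575_an.Lab

/-!
# The label of the next stage changes only in the direction `w`
-/

open MeasureTheory Set Filter
open scoped ContDiff Topology

namespace Pool.Agent.Odo

noncomputable section

/-- the second component of the new label -/
lemma labN_cast2 (P : Par) {l : ℕ} (hc : Nat.Coprime P.Q l) (hd : l ∣ P.Q * l) (z : T2) :
    ZMod.castHom hd (ZMod l) (labN P l hc z) = lab2 P l z := by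
  have h : ZMod.castHom hd (ZMod l) =
      (RingHom.snd (ZMod P.Q) (ZMod l)).comp (ZMod.chineseRemainder hc).toRingHom :=
    RingHom.ext_zmod _ _
  rw [h]
  simp [labN]

lemma continuous_vd (κ : ℕ) : Continuous (vd κ) := by
  unfold vd
  fun_prop

lemma vd_eq_sub (κ Q : ℕ) (z : T2) : vd κ z = vd (κ + Q) z - Q • z.2 := by
  simp only [vd, add_smul]
  abel

/-- `m • x` depends only on `m` modulo the order -/
lemma smul_eq_of_mod {l m : ℕ} {k : ℤ} {x : T2} (hx : l • x = 0) (h : (m : ZMod l) = (k : ZMod l)) :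
    m • x = k • x := by
  have h1 : ((m : ℤ) : ZMod l) = (k : ZMod l) := by
    rw [← h]
    simp
  rw [ZMod.intCast_eq_intCast_iff_dvd_sub] at h1
  obtain ⟨c, hc⟩ := h1
  have h2 : k = (m : ℤ) + l * c := by omega
  rw [h2, add_smul, mul_comm, mul_smul, natCast_zsmul, natCast_zsmul, hx, smul_zero, add_zero]

lemma norm_zsmul_le' (k : ℤ) (x : T2) : ‖k • x‖ ≤ |(k : ℝ)| * ‖x‖ := by
  have := norm_zsmul_le k x
  simpa [Int.norm_eq_abs] using this

/-- the label of the next stage changes only by a bounded amount, in the direction `w` -/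
lemma loc (P : Par) {l : ℕ} (hl : 0 < l) (hc : Nat.Coprime P.Q l) (p p' : T2)
    (h1 : ‖vd (P.κ + P.Q) (p' - p)‖ < 1 / ((P.Q * l : ℕ) : ℝ))
    (h2 : ‖p'.2 - p.2‖ < 2 / ((P.Q * l : ℕ) : ℝ))
    (hB : (3 : ℝ) * P.Q / l ≤ fr (P.Q • vd P.κ p) ∧ fr (P.Q • vd P.κ p) ≤ 1 - 3 * P.Q / l) :
    ‖(labN P l hc p' - labN P l hc p).val • p2 (P.next l hl hc).g‖ ≤ 3 * (P.κ + 1) / l := by
  have hQ := P.hQ
  have hQ0 : (0 : ℝ) < P.Q := by exact_mod_cast hQ
  have hl0 : (0 : ℝ) < l := by exact_mod_cast hl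
  have hQ1 : (1 : ℝ) ≤ P.Q := by exact_mod_cast hQ
  rw [Nat.cast_mul] at h1 h2
  -- the coarse labels agree
  have hA : ‖vd P.κ p' - vd P.κ p‖ < 3 / l := by
    rw [← vd_sub, vd_eq_sub P.κ P.Q]
    have h3 : ‖P.Q • (p' - p).2‖ ≤ P.Q * ‖p'.2 - p.2‖ := by
      have := norm_nsmul_le (n := P.Q) (a := (p' - p).2)
      simpa using this
    have h4 : (P.Q : ℝ) * ‖p'.2 - p.2‖ < 2 / l := by
      have : (P.Q : ℝ) * (2 / (P.Q * l)) = 2 / l := by field_simp
      rw [← this]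
      exact mul_lt_mul_of_pos_left h2 hQ0
    have h5 : (1 : ℝ) / (P.Q * l) ≤ 1 / l := by
      apply one_div_le_one_div_of_le hl0
      nlinarith
    have h6 : (3 : ℝ) / l = 1 / l + 2 / l := by ring
    calc ‖vd (P.κ + P.Q) (p' - p) - P.Q • (p' - p).2‖
        ≤ ‖vd (P.κ + P.Q) (p' - p)‖ + ‖P.Q • (p' - p).2‖ := norm_sub_le _ _
      _ < 3 / l := by linarith
  have hd : dig P.Q (vd P.κ p') = dig P.Q (vd P.κ p) := by
    apply dig_stable hQ hA
    · have : (P.Q : ℝ) * (3 / l) = 3 * P.Q / l := by ring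
      rw [this]
      exact hB.1
    · have : (P.Q : ℝ) * (3 / l) = 3 * P.Q / l := by ring
      rw [this]
      exact hB.2
  have hL1 : lab1 P p' = lab1 P p := by
    unfold lab1
    rw [hd]
  -- the fine labels differ by a bounded amount
  obtain ⟨k, hk, hk2⟩ : ∃ k : ℤ, |k| ≤ 3 ∧ lab2 P l p' = lab2 P l p + k := by
    unfold lab2
    rw [hL1]
    apply dig_diff hl
    have h3 : p'.2 - (lab1 P p).val • (p2 P.g).2 - (p.2 - (lab1 P p).val • (p2 P.g).2) =
        p'.2 - p.2 := by abel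
    rw [h3]
    refine lt_of_lt_of_le h2 ?_
    apply div_le_div_of_nonneg_left (by norm_num) hl0
    nlinarith
  set m : ℕ := (labN P l hc p' - labN P l hc p).val with hm
  have : NeZero (P.Q * l) := ⟨(Nat.mul_pos hQ hl).ne'⟩
  have hmc : ((m : ℕ) : ZMod (P.Q * l)) = labN P l hc p' - labN P l hc p := by
    rw [hm, ZMod.natCast_zmod_val]
  have hm1 : ((m : ℕ) : ZMod P.Q) = ((0 : ℤ) : ZMod P.Q) := by
    have h3 := congrArg (ZMod.castHom (Dvd.intro l rfl) (ZMod P.Q)) hmc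
    rw [map_natCast, map_sub, labN_cast, labN_cast, hL1, sub_self] at h3
    rw [h3]
    simp
  have hm2 : ((m : ℕ) : ZMod l) = ((k : ℤ) : ZMod l) := by
    have h3 := congrArg (ZMod.castHom (Dvd.intro_left P.Q rfl) (ZMod l)) hmc
    rw [map_natCast, map_sub, labN_cast2, labN_cast2, hk2] at h3
    rw [h3]
    ring
  have hw : l • p2 ((1 / (l : ℝ)) • P.w) = 0 := by
    rw [nsmul_p2, smul_smul]
    have : (l : ℝ) * (1 / (l : ℝ)) = ((1 : ℕ) : ℝ) := by
      field_simp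
      simp
    rw [this]
    exact p2_w_smul P 1
  have hg : (P.next l hl hc).g = P.g + (1 / (l : ℝ)) • P.w := rfl
  rw [hg, p2_add, smul_add, smul_eq_of_mod P.hg hm1, smul_eq_of_mod hw hm2, zero_smul, zero_add]
  have hn : ‖p2 ((1 / (l : ℝ)) • P.w)‖ ≤ (P.κ + 1) / l := by
    have hκ : (0 : ℝ) ≤ P.κ := Nat.cast_nonneg _
    rw [Prod.norm_def]
    apply max_le
    · have h3 : ‖(((1 / (l : ℝ)) * (-(P.κ : ℝ)) : ℝ) : T1)‖ ≤ |(1 / (l : ℝ)) * (-(P.κ : ℝ))| :=
        QuotientAddGroup.norm_mk_le_norm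
      have h4 : |(1 / (l : ℝ)) * (-(P.κ : ℝ))| ≤ (P.κ + 1) / l := by
        rw [mul_neg, abs_neg, abs_of_nonneg (by positivity), div_mul_eq_mul_div, one_mul]
        gcongr
        linarith
      exact h3.trans h4
    · have h3 : ‖(((1 / (l : ℝ)) * 1 : ℝ) : T1)‖ ≤ |(1 / (l : ℝ)) * 1| :=
        QuotientAddGroup.norm_mk_le_norm
      have h4 : |(1 / (l : ℝ)) * 1| ≤ (P.κ + 1) / l := by
        rw [mul_one, abs_of_nonneg (by positivity)]
        gcongr
        linarith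
      exact h3.trans h4
  have hk' : |(k : ℝ)| ≤ 3 := by exact_mod_cast hk
  calc ‖k • p2 ((1 / (l : ℝ)) • P.w)‖ ≤ |(k : ℝ)| * ‖p2 ((1 / (l : ℝ)) • P.w)‖ := norm_zsmul_le' _ _
    _ ≤ 3 * ((P.κ + 1) / l) := by gcongr
    _ = 3 * (P.κ + 1) / l := by ring

/-- `z ↦ Q • (z₁ + κ z₂)` as a homomorphism -/
def vdHom (κ Q : ℕ) : T2 →+ T1 where
  toFun z := Q • vd κ z
  map_zero' := by simp [vd]
  map_add' x y := by rw [vd_add, smul_add]

lemma vdHom_mp (κ : ℕ) {Q : ℕ} (hQ : 0 < Q) : MeasurePreserving (vdHom κ Q) volume volume := by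
  apply AddMonoidHom.measurePreserving
  · show Continuous fun z : T2 => Q • vd κ z
    exact (continuous_vd κ).const_smul Q
  · intro x
    obtain ⟨t, rfl⟩ := coe_surj x
    refine ⟨(((t / Q : ℝ) : T1), 0), ?_⟩
    show Q • vd κ (((t / Q : ℝ) : T1), 0) = _
    simp only [vd, smul_zero, add_zero]
    rw [nsmul_coe]
    congr 1
    have : (Q : ℝ) ≠ 0 := by positivity
    field_simp
  · simp

lemma measurableSet_bad (a b : ℝ) : MeasurableSet {x : T1 | ¬ (a ≤ fr x ∧ fr x ≤ b)} := by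
  apply MeasurableSet.compl
  exact (measurableSet_le measurable_const measurable_fr).inter
    (measurableSet_le measurable_fr measurable_const)

lemma volume_locB (P : Par) {l : ℕ} (hl : 0 < l) :
    volume {p : T2 | ¬ ((3 : ℝ) * P.Q / l ≤ fr (P.Q • vd P.κ p) ∧
      fr (P.Q • vd P.κ p) ≤ 1 - 3 * P.Q / l)} ≤ ENNReal.ofReal (6 * P.Q / l) := by
  have h := (vdHom_mp P.κ P.hQ).measure_preimage
    (measurableSet_bad ((3 : ℝ) * P.Q / l) (1 - 3 * P.Q / l)).nullMeasurableSet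
  have h2 : (vdHom P.κ P.Q) ⁻¹' {x : T1 | ¬ ((3 : ℝ) * P.Q / l ≤ fr x ∧ fr x ≤ 1 - 3 * P.Q / l)} =
      {p : T2 | ¬ ((3 : ℝ) * P.Q / l ≤ fr (P.Q • vd P.κ p) ∧
      fr (P.Q • vd P.κ p) ≤ 1 - 3 * P.Q / l)} := rfl
  rw [h2] at h
  rw [h]
  refine (volume_fr_bad (by positivity)).trans (le_of_eq ?_)
  congr 1
  ring

lemma measurableSet_locB (P : Par) (l : ℕ) :
    MeasurableSet {p : T2 | ¬ ((3 : ℝ) * P.Q / l ≤ fr (P.Q • vd P.κ p) ∧
      fr (P.Q • vd P.κ p) ≤ 1 - 3 * P.Q / l)} := by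
  have h : Measurable (vdHom P.κ P.Q) := (vdHom_mp P.κ P.hQ).measurable
  exact h (measurableSet_bad ((3 : ℝ) * P.Q / l) (1 - 3 * P.Q / l))

end

end Pool.Agent.Odo
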