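import Pool.Agent.Lib_MP_84c575_an.TDb

/-!
# Transfer from `T3 = (T1 × T1) × T1` to `Fin 3 → T1`
-/

open MeasureTheory Set Filter
open scoped ContDiff Topology

namespace Pool.Agent.Odo

noncomputable section

/-- A bijection of the torus `(ℝ/ℤ)^n` is a `C^∞` diffeomorphism if it and its inverse lift to
`C^∞` maps of `ℝ^n`. -/
def IsSmoothDiffeo {n : ℕ} (f : (Fin n → UnitAddCircle) ≃ (Fin n → UnitAddCircle)) : Prop :=
  (∃ F : (Fin n → ℝ) → (Fin n → ℝ), ContDiff ℝ ∞ F ∧
    ∀ (x : Fin n → ℝ) (i : Fin n), ((F x i : ℝ) : UnitAddCircle) =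
      f (fun j => (x j : UnitAddCircle)) i) ∧
  (∃ F : (Fin n → ℝ) → (Fin n → ℝ), ContDiff ℝ ∞ F ∧
    ∀ (x : Fin n → ℝ) (i : Fin n), ((F x i : ℝ) : UnitAddCircle) =
      f.symm (fun j => (x j : UnitAddCircle)) i)

/-- `((a,b),c) ↦ ![a,b,c]` -/
def tri (X : Type) : (X × X) × X ≃ (Fin 3 → X) where
  toFun y := ![y.1.1, y.1.2, y.2]
  invFun v := ((v 0, v 1), v 2)
  left_inv y := rfl
  right_inv v := by
    funext i
    fin_cases i <;> rfl

/-- the measurable version for the circle -/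
def triM : T3 ≃ᵐ (Fin 3 → UnitAddCircle) where
  toEquiv := tri UnitAddCircle
  measurable_toFun := by
    refine measurable_pi_iff.2 fun i => ?_
    fin_cases i
    · exact measurable_fst.comp measurable_fst
    · exact measurable_snd.comp measurable_fst
    · exact measurable_snd
  measurable_invFun :=
    ((measurable_pi_apply 0).prodMk (measurable_pi_apply 1)).prodMk (measurable_pi_apply 2)

lemma mp_triM : MeasurePreserving triM volume volume := by
  refine ⟨triM.measurable, ?_⟩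
  symm
  refine Measure.pi_eq fun s hs => ?_
  rw [Measure.map_apply triM.measurable (MeasurableSet.univ_pi hs)]
  have h1 : (triM : T3 → (Fin 3 → UnitAddCircle)) ⁻¹' (Set.univ.pi s) =
      (s 0 ×ˢ s 1) ×ˢ s 2 := by
    ext y
    simp only [mem_preimage, Set.mem_pi, mem_univ, true_implies, mem_prod]
    constructor
    · intro h
      exact ⟨⟨h 0, h 1⟩, h 2⟩
    · rintro ⟨⟨h0, h1⟩, h2⟩ i
      fin_cases i
      · exact h0
      · exact h1
      · exact h2
  rw [h1]
  show (Measure.prod (Measure.prod (volume : Measure T1) (volume : Measure T1))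
    (volume : Measure T1)) ((s 0 ×ˢ s 1) ×ˢ s 2) = _
  rw [Measure.prod_prod, Measure.prod_prod, Fin.prod_univ_three]

lemma contDiff_tri_conj {F : E3 → E3} (hF : ContDiff ℝ ∞ F) :
    ContDiff ℝ ∞ (fun x : Fin 3 → ℝ => tri ℝ (F ((tri ℝ).symm x))) := by
  have h1 : ContDiff ℝ ∞ (fun x : Fin 3 → ℝ => (((x 0, x 1), x 2) : E3)) :=
    ((contDiff_apply ℝ ℝ 0).prodMk (contDiff_apply ℝ ℝ 1)).prodMk (contDiff_apply ℝ ℝ 2)
  have h2 : ContDiff ℝ ∞ (fun x : Fin 3 → ℝ => F ((x 0, x 1), x 2)) := hF.comp h1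
  refine contDiff_pi.2 fun i => ?_
  fin_cases i
  · exact h2.fst.fst
  · exact h2.fst.snd
  · exact h2.snd

lemma tri_lift {F : E3 → E3} {e : T3 → T3} (h : ∀ x, p3 (F x) = e (p3 x)) (x : Fin 3 → ℝ)
    (i : Fin 3) :
    ((tri ℝ (F ((tri ℝ).symm x)) i : ℝ) : UnitAddCircle) =
      tri UnitAddCircle (e ((tri UnitAddCircle).symm (fun j => (x j : UnitAddCircle)))) i := by
  have h1 := h ((tri ℝ).symm x)
  have h2 : p3 ((tri ℝ).symm x) = (tri UnitAddCircle).symm (fun j => (x j : UnitAddCircle)) := rfl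
  rw [← h2, ← h1]
  fin_cases i <;> rfl

lemma transfer (T : TD) : ∃ (e : T3 ≃ (Fin 3 → UnitAddCircle)),
    MeasurePreserving e volume volume ∧ MeasurePreserving e.symm volume volume ∧
    IsSmoothDiffeo (e.symm.trans (T.e.trans e)) := by
  refine ⟨tri UnitAddCircle, mp_triM, mp_triM.symm triM, ?_, ?_⟩
  · exact ⟨_, contDiff_tri_conj T.smooth, fun x i => tri_lift T.sc x i⟩
  · exact ⟨_, contDiff_tri_conj T.smooth', fun x i => tri_lift T.symm.sc x i⟩

end

end Pool.Agent.Odo
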