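import Pool.Agent.Lib_MP_84c575_an.Step
import Pool.Agent.Lib_MP_84c575_an.LimF
import Pool.Agent.Lib_MP_84c575_an.Descend
import Pool.Agent.Lib_MP_84c575_an.LimA
import Pool.Agent.Lib_MP_84c575_an.LimB
import Pool.Agent.Lib_MP_84c575_an.LimC
import Pool.Agent.Lib_MP_84c575_an.Transfer

open MeasureTheory Set Filter
open scoped ContDiff Topology

namespace Pool.Agent.Odo

noncomputable section

/-- the sequence of stages -/
def stg : (n : ℕ) → {S : Stage // Good n S}
  | 0 => ⟨Stage.init, good_init⟩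
  | n + 1 => ⟨(step n (stg n).1 (stg n).2).choose, (step n (stg n).1 (stg n).2).choose_spec.1⟩

lemma stg_rel (n : ℕ) : Rel n (stg n).1 (stg (n + 1)).1 :=
  (step n (stg n).1 (stg n).2).choose_spec.2

/-- the scale -/
def qq (n : ℕ) : ℕ := (stg n).1.P.Q

lemma qq_dvd (n : ℕ) : qq n ∣ qq (n + 1) := (stg_rel n).2.2.2.1.choose

instance (n : ℕ) : NeZero (qq n) := ⟨(stg n).1.P.hQ.ne'⟩

lemma qq_strictMono : StrictMono qq := strictMono_nat_of_lt_succ fun n => (stg_rel n).1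

/-- isomorphism of measure preserving systems modulo null sets -/
def IsoModNull {X Y : Type*} [MeasurableSpace X] [MeasurableSpace Y] (μ : Measure X) (S : X → X)
    (ν : Measure Y) (T : Y → Y) : Prop :=
  ∃ (Θ : X → Y) (Ψ : Y → X), MeasurePreserving Θ μ ν ∧ MeasurePreserving Ψ ν μ ∧
    (∀ᵐ x ∂μ, Ψ (Θ x) = x) ∧ (∀ᵐ y ∂ν, Θ (Ψ y) = y) ∧ ∀ᵐ x ∂μ, Θ (S x) = T (Θ x)

theorem main : ∃ T : TD, IsoModNull (volume : Measure T3) T.e (odoHaar qq qq_dvd)
    (fun x => x + odoOne qq qq_dvd) := by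
  obtain ⟨F', h1, h2, h3, h4, h5⟩ := exists_limit (fun n => (stg n).1.f.F)
    (fun n => (stg n).1.f.smooth) (fun n => (stg n).1.f.smooth') (fun n => (stg n).1.f.per)
    (fun n => (stg_rel n).2.1) (fun n => (stg_rel n).2.2.1)
  obtain ⟨T, hT, hTd⟩ := exists_TD_limit (fun n => (stg n).1.f) F' h1 h2 h3 h4 h5
  obtain ⟨Θ, hΘ, hl⟩ := exists_limit_label (volume : Measure T3) qq qq_dvd
    (fun n => (stg n).1.Φ) (fun n => (stg n).1.Φ_measurable)
    (fun n => (stg_rel n).2.2.2.1.choose_spec)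
  have he := limit_equivariant (volume : Measure T3) qq qq_dvd (fun n => (stg n).1.Φ)
    (fun n => (stg n).1.Φ_measurable) Θ hΘ hl (fun n => (stg n).1.f.e) T.e
    (fun n => (stg n).1.f.mp) T.mp hTd (fun n x => (stg n).1.Φ_f x)
  obtain ⟨Ψ, hΨ, m1, m2, m3, m4⟩ := limit_inverse (volume : Measure T3) qq qq_dvd
    (fun n => (stg n).1.Φ) Θ hΘ hl T.e T.mp he (fun n => (stg_rel n).2.2.2.2)
  exact ⟨T, Θ, Ψ, m1, m2, m3, m4, he⟩

theorem main_fin : ∃ f : (Fin 3 → UnitAddCircle) ≃ (Fin 3 → UnitAddCircle),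
    IsSmoothDiffeo f ∧ MeasurePreserving f volume volume ∧
      IsoModNull (volume : Measure (Fin 3 → UnitAddCircle)) f (odoHaar qq qq_dvd)
        (fun x => x + odoOne qq qq_dvd) := by
  obtain ⟨T, Θ, Ψ, m1, m2, m3, m4, m5⟩ := main
  obtain ⟨e, he, he', hs⟩ := transfer T
  refine ⟨e.symm.trans (T.e.trans e), hs, ?_, Θ ∘ e.symm, e ∘ Ψ, m1.comp he', he.comp m2, ?_, ?_, ?_⟩
  · exact he.comp (T.mp.comp he')
  · have h := he'.quasiMeasurePreserving.ae m3
    filter_upwards [h] with x hx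
    simp only [Function.comp_apply]
    rw [hx, Equiv.apply_symm_apply]
  · filter_upwards [m4] with y hy
    simp only [Function.comp_apply]
    rw [Equiv.symm_apply_apply, hy]
  · have h := he'.quasiMeasurePreserving.ae m5
    filter_upwards [h] with x hx
    simp only [Function.comp_apply, Equiv.trans_apply]
    rw [Equiv.symm_apply_apply]
    exact hx

end

end Pool.Agent.Odo
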