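import Pool.Agent.Lib_MP_84c575_an.Loc
import Pool.Agent.Lib_MP_84c575_an.TDb
import Pool.Agent.Lib_MP_84c575_an.Gexact
import Pool.Agent.Lib_MP_84c575_an.Gclose
import Pool.Agent.Lib_MP_84c575_an.Close

open MeasureTheory Set Filter
open scoped ContDiff Topology

namespace Pool.Agent.Odo

noncomputable section

/-- the diffeomorphism of a stage -/
def Stage.f (S : Stage) : TD := S.h.symm.trans ((TD.rot S.P.g).trans S.h)

/-- the label transported by `h` -/
def Stage.Φ (S : Stage) (x : T3) : ZMod S.P.Q := S.φ (S.h.e.symm x).1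

/-- invariants of stage `n` -/
def Good (n : ℕ) (S : Stage) : Prop :=
  ∃ δ > 0, (∀ x y : T3, dist x y < δ → dist (S.h.e x) (S.h.e y) ≤ (1 / 2) ^ n) ∧
    (2 + 2 * (S.P.κ : ℝ)) / S.P.Q < δ / 4 ∧
    ∃ η < δ / 4, ∃ B : Set T2, MeasurableSet B ∧ volume B ≤ ENNReal.ofReal ((1 / 2) ^ n) ∧
      ∀ p ∉ B, ∀ p' : T2, ‖vd S.P.κ (p' - p)‖ < 1 / S.P.Q → ‖p'.2 - p.2‖ < 2 / S.P.Q →
        ‖(S.φ p' - S.φ p).val • p2 S.P.g‖ ≤ η

/-- relation between consecutive stages -/
def Rel (n : ℕ) (S S' : Stage) : Prop :=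
  S.P.Q < S'.P.Q ∧
  (∀ j ≤ n, ∀ x : E3, ‖iteratedFDeriv ℝ j (fun x => S'.f.F x - S.f.F x) x‖ ≤ (1 / 2) ^ n) ∧
  (∀ j ≤ n, ∀ x : E3,
    ‖iteratedFDeriv ℝ j (fun x => S'.f.F.symm x - S.f.F.symm x) x‖ ≤ (1 / 2) ^ n) ∧
  (∃ hd : S.P.Q ∣ S'.P.Q, volume {x | ZMod.castHom hd (ZMod S.P.Q) (S'.Φ x) ≠ S.Φ x} ≤
    ENNReal.ofReal ((1 / 2) ^ n)) ∧
  ∃ A : Set T3, MeasurableSet A ∧ volume Aᶜ ≤ ENNReal.ofReal (2 * (1 / 2) ^ n) ∧
    ∀ x ∈ A, ∀ y ∈ A, S'.Φ x = S'.Φ y → dist x y ≤ (1 / 2) ^ n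

/-- the stage obtained from `S` with a diffeomorphism `T` (commuting with the rotation) and `l` -/
def Stage.next (S : Stage) (T : TD) {l : ℕ} (hl : 0 < l) (hc : Nat.Coprime S.P.Q l) : Stage where
  P := S.P.next l hl hc
  φ := labN S.P l hc
  hφm := measurable_labN S.P hc
  hφ := labN_add_gN S.P hl hc
  h := T.trans S.h

lemma Stage.f_F (S : Stage) (x : E3) : S.f.F x = S.h.F (S.h.F.symm x + (S.P.g, 0)) := rfl

lemma Stage.f_F_symm (S : Stage) (x : E3) : S.f.F.symm x = S.h.F (S.h.F.symm x + (-S.P.g, 0)) := by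
  show S.h.F ((Equiv.addRight ((S.P.g, 0) : E3)).symm (S.h.F.symm x)) = _
  congr 1
  show S.h.F.symm x + -((S.P.g, 0) : E3) = _
  simp

/-- the diffeomorphism of `S` in terms of the conjugating map of the next stage -/
lemma Stage.f_F_next (S : Stage) {T : TD} (hT : ∀ x : E3, T.F (x + (S.P.g, 0)) = T.F x + (S.P.g, 0))
    (x : E3) : S.f.F x = (T.trans S.h).F ((T.trans S.h).F.symm x + (S.P.g, 0)) := by
  show S.h.F (S.h.F.symm x + (S.P.g, 0)) = S.h.F (T.F (T.F.symm (S.h.F.symm x) + (S.P.g, 0)))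
  rw [hT, Equiv.apply_symm_apply]

lemma Stage.f_F_symm_next (S : Stage) {T : TD}
    (hT : ∀ x : E3, T.F (x + (S.P.g, 0)) = T.F x + (S.P.g, 0))
    (x : E3) : S.f.F.symm x = (T.trans S.h).F ((T.trans S.h).F.symm x + (-S.P.g, 0)) := by
  rw [S.f_F_symm]
  show S.h.F (S.h.F.symm x + (-S.P.g, 0)) = S.h.F (T.F (T.F.symm (S.h.F.symm x) + (-S.P.g, 0)))
  congr 1
  have h1 := hT (T.F.symm (S.h.F.symm x) + (-S.P.g, 0))
  have h2 : T.F.symm (S.h.F.symm x) + (-S.P.g, 0) + ((S.P.g, 0) : E3) =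
      T.F.symm (S.h.F.symm x) := by
    rw [add_assoc]
    have : ((-S.P.g, 0) : E3) + ((S.P.g, 0) : E3) = 0 := by simp
    rw [this, add_zero]
  rw [h2, Equiv.apply_symm_apply] at h1
  have h3 : ((-S.P.g, 0) : E3) = -((S.P.g, 0) : E3) := by simp
  have h4 : T.F (T.F.symm (S.h.F.symm x) + (-S.P.g, 0)) = S.h.F.symm x - (S.P.g, 0) := by
    rw [eq_sub_iff_add_eq]
    exact h1.symm
  rw [h4, h3, sub_eq_add_neg]

lemma Stage.Φ_measurable (S : Stage) : Measurable S.Φ :=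
  S.hφm.comp (measurable_fst.comp S.h.mp'.measurable)

lemma Stage.Φ_f (S : Stage) (x : T3) : S.Φ (S.f.e x) = S.Φ x + 1 := by
  show S.φ (S.h.e.symm (S.h.e (S.h.e.symm x + (p2 S.P.g, 0)))).1 = _
  rw [Equiv.symm_apply_apply]
  show S.φ ((S.h.e.symm x).1 + p2 S.P.g) = _
  rw [S.hφ]
  rfl

lemma tendsto_const_div_lin (C : ℝ) {Q : ℕ} (hQ : 0 < Q) :
    Tendsto (fun m : ℕ => C / ((Q * m + 1 : ℕ) : ℝ)) atTop (𝓝 0) := by
  apply Tendsto.const_div_atTop
  have h1 : Tendsto (fun m : ℕ => Q * m + 1) atTop atTop := by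
    apply tendsto_atTop_mono (f := fun m : ℕ => m) _ tendsto_id
    intro m
    nlinarith
  exact tendsto_natCast_atTop_atTop.comp h1

lemma exists_large (C ε : Fin 6 → ℝ) (hε : ∀ i, 0 < ε i) {Q : ℕ} (hQ : 0 < Q) :
    ∃ l : ℕ, 2 ≤ l ∧ Nat.Coprime Q l ∧ ∀ i, C i / (l : ℝ) < ε i := by
  have h1 : ∀ i, ∀ᶠ m : ℕ in atTop, C i / ((Q * m + 1 : ℕ) : ℝ) < ε i := fun i =>
    (tendsto_const_div_lin (C i) hQ).eventually_lt_const (hε i)
  have h2 : ∀ᶠ m : ℕ in atTop, ∀ i, C i / ((Q * m + 1 : ℕ) : ℝ) < ε i := eventually_all.2 h1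
  obtain ⟨m, hm, hm1⟩ := (h2.and (eventually_ge_atTop 1)).exists
  refine ⟨Q * m + 1, ?_, ?_, hm⟩
  · nlinarith
  · rw [add_comm]
    exact (Nat.coprime_add_mul_left_right Q 1 m).2 (Nat.coprime_one_right Q)

lemma measure_preimage_le_of_mp {α β : Type*} [MeasurableSpace α] [MeasurableSpace β]
    {μ : Measure α} {ν : Measure β} {f : α → β} (hf : MeasurePreserving f μ ν) (s : Set β) :
    μ (f ⁻¹' s) ≤ ν s := by
  rw [← hf.map_eq]
  exact Measure.le_map_apply hf.measurable.aemeasurable s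

lemma measurableSet_eq_T3 {f g : T3 → T3} (hf : Measurable f) (hg : Measurable g) :
    MeasurableSet {y | f y = g y} := by
  have : {y | f y = g y} = {y | dist (f y) (g y) = 0} := by
    ext y; simp
  rw [this]
  exact measurableSet_eq_fun (hf.dist hg) measurable_const

theorem step (n : ℕ) (S : Stage) (h : Good n S) : ∃ S' : Stage, Good (n + 1) S' ∧ Rel n S S' := by
  obtain ⟨δ, hδ, hmod, hQ, η, hη, B, hBm, hBv, hloc⟩ := h
  obtain ⟨M, hM0⟩ := exists_nat_gt (16 / δ)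
  have hMpos : (0 : ℝ) < M := lt_trans (by positivity) hM0
  have hM : 0 < M := by exact_mod_cast hMpos
  have hM' : (1 : ℝ) / M < δ / 16 := by
    rw [div_lt_div_iff₀ hMpos (by norm_num)]
    rw [div_lt_iff₀ hδ] at hM0
    linarith
  have hεn : (0 : ℝ) < (1 / 2) ^ n := by positivity
  have hεn1 : (0 : ℝ) < (1 / 2) ^ (n + 1) := by positivity
  obtain ⟨T, hT, hTv⟩ := S.exists_TD hM hεn
  obtain ⟨δ', hδ', hmod'⟩ := (T.trans S.h).modulus hεn1
  obtain ⟨s1, hs1, hc1⟩ := close_of_small (T.trans S.h) S.P.g S.P.w n hεn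
  obtain ⟨s2, hs2, hc2⟩ := close_of_small (T.trans S.h) (-S.P.g) (-S.P.w) n hεn
  have hQpos : (0 : ℝ) < S.P.Q := by exact_mod_cast S.P.hQ
  obtain ⟨l, hl2, hcop, hl⟩ := exists_large
    ![1, 1, S.P.Q, (2 + 2 * ((S.P.κ : ℝ) + S.P.Q)) / S.P.Q, 3 * ((S.P.κ : ℝ) + 1), 6 * S.P.Q]
    ![min s1 (1 / S.P.Q), s2, δ / 16, δ' / 4, δ' / 4, (1 / 2) ^ (n + 1)]
    (by
      intro i
      fin_cases i
      · exact lt_min hs1 (by positivity)
      · exact hs2
      · exact div_pos hδ (by norm_num)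
      · exact div_pos hδ' (by norm_num)
      · exact div_pos hδ' (by norm_num)
      · exact hεn1) S.P.hQ
  have l0 : (1 : ℝ) / l < min s1 (1 / S.P.Q) := hl 0
  have l1 : (1 : ℝ) / l < s2 := hl 1
  have l2 : (S.P.Q : ℝ) / l < δ / 16 := hl 2
  have l3 : (2 + 2 * ((S.P.κ : ℝ) + S.P.Q)) / S.P.Q / l < δ' / 4 := hl 3
  have l4 : 3 * ((S.P.κ : ℝ) + 1) / l < δ' / 4 := hl 4
  have l5 : 6 * (S.P.Q : ℝ) / l < (1 / 2) ^ (n + 1) := hl 5
  have hl0 : 0 < l := by omega
  have hlpos : (0 : ℝ) < l := by exact_mod_cast hl0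
  refine ⟨S.next T hl0 hcop, ?_, ?_⟩
  · refine ⟨δ', hδ', hmod', ?_, 3 * ((S.P.κ : ℝ) + 1) / l, l4,
      {p : T2 | ¬ ((3 : ℝ) * S.P.Q / l ≤ fr (S.P.Q • vd S.P.κ p) ∧
        fr (S.P.Q • vd S.P.κ p) ≤ 1 - 3 * S.P.Q / l)}, measurableSet_locB S.P l, ?_, ?_⟩
    · show (2 + 2 * ((S.P.κ + S.P.Q : ℕ) : ℝ)) / ((S.P.Q * l : ℕ) : ℝ) < δ' / 4
      push_cast
      rw [div_div] at l3
      exact l3
    · exact (volume_locB S.P hl0).trans (ENNReal.ofReal_le_ofReal l5.le)
    · intro p hp p' h1 h2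
      simp only [mem_setOf_eq, not_not] at hp
      exact loc S.P hl0 hcop p p' h1 h2 hp
  · refine ⟨?_, ?_, ?_, ?_, ?_⟩
    · show S.P.Q < S.P.Q * l
      have := S.P.hQ
      nlinarith
    · intro j hj x
      have h1 := hc1 (1 / l) (by
        rw [abs_of_pos (by positivity)]
        exact (l0.trans_le (min_le_left _ _)).le) j hj x
      have h2 : (fun x => (S.next T hl0 hcop).f.F x - S.f.F x) =
          (fun x : E3 => (T.trans S.h).F ((T.trans S.h).F.symm x + (S.P.g + (1 / (l : ℝ)) • S.P.w, 0))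
            - (T.trans S.h).F ((T.trans S.h).F.symm x + (S.P.g, 0))) := by
        funext x
        rw [S.f_F_next hT]
        rfl
      rw [h2]
      exact h1
    · intro j hj x
      have h1 := hc2 (1 / l) (by
        rw [abs_of_pos (by positivity)]
        exact l1.le) j hj x
      have h2 : (fun x => (S.next T hl0 hcop).f.F.symm x - S.f.F.symm x) =
          (fun x : E3 => (T.trans S.h).F ((T.trans S.h).F.symm x +
              (-S.P.g + (1 / (l : ℝ)) • (-S.P.w), 0))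
            - (T.trans S.h).F ((T.trans S.h).F.symm x + (-S.P.g, 0))) := by
        funext x
        rw [S.f_F_symm_next hT, Stage.f_F_symm]
        have h3 : -(S.next T hl0 hcop).P.g = -S.P.g + (1 / (l : ℝ)) • (-S.P.w) := by
          show -(S.P.g + (1 / (l : ℝ)) • S.P.w) = _
          rw [neg_add, smul_neg]
        rw [h3]
        rfl
      rw [h2]
      exact h1
    · refine ⟨Dvd.intro _ rfl, ?_⟩
      refine le_trans ?_ hTv
      refine le_trans (measure_mono ?_)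
        (measure_preimage_le_of_mp (T.trans S.h).mp' {y | T.e y ≠ S.G M y})
      intro x hx
      simp only [mem_setOf_eq, mem_preimage] at hx ⊢
      intro hTG
      apply hx
      have hy : T.e ((T.trans S.h).e.symm x) = S.h.e.symm x := by
        show T.e (T.e.symm (S.h.e.symm x)) = _
        rw [Equiv.apply_symm_apply]
      have h1 : (S.next T hl0 hcop).Φ x = labN S.P l hcop ((T.trans S.h).e.symm x).1 := rfl
      rw [h1]
      have h2 := labN_cast S.P hcop (Dvd.intro _ rfl) ((T.trans S.h).e.symm x).1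
      have h3 := S.φ_G hM ((T.trans S.h).e.symm x)
      rw [← hTG, hy] at h3
      show _ = S.φ (S.h.e.symm x).1
      rw [h3]
      exact h2
    · have hG := S.G_mp hM
      have hm1 : MeasurableSet {y | T.e y = S.G M y} :=
        measurableSet_eq_T3 T.mp.measurable hG.measurable
      have hm2 : MeasurableSet {y | (S.G M y).1 ∉ B} :=
        (measurable_fst.comp hG.measurable) hBm.compl
      refine ⟨(T.trans S.h).e.symm ⁻¹' ({y | T.e y = S.G M y} ∩ {y | (S.G M y).1 ∉ B}),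
        (T.trans S.h).mp'.measurable (hm1.inter hm2), ?_, ?_⟩
      · rw [← preimage_compl, (T.trans S.h).mp'.measure_preimage
          (hm1.inter hm2).compl.nullMeasurableSet, compl_inter]
        refine (measure_union_le _ _).trans ?_
        have e1 : volume ({y | T.e y = S.G M y}ᶜ : Set T3) ≤ ENNReal.ofReal ((1 / 2) ^ n) := hTv
        have e2 : volume ({y | (S.G M y).1 ∉ B}ᶜ : Set T3) ≤ ENNReal.ofReal ((1 / 2) ^ n) := by
          have hfst : MeasurePreserving (Prod.fst : T3 → T2) volume volume :=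
            measurePreserving_fst
          have e3 : ({y | (S.G M y).1 ∉ B}ᶜ : Set T3) = (Prod.fst ∘ S.G M) ⁻¹' B := by
            ext y
            simp
          rw [e3, (hfst.comp hG).measure_preimage hBm.nullMeasurableSet]
          exact hBv
        refine (add_le_add e1 e2).trans ?_
        rw [← ENNReal.ofReal_add hεn.le hεn.le, two_mul]
      · intro x hx y hy hxy
        obtain ⟨hx1, hx2⟩ := hx
        obtain ⟨hy1, hy2⟩ := hy
        simp only [mem_setOf_eq] at hx1 hx2 hy1 hy2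
        have h1 := S.G_close hM hl0 hcop hM' l2 (l0.trans_le (min_le_right _ _)).le hQ hη hloc
          (y := (T.trans S.h).e.symm x) (y' := (T.trans S.h).e.symm y) hxy hx2
        have h2 := hmod _ _ h1
        rw [← hx1, ← hy1] at h2
        have h3 : ∀ z, S.h.e (T.e ((T.trans S.h).e.symm z)) = z := by
          intro z
          show S.h.e (T.e (T.e.symm (S.h.e.symm z))) = z
          rw [Equiv.apply_symm_apply, Equiv.apply_symm_apply]
        rw [h3, h3] at h2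
        exact h2

/-- the initial stage -/
def Stage.init : Stage where
  P := Par.init
  φ := fun _ => 0
  hφm := measurable_const
  hφ := fun _ => Subsingleton.elim (α := ZMod 1) _ _
  h := TD.refl

lemma good_init : Good 0 Stage.init := by
  refine ⟨100, by norm_num, ?_, ?_, 0, by norm_num, ∅, MeasurableSet.empty, by simp, ?_⟩
  · intro x y _
    rw [pow_zero]
    have h1 : ∀ a b : T1, dist a b ≤ 1 := by
      intro a b
      rw [dist_eq_norm]
      have := AddCircle.norm_le_half_period (p := (1 : ℝ)) (x := a - b) one_ne_zero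
      rw [abs_one] at this
      linarith
    show dist x y ≤ 1
    rw [Prod.dist_eq, Prod.dist_eq]
    exact max_le (max_le (h1 _ _) (h1 _ _)) (h1 _ _)
  · show (2 + 2 * ((0 : ℕ) : ℝ)) / ((1 : ℕ) : ℝ) < 100 / 4
    norm_num
  · intro p _ p' _ _
    have h0 : p2 (Stage.init.P.g) = 0 := p2_zero
    rw [h0, smul_zero, norm_zero]

end

end Pool.Agent.Odo
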